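import Pool.Agent.N229.PG.Stm

/-! Project PG (helper229), leaf K4 (helper793): difference of the kernel. -/

set_option autoImplicit false

namespace PG

open Complex

theorem h793_norm_cst (α : ℝ) : ‖cst α‖ = 1 := by
  have h : ‖cst α‖ ^ 2 = 1 := by
    rw [← Complex.normSq_eq_norm_sq, Complex.normSq_apply]
    simp only [cst]
    nlinarith [Real.sin_sq_add_cos_sq (Real.pi * α / 2)]
  have h0 : 0 ≤ ‖cst α‖ := norm_nonneg _
  nlinarith

/-- the claim for one of the points -/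
theorem h793_claim {α s0 σ ρ x w : ℝ} (ha : 0 < α) (ha1 : α < 1) (hs0 : 0 < s0) (hρ : 0 < ρ)
    (hσ : σ = ρ ^ (1 - α)) (hx : 0 < x) (hw : 0 ≤ w) (h : s0 * (x / σ) * w ≤ 1) :
    w * x ^ (1 - α) / σ ≤ w + 2 / s0 * (ρ + x) ^ (-α) := by
  have hσ0 : 0 < σ := by rw [hσ]; positivity
  have hp : 0 < (ρ + x) ^ (-α) := by positivity
  rcases le_or_gt x ρ with hxρ | hxρ
  · have h1 : x ^ (1 - α) ≤ σ := by
      rw [hσ]
      exact Real.rpow_le_rpow hx.le hxρ (by linarith)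
    have h2 : w * x ^ (1 - α) / σ ≤ w := by
      rw [div_le_iff₀ hσ0]
      exact mul_le_mul_of_nonneg_left h1 hw
    have h3 : 0 ≤ 2 / s0 * (ρ + x) ^ (-α) := by positivity
    linarith
  · have h1 : w / σ ≤ 1 / (s0 * x) := by
      rw [div_le_div_iff₀ hσ0 (by positivity)]
      have h2 : s0 * (x / σ) * w * σ ≤ 1 * σ := mul_le_mul_of_nonneg_right h hσ0.le
      have h3 : s0 * (x / σ) * w * σ = w * (s0 * x) := by
        field_simp
      rw [h3] at h2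
      linarith
    have h4 : x ^ (1 - α) = x * x ^ (-α) := by
      rw [sub_eq_add_neg, Real.rpow_add hx, Real.rpow_one]
    have h5 : w * x ^ (1 - α) / σ ≤ x ^ (-α) / s0 := by
      rw [h4]
      have h6 : w * (x * x ^ (-α)) / σ = (w / σ) * (x * x ^ (-α)) := by ring
      rw [h6]
      have h7 : (w / σ) * (x * x ^ (-α)) ≤ (1 / (s0 * x)) * (x * x ^ (-α)) :=
        mul_le_mul_of_nonneg_right h1 (by positivity)
      refine h7.trans (le_of_eq ?_)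
      field_simp
    have h8 : (2 : ℝ) ^ (-(1 : ℝ)) ≤ 2 ^ (-α) :=
      Real.rpow_le_rpow_of_exponent_le (by norm_num) (by linarith)
    rw [Real.rpow_neg_one] at h8
    have h9 : (2 * x) ^ (-α) ≤ (ρ + x) ^ (-α) :=
      Real.rpow_le_rpow_of_nonpos (by positivity) (by linarith) (by linarith)
    rw [Real.mul_rpow (by norm_num) hx.le] at h9
    have hxa : 0 < x ^ (-α) := by positivity
    have h10 : x ^ (-α) ≤ 2 * (ρ + x) ^ (-α) := by nlinarith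
    have h11 : x ^ (-α) / s0 ≤ 2 / s0 * (ρ + x) ^ (-α) := by
      rw [div_mul_eq_mul_div]
      exact div_le_div_of_nonneg_right h10 hs0.le
    linarith

theorem leaf_K4 : StmK1 → StmK2 → StmK4 := by
  intro K1 K2 α ha ha1
  obtain ⟨C2, hC2, hK2⟩ := K2 α ha ha1
  have hs0 : 0 < Real.sin (Real.pi * α) := by
    apply Real.sin_pos_of_pos_of_lt_pi
    · positivity
    · nlinarith [Real.pi_pos]
  obtain ⟨s0, hs0'⟩ : ∃ s0, s0 = Real.sin (Real.pi * α) := ⟨_, rfl⟩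
  rw [← hs0'] at hs0
  refine ⟨max 1 (max (C2 + 2) (2 / s0)), le_max_left _ _, ?_⟩
  intro ρ hρ s t hs hsne ht htne
  obtain ⟨σ, hσ⟩ : ∃ σ : ℝ, σ = ρ ^ (1 - α) := ⟨_, rfl⟩
  have hσ0 : 0 < σ := by rw [hσ]; positivity
  have hns : 0 < ‖s‖ := norm_pos_iff.2 hsne
  have hnt : 0 < ‖t‖ := norm_pos_iff.2 htne
  obtain ⟨-, s1, s2, -, -⟩ := K1 α ha ha1 σ hσ0 s hs
  obtain ⟨-, t1, t2, -, -⟩ := K1 α ha ha1 σ hσ0 t ht
  rw [← hs0'] at s1 s2 t1 t2
  have hds : 0 < ‖den α σ s‖ := lt_of_lt_of_le (by positivity) s1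
  have hdt : 0 < ‖den α σ t‖ := lt_of_lt_of_le (by positivity) t1
  have hds' : den α σ s ≠ 0 := norm_pos_iff.1 hds
  have hdt' : den α σ t ≠ 0 := norm_pos_iff.1 hdt
  have eW : ker α ρ s = (den α σ s)⁻¹ := by rw [ker, hσ]
  have eW' : ker α ρ t = (den α σ t)⁻¹ := by rw [ker, hσ]
  have hdiff : ker α ρ s - ker α ρ t = ker α ρ s * ker α ρ t * (den α σ t - den α σ s) := by
    rw [eW, eW']
    field_simp
  obtain ⟨X, hX⟩ : ∃ X : ℝ, X = ‖s - t‖ ^ α := ⟨_, rfl⟩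
  have hX0 : 0 ≤ X := by rw [hX]; positivity
  have hden : ‖den α σ t - den α σ s‖ ≤ C2 * X + X * (‖s‖ ^ (1 - α) + ‖t‖ ^ (1 - α)) / σ := by
    have e1 : den α σ t - den α σ s = cst α * (t ^ (α : ℂ) - s ^ (α : ℂ)) + (t - s) / (σ : ℂ) := by
      rw [den, den]; ring
    rw [e1]
    refine (norm_add_le _ _).trans (add_le_add ?_ ?_)
    · rw [norm_mul, h793_norm_cst, one_mul, norm_sub_rev, hX]
      exact hK2 s t hs ht
    · rw [norm_div, Complex.norm_real, Real.norm_of_nonneg hσ0.le, norm_sub_rev]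
      refine div_le_div_of_nonneg_right ?_ hσ0.le
      have e2 : ‖s - t‖ = X * ‖s - t‖ ^ (1 - α) := by
        rw [hX, ← Real.rpow_add_of_nonneg (norm_nonneg _) ha.le (by linarith)]
        have : α + (1 - α) = 1 := by ring
        rw [this, Real.rpow_one]
      have e3 : ‖s - t‖ ^ (1 - α) ≤ ‖s‖ ^ (1 - α) + ‖t‖ ^ (1 - α) :=
        (Real.rpow_le_rpow (norm_nonneg _) (norm_sub_le s t) (by linarith)).trans
          (Real.rpow_add_le_add_rpow hns.le hnt.le (by linarith) (by linarith))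
      calc ‖s - t‖ = X * ‖s - t‖ ^ (1 - α) := e2
        _ ≤ X * (‖s‖ ^ (1 - α) + ‖t‖ ^ (1 - α)) := mul_le_mul_of_nonneg_left e3 hX0
  obtain ⟨w, hw⟩ : ∃ w : ℝ, w = ‖ker α ρ s‖ := ⟨_, rfl⟩
  obtain ⟨w', hw'⟩ : ∃ w' : ℝ, w' = ‖ker α ρ t‖ := ⟨_, rfl⟩
  have hw0 : 0 ≤ w := by rw [hw]; exact norm_nonneg _
  have hw0' : 0 ≤ w' := by rw [hw']; exact norm_nonneg _
  have hws : s0 * (‖s‖ / σ) * w ≤ 1 := by
    rw [hw, eW, norm_inv]
    calc s0 * (‖s‖ / σ) * ‖den α σ s‖⁻¹ ≤ ‖den α σ s‖ * ‖den α σ s‖⁻¹ :=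
          mul_le_mul_of_nonneg_right s2 (by positivity)
      _ = 1 := mul_inv_cancel₀ hds.ne'
  have hwt : s0 * (‖t‖ / σ) * w' ≤ 1 := by
    rw [hw', eW', norm_inv]
    calc s0 * (‖t‖ / σ) * ‖den α σ t‖⁻¹ ≤ ‖den α σ t‖ * ‖den α σ t‖⁻¹ :=
          mul_le_mul_of_nonneg_right t2 (by positivity)
      _ = 1 := mul_inv_cancel₀ hdt.ne'
  have cs := h793_claim ha ha1 hs0 hρ hσ hns hw0 hws
  have ct := h793_claim ha ha1 hs0 hρ hσ hnt hw0' hwt
  rw [hdiff, norm_mul, norm_mul, ← hw, ← hw', ← hX]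
  obtain ⟨p, hp⟩ : ∃ p : ℝ, p = (ρ + ‖s‖) ^ (-α) := ⟨_, rfl⟩
  obtain ⟨p', hp'⟩ : ∃ p' : ℝ, p' = (ρ + ‖t‖) ^ (-α) := ⟨_, rfl⟩
  have hp0 : 0 ≤ p := by rw [hp]; positivity
  have hp0' : 0 ≤ p' := by rw [hp']; positivity
  rw [← hp] at cs
  rw [← hp'] at ct
  rw [← hp, ← hp']
  obtain ⟨C, hC⟩ : ∃ C : ℝ, C = max 1 (max (C2 + 2) (2 / s0)) := ⟨_, rfl⟩
  rw [← hC]
  have c1 : C2 + 2 ≤ C := by rw [hC]; exact (le_max_left _ _).trans (le_max_right _ _)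
  have c2 : 2 / s0 ≤ C := by rw [hC]; exact (le_max_right _ _).trans (le_max_right _ _)
  have step1 : w * w' * ‖den α σ t - den α σ s‖ ≤
      X * (C2 * (w * w') + (w * ‖s‖ ^ (1 - α) / σ) * w' + w * (w' * ‖t‖ ^ (1 - α) / σ)) := by
    refine (mul_le_mul_of_nonneg_left hden (mul_nonneg hw0 hw0')).trans (le_of_eq ?_)
    ring
  refine step1.trans ?_
  rw [mul_comm C X, mul_assoc X C]
  refine mul_le_mul_of_nonneg_left ?_ hX0
  have m1 : (w * ‖s‖ ^ (1 - α) / σ) * w' ≤ (w + 2 / s0 * p) * w' := mul_le_mul_of_nonneg_right cs hw0'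
  have m2 : w * (w' * ‖t‖ ^ (1 - α) / σ) ≤ w * (w' + 2 / s0 * p') := mul_le_mul_of_nonneg_left ct hw0
  have m3 : (C2 + 2) * (w * w') ≤ C * (w * w') := mul_le_mul_of_nonneg_right c1 (mul_nonneg hw0 hw0')
  have m4 : 2 / s0 * (p * w') ≤ C * (p * w') := mul_le_mul_of_nonneg_right c2 (mul_nonneg hp0 hw0')
  have m5 : 2 / s0 * (w * p') ≤ C * (w * p') := mul_le_mul_of_nonneg_right c2 (mul_nonneg hw0 hp0')
  nlinarith

end PG
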