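import Pool.Agent.N793.PG.Sets

/-! # Exponents: one pair of sizes controls a whole range of sizes -/

set_option autoImplicit false

namespace Pool.Agent.N793.PG

open Finset

/-- For all large primes `p`, all sets `A`, `B` with MORE than `p ^ α`, `p ^ α'` elements and all
nontrivial characters in the family `F`, the double sum is at most `p ^ (-δ) |A| |B|`. -/
def Saves (F : ∀ p : ℕ, MulChar (ZMod p) ℂ → Prop) (α α' δ : ℝ) : Prop :=
  ∃ p₀ : ℕ, ∀ p : ℕ, p.Prime → p₀ < p → ∀ A B : Finset (ZMod p),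
    (p : ℝ) ^ α < (A.card : ℝ) → (p : ℝ) ^ α' < (B.card : ℝ) →
      ∀ χ : MulChar (ZMod p) ℂ, χ ≠ 1 → F p χ →
        ‖∑ a ∈ A, ∑ b ∈ B, χ (a + b)‖ ≤ (p : ℝ) ^ (-δ) * (A.card : ℝ) * (B.card : ℝ)

/-- The same bound, but only for sets of EXACTLY `⌈p ^ β⌉` and `⌈p ^ β'⌉` elements. -/
def OneSize (F : ∀ p : ℕ, MulChar (ZMod p) ℂ → Prop) (β β' δ : ℝ) : Prop :=
  ∃ p₀ : ℕ, ∀ p : ℕ, p.Prime → p₀ < p → ∀ A B : Finset (ZMod p),
    A.card = ⌈(p : ℝ) ^ β⌉₊ → B.card = ⌈(p : ℝ) ^ β'⌉₊ →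
      ∀ χ : MulChar (ZMod p) ℂ, χ ≠ 1 → F p χ →
        ‖∑ a ∈ A, ∑ b ∈ B, χ (a + b)‖ ≤ (p : ℝ) ^ (-δ) * (A.card : ℝ) * (B.card : ℝ)

/-- The classical bound `√(p |A| |B|)` improved by the factor `p ^ (-δ)`, for sets of exactly
`⌈p ^ β⌉` and `⌈p ^ β'⌉` elements. -/
def BeatsClassical (F : ∀ p : ℕ, MulChar (ZMod p) ℂ → Prop) (β β' δ : ℝ) : Prop :=
  ∃ p₀ : ℕ, ∀ p : ℕ, p.Prime → p₀ < p → ∀ A B : Finset (ZMod p),
    A.card = ⌈(p : ℝ) ^ β⌉₊ → B.card = ⌈(p : ℝ) ^ β'⌉₊ →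
      ∀ χ : MulChar (ZMod p) ℂ, χ ≠ 1 → F p χ →
        ‖∑ a ∈ A, ∑ b ∈ B, χ (a + b)‖ ≤
          (p : ℝ) ^ (-δ) * Real.sqrt ((p : ℝ) * (A.card : ℝ) * (B.card : ℝ))


variable {F : ∀ p : ℕ, MulChar (ZMod p) ℂ → Prop}

/-- large powers dominate constants -/
theorem large (C e : ℝ) (he : 0 < e) : ∃ p₀ : ℕ, ∀ p : ℕ, p₀ < p → C ≤ (p : ℝ) ^ e := by
  have h := (tendsto_rpow_atTop he).comp (tendsto_natCast_atTop_atTop (R := ℝ))
  obtain ⟨N, hN⟩ := Filter.eventually_atTop.1 (h.eventually_ge_atTop C)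
  exact ⟨N, fun p hp => hN p hp.le⟩

theorem Saves.mono {α α₁ δ α' α₁' δ' : ℝ} (h : Saves F α α₁ δ) (hα : α ≤ α') (hα₁ : α₁ ≤ α₁')
    (hδ : δ' ≤ δ) : Saves F α' α₁' δ' := by
  obtain ⟨p₀, h⟩ := h
  refine ⟨p₀, fun p hp hlt A B hA hB χ hχ hF => ?_⟩
  have hp1 : (1 : ℝ) ≤ p := by exact_mod_cast hp.one_le
  have h1 : (p : ℝ) ^ α ≤ (p : ℝ) ^ α' := Real.rpow_le_rpow_of_exponent_le hp1 hα
  have h1' : (p : ℝ) ^ α₁ ≤ (p : ℝ) ^ α₁' := Real.rpow_le_rpow_of_exponent_le hp1 hα₁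
  refine (h p hp hlt A B (h1.trans_lt hA) (h1'.trans_lt hB) χ hχ hF).trans ?_
  have h2 : (p : ℝ) ^ (-δ) ≤ (p : ℝ) ^ (-δ') :=
    Real.rpow_le_rpow_of_exponent_le hp1 (by linarith)
  exact mul_le_mul_of_nonneg_right (mul_le_mul_of_nonneg_right h2 (Nat.cast_nonneg _))
    (Nat.cast_nonneg _)

/-- sets above `p ^ α` include the sets of exactly `⌈p ^ β⌉` elements, for `β > α` -/
theorem Saves.oneSize {α α' β β' δ : ℝ} (h : Saves F α α' δ) (hα : α < β) (hα' : α' < β') :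
    OneSize F β β' δ := by
  obtain ⟨p₀, h⟩ := h
  refine ⟨p₀, fun p hp hlt A B hA hB χ hχ hF => ?_⟩
  have hp1 : (1 : ℝ) < p := by exact_mod_cast hp.one_lt
  have h1 : (p : ℝ) ^ α < (p : ℝ) ^ β := Real.rpow_lt_rpow_of_exponent_lt hp1 hα
  have h2 : (p : ℝ) ^ β ≤ (⌈(p : ℝ) ^ β⌉₊ : ℝ) := Nat.le_ceil _
  have h1' : (p : ℝ) ^ α' < (p : ℝ) ^ β' := Real.rpow_lt_rpow_of_exponent_lt hp1 hα'
  have h2' : (p : ℝ) ^ β' ≤ (⌈(p : ℝ) ^ β'⌉₊ : ℝ) := Nat.le_ceil _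
  exact h p hp hlt A B (by rw [hA]; exact h1.trans_le h2) (by rw [hB]; exact h1'.trans_le h2') χ hχ hF

theorem ceil_le_two_mul {x : ℝ} (hx : 1 ≤ x) : (⌈x⌉₊ : ℝ) ≤ 2 * x := by
  have h1 := Nat.ceil_lt_add_one (zero_le_one.trans hx)
  linarith

/-- comparison of a quotient of two ceilings with the quotient -/
theorem quot {a g : ℝ} (ha : 1 ≤ a) (hg : 1 ≤ g) :
    1 ≤ ⌈a * g⌉₊ / ⌈a⌉₊ ∧ g ≤ 4 * ((⌈a * g⌉₊ / ⌈a⌉₊ : ℕ) : ℝ) ∧
      ((⌈a * g⌉₊ / ⌈a⌉₊ : ℕ) : ℝ) ≤ 2 * g := by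
  have hag : a ≤ a * g := le_mul_of_one_le_right (by linarith) hg
  have hM1 : 0 < ⌈a⌉₊ := Nat.ceil_pos.2 (by linarith)
  have hMK : ⌈a⌉₊ ≤ ⌈a * g⌉₊ := Nat.ceil_le_ceil hag
  have hM2 : (⌈a⌉₊ : ℝ) ≤ 2 * a := ceil_le_two_mul ha
  have hM3 : a ≤ (⌈a⌉₊ : ℝ) := Nat.le_ceil _
  have hK2 : (⌈a * g⌉₊ : ℝ) ≤ 2 * (a * g) := ceil_le_two_mul (ha.trans hag)
  have hK3 : a * g ≤ (⌈a * g⌉₊ : ℝ) := Nat.le_ceil _
  set K := ⌈a * g⌉₊ with hK
  set M := ⌈a⌉₊ with hM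
  have h1 : 1 ≤ K / M := (Nat.one_le_div_iff hM1).2 hMK
  refine ⟨h1, ?_, ?_⟩
  · have h2 : K < M * (K / M + 1) := Nat.lt_mul_div_succ K hM1
    have h3 : (K : ℝ) < M * ((K / M : ℕ) + 1) := by exact_mod_cast h2
    have h4 : (1 : ℝ) ≤ ((K / M : ℕ) : ℝ) := by exact_mod_cast h1
    have h5 : a * g ≤ a * (4 * ((K / M : ℕ) : ℝ)) := by
      have h6 : (M : ℝ) * (((K / M : ℕ) : ℝ) + 1) ≤ (2 * a) * (2 * ((K / M : ℕ) : ℝ)) :=
        mul_le_mul hM2 (by linarith) (by linarith) (by linarith)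
      linarith
    exact le_of_mul_le_mul_left h5 (by linarith)
  · have h2 : K / M * M ≤ K := Nat.div_mul_le_self K M
    have h3 : ((K / M : ℕ) : ℝ) * M ≤ K := by exact_mod_cast h2
    have h5 : a * ((K / M : ℕ) : ℝ) ≤ a * (2 * g) := by
      have h6 : a * ((K / M : ℕ) : ℝ) ≤ M * ((K / M : ℕ) : ℝ) :=
        mul_le_mul_of_nonneg_right hM3 (Nat.cast_nonneg _)
      linarith
    exact le_of_mul_le_mul_left h5 (by linarith)

/-- **One pair of sizes controls the smaller sizes.** -/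
theorem OneSize.descend {β β' δ h δ' : ℝ} (H : OneSize F β β' δ) (hh : 0 ≤ h) (hhβ : h < β)
    (hhβ' : h < β') (hβ : β < 1) (hβ' : β' < 1)
    (hδ1 : δ' < δ - h) (hδ2 : δ' < β / 2 - h) (hδ3 : δ' < β' / 2 - h) :
    Saves F (β - h) (β' - h) δ' := by
  obtain ⟨p₀, H⟩ := H
  obtain ⟨p₁, hp₁⟩ := large 4 (1 - β) (by linarith)
  obtain ⟨p₂, hp₂⟩ := large 4 (1 - β') (by linarith)
  obtain ⟨p₃, hp₃⟩ := large 192 (δ - h - δ') (by linarith)
  obtain ⟨p₄, hp₄⟩ := large 6 (β / 2 - h - δ') (by linarith)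
  obtain ⟨p₅, hp₅⟩ := large 6 (β' / 2 - h - δ') (by linarith)
  refine ⟨p₀ + p₁ + p₂ + p₃ + p₄ + p₅, fun p hp hlt A B hA hB χ hχ hF => ?_⟩
  have hlt0 : p₀ < p := by omega
  have e1 := hp₁ p (by omega)
  have e2 := hp₂ p (by omega)
  have e3 := hp₃ p (by omega)
  have e4 := hp₄ p (by omega)
  have e5 := hp₅ p (by omega)
  clear hlt hp₁ hp₂ hp₃ hp₄ hp₅
  have : Fact p.Prime := ⟨hp⟩
  have hp1 : (1 : ℝ) ≤ p := by exact_mod_cast hp.one_le
  have hp0 : (0 : ℝ) < p := by linarith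
  set a : ℝ := (p : ℝ) ^ (β - h) with ha
  set b : ℝ := (p : ℝ) ^ (β' - h) with hb
  set g : ℝ := (p : ℝ) ^ h with hg
  have ha1 : 1 ≤ a := Real.one_le_rpow hp1 (by linarith)
  have hb1 : 1 ≤ b := Real.one_le_rpow hp1 (by linarith)
  have hg1 : 1 ≤ g := Real.one_le_rpow hp1 hh
  have hag : (p : ℝ) ^ β = a * g := by
    rw [ha, hg, ← Real.rpow_add hp0]; congr 1; ring
  have hbg : (p : ℝ) ^ β' = b * g := by
    rw [hb, hg, ← Real.rpow_add hp0]; congr 1; ring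
  obtain ⟨q1, q2, q3⟩ := quot ha1 hg1
  obtain ⟨q1', q2', q3'⟩ := quot hb1 hg1
  have hag1 : 1 ≤ a * g := by nlinarith
  have hbg1 : 1 ≤ b * g := by nlinarith
  have hMc : a ≤ (⌈a⌉₊ : ℝ) := Nat.le_ceil _
  have hNc : b ≤ (⌈b⌉₊ : ℝ) := Nat.le_ceil _
  have hKc := ceil_le_two_mul hag1
  have hLc := ceil_le_two_mul hbg1
  have hMA : ⌈a⌉₊ ≤ A.card := Nat.ceil_le.2 hA.le
  have hNB : ⌈b⌉₊ ≤ B.card := Nat.ceil_le.2 hB.le
  have hM1 : 1 ≤ ⌈a⌉₊ := Nat.ceil_pos.2 (by linarith)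
  have hN1 : 1 ≤ ⌈b⌉₊ := Nat.ceil_pos.2 (by linarith)
  have hKp : 2 * ⌈a * g⌉₊ ≤ p := by
    have h2 : (p : ℝ) ^ β * (p : ℝ) ^ (1 - β) = p := by
      rw [← Real.rpow_add hp0, add_sub_cancel, Real.rpow_one]
    rw [hag] at h2
    have h3 : 2 * ((⌈a * g⌉₊ : ℕ) : ℝ) ≤ p := by nlinarith
    exact_mod_cast h3
  have hLp : 2 * ⌈b * g⌉₊ ≤ p := by
    have h2 : (p : ℝ) ^ β' * (p : ℝ) ^ (1 - β') = p := by
      rw [← Real.rpow_add hp0, add_sub_cancel, Real.rpow_one]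
    rw [hbg] at h2
    have h3 : 2 * ((⌈b * g⌉₊ : ℕ) : ℝ) ≤ p := by nlinarith
    exact_mod_cast h3
  have hKM : ⌈a * g⌉₊ / ⌈a⌉₊ * ⌈a⌉₊ ≤ ⌈a * g⌉₊ := Nat.div_mul_le_self _ _
  have hLN : ⌈b * g⌉₊ / ⌈b⌉₊ * ⌈b⌉₊ ≤ ⌈b * g⌉₊ := Nat.div_mul_le_self _ _
  -- the multiplicity
  obtain ⟨m, hm1, hmK, hmL, hgm, hmg⟩ : ∃ m : ℕ, 1 ≤ m ∧ m * ⌈a⌉₊ ≤ ⌈a * g⌉₊ ∧
      m * ⌈b⌉₊ ≤ ⌈b * g⌉₊ ∧ g ≤ 4 * (m : ℝ) ∧ (m : ℝ) ≤ 2 * g := by
    rcases le_total (⌈a * g⌉₊ / ⌈a⌉₊) (⌈b * g⌉₊ / ⌈b⌉₊) with h1 | h1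
    · exact ⟨_, q1, hKM, (Nat.mul_le_mul_right _ h1).trans hLN, q2, q3⟩
    · exact ⟨_, q1', (Nat.mul_le_mul_right _ h1).trans hKM, hLN, q2', q3'⟩
  obtain ⟨A', B', hA', hB', hfin⟩ := finite χ hχ A B m ⌈a⌉₊ ⌈b⌉₊ ⌈a * g⌉₊ ⌈b * g⌉₊ hm1 hM1 hN1
    hMA hNB hmK hmL hKp hLp
  have hAB := H p hp hlt0 A' B' (by rw [hA', hag]) (by rw [hB', hbg]) χ hχ hF
  rw [hA', hB'] at hAB
  change ‖dsum χ A' B'‖ ≤ _ at hAB
  change ‖dsum χ A B‖ ≤ _
  clear q1 q2 q3 q1' q2' q3' hKM hLN hmK hmL hKp hLp hMA hNB H hA' hB'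
  generalize (⌈a * g⌉₊) = K at *
  generalize (⌈b * g⌉₊) = L at *
  generalize (⌈a⌉₊) = M at *
  generalize (⌈b⌉₊) = N at *
  set P := (A.card : ℝ) * B.card with hP
  have hP0 : 0 ≤ P := by positivity
  set S := ‖dsum χ A B‖ with hS
  set q := (p : ℝ) ^ (-δ) with hq
  have hq0 : 0 < q := Real.rpow_pos_of_pos hp0 _
  set x := (p : ℝ) ^ (h - β / 2) with hx
  set y := (p : ℝ) ^ (h - β' / 2) with hy
  have hx0 : 0 < x := Real.rpow_pos_of_pos hp0 _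
  have hy0 : 0 < y := Real.rpow_pos_of_pos hp0 _
  have ha0 : 0 < a := by linarith
  have hb0 : 0 < b := by linarith
  have hg0 : 0 < g := by linarith
  have hM0 : (0 : ℝ) < M := by linarith
  have hN0 : (0 : ℝ) < N := by linarith
  have hm0 : (0 : ℝ) < m := by exact_mod_cast hm1
  -- square roots
  have hsg : Real.sqrt (2 * m) ≤ 2 * (p : ℝ) ^ (h / 2) := by
    apply Real.sqrt_le_iff.2
    constructor
    · positivity
    · rw [mul_pow, ← Real.rpow_natCast ((p : ℝ) ^ (h / 2)) 2, ← Real.rpow_mul hp0.le]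
      rw [show h / 2 * ((2 : ℕ) : ℝ) = h by push_cast; ring]
      linarith
  have hsM : (p : ℝ) ^ ((β - h) / 2) ≤ Real.sqrt M := by
    apply Real.le_sqrt_of_sq_le
    rw [← Real.rpow_natCast ((p : ℝ) ^ ((β - h) / 2)) 2, ← Real.rpow_mul hp0.le]
    rw [show (β - h) / 2 * ((2 : ℕ) : ℝ) = β - h by push_cast; ring]
    exact hMc
  have hsN : (p : ℝ) ^ ((β' - h) / 2) ≤ Real.sqrt N := by
    apply Real.le_sqrt_of_sq_le
    rw [← Real.rpow_natCast ((p : ℝ) ^ ((β' - h) / 2)) 2, ← Real.rpow_mul hp0.le]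
    rw [show (β' - h) / 2 * ((2 : ℕ) : ℝ) = β' - h by push_cast; ring]
    exact hNc
  have hmM : Real.sqrt (2 * m) ≤ Real.sqrt M * (2 * x) := by
    refine hsg.trans ?_
    have h2 : (p : ℝ) ^ (h / 2) = (p : ℝ) ^ ((β - h) / 2) * x := by
      rw [hx, ← Real.rpow_add hp0]; congr 1; ring
    rw [h2]
    have := mul_le_mul_of_nonneg_right hsM hx0.le
    linarith
  have hmN : Real.sqrt (2 * m) ≤ Real.sqrt N * (2 * y) := by
    refine hsg.trans ?_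
    have h2 : (p : ℝ) ^ (h / 2) = (p : ℝ) ^ ((β' - h) / 2) * y := by
      rw [hy, ← Real.rpow_add hp0]; congr 1; ring
    rw [h2]
    have := mul_le_mul_of_nonneg_right hsN hy0.le
    linarith
  have hM2 : Real.sqrt M ^ 2 = M := Real.sq_sqrt hM0.le
  have hN2 : Real.sqrt N ^ 2 = N := Real.sq_sqrt hN0.le
  have hsM0 : 0 < Real.sqrt M := Real.sqrt_pos.2 hM0
  have hsN0 : 0 < Real.sqrt N := Real.sqrt_pos.2 hN0
  set T := (m : ℝ) * M * N with hT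
  have hT0 : 0 < T := by positivity
  have hE : Real.sqrt (2 * m) * (m * Real.sqrt M * Real.sqrt N) * (Real.sqrt M + Real.sqrt N) ≤
      T * (2 * x + 2 * y) := by
    set u := Real.sqrt M with hu
    set v := Real.sqrt N with hv
    set r := Real.sqrt (2 * m) with hr
    rw [hT, ← hM2, ← hN2]
    have h2 : r * (m * u ^ 2 * v) ≤ (v * (2 * y)) * (m * u ^ 2 * v) :=
      mul_le_mul_of_nonneg_right hmN (by positivity)
    have h3 : r * (m * u * v ^ 2) ≤ (u * (2 * x)) * (m * u * v ^ 2) :=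
      mul_le_mul_of_nonneg_right hmM (by positivity)
    calc r * (m * u * v) * (u + v) = r * (m * u ^ 2 * v) + r * (m * u * v ^ 2) := by ring
      _ ≤ (v * (2 * y)) * (m * u ^ 2 * v) + (u * (2 * x)) * (m * u * v ^ 2) := add_le_add h2 h3
      _ = _ := by ring
  have hmain : 4 * (q * K * L) ≤ T * (64 * (q * g)) := by
    have h2 : (K : ℝ) * L ≤ (2 * (a * g)) * (2 * (b * g)) :=
      mul_le_mul hKc hLc (Nat.cast_nonneg _) (by positivity)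
    have h3 : a * b * g ≤ 4 * T := by
      have h4 : a * b ≤ M * N := mul_le_mul hMc hNc hb0.le hM0.le
      calc a * b * g ≤ (M * N) * (4 * m) := mul_le_mul h4 hgm hg0.le (by positivity)
        _ = 4 * T := by rw [hT]; ring
    have h5 : q * (K * L) ≤ q * ((2 * (a * g)) * (2 * (b * g))) :=
      mul_le_mul_of_nonneg_left h2 hq0.le
    have h6 : (q * g) * (a * b * g) ≤ (q * g) * (4 * T) :=
      mul_le_mul_of_nonneg_left h3 (by positivity)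
    nlinarith
  have h1 : T * S ≤ T * (P * (64 * (q * g) + 2 * x + 2 * y)) := by
    refine hfin.trans ?_
    have h2 : 4 * ‖dsum χ A' B'‖ +
        Real.sqrt (2 * m) * (m * Real.sqrt M * Real.sqrt N) * (Real.sqrt M + Real.sqrt N) ≤
        T * (64 * (q * g) + 2 * x + 2 * y) := by linarith
    calc _ ≤ P * (T * (64 * (q * g) + 2 * x + 2 * y)) := mul_le_mul_of_nonneg_left h2 hP0
      _ = _ := by ring
  have h3 : S ≤ P * (64 * (q * g) + 2 * x + 2 * y) := le_of_mul_le_mul_left h1 hT0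
  set z := (p : ℝ) ^ (-δ') with hz
  have hz0 : 0 < z := Real.rpow_pos_of_pos hp0 _
  have h4 : 192 * (q * g) ≤ z := by
    have h8 : z = (p : ℝ) ^ (δ - h - δ') * (q * g) := by
      rw [hz, hq, hg, ← Real.rpow_add hp0, ← Real.rpow_add hp0]
      congr 1
      ring
    rw [h8]
    exact mul_le_mul_of_nonneg_right e3 (by positivity)
  have h5 : 6 * x ≤ z := by
    have h8 : z = (p : ℝ) ^ (β / 2 - h - δ') * x := by
      rw [hz, hx, ← Real.rpow_add hp0]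
      congr 1
      ring
    rw [h8]
    exact mul_le_mul_of_nonneg_right e4 hx0.le
  have h6 : 6 * y ≤ z := by
    have h8 : z = (p : ℝ) ^ (β' / 2 - h - δ') * y := by
      rw [hz, hy, ← Real.rpow_add hp0]
      congr 1
      ring
    rw [h8]
    exact mul_le_mul_of_nonneg_right e5 hy0.le
  have h7 : P * (64 * (q * g) + 2 * x + 2 * y) ≤ P * z :=
    mul_le_mul_of_nonneg_left (by linarith) hP0
  calc S ≤ _ := h3
    _ ≤ P * z := h7
    _ = z * (A.card : ℝ) * (B.card : ℝ) := by rw [hP]; ring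

/-- **Saving below `p ^ γ` is decided at a single larger size.** -/
theorem saves_below_iff {γ : ℝ} (hγ0 : 0 < γ) (hγ : γ ≤ 1 / 2) :
    (∃ c δ : ℝ, 0 < c ∧ 0 < δ ∧ Saves F (γ - c) (γ - c) δ) ↔
      ∃ β δ : ℝ, γ < β ∧ β < 2 * γ ∧ β - γ < δ ∧ OneSize F β β δ := by
  constructor
  · rintro ⟨c, δ, hc, hδ, h⟩
    set η := min δ γ with hη
    have hη0 : 0 < η := lt_min hδ hγ0
    have hη1 : η ≤ δ := min_le_left _ _
    have hη2 : η ≤ γ := min_le_right _ _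
    exact ⟨γ + η / 2, δ, by linarith, by linarith, by linarith,
      h.oneSize (by linarith) (by linarith)⟩
  · rintro ⟨β, δ, h1, h2, h3, H⟩
    set η := min δ (β / 2) - (β - γ) with hη
    have hη0 : 0 < η := by
      have : β - γ < min δ (β / 2) := lt_min h3 (by linarith)
      linarith
    have hη1 : η ≤ δ - (β - γ) := by
      have := min_le_left δ (β / 2); linarith
    have hη2 : η ≤ β / 2 - (β - γ) := by
      have := min_le_right δ (β / 2); linarith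
    refine ⟨η / 2, η / 4, by linarith, by linarith, ?_⟩
    have := H.descend (h := β - γ + η / 2) (δ' := η / 4) (by linarith) (by linarith)
      (by linarith) (by linarith) (by linarith) (by linarith) (by linarith) (by linarith)
    rwa [show β - (β - γ + η / 2) = γ - η / 2 by ring] at this

theorem sqrt_form {p : ℕ} (hp0 : (0 : ℝ) < p) (K L : ℝ) :
    Real.sqrt ((p : ℝ) * K * L) = (p : ℝ) ^ (1 / 2 : ℝ) * Real.sqrt (K * L) := by
  rw [mul_assoc, Real.sqrt_mul hp0.le, Real.sqrt_eq_rpow (p : ℝ)]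

theorem BeatsClassical.oneSize {β β' δ : ℝ} (h : BeatsClassical F β β' δ) :
    OneSize F β β' ((β + β' - 1) / 2 + δ) := by
  obtain ⟨p₀, h⟩ := h
  refine ⟨p₀, fun p hp hlt A B hA hB χ hχ hF => (h p hp hlt A B hA hB χ hχ hF).trans ?_⟩
  have hp0 : (0 : ℝ) < p := by exact_mod_cast hp.pos
  rw [hA, hB]
  have hKle : (p : ℝ) ^ β ≤ ((⌈(p : ℝ) ^ β⌉₊ : ℕ) : ℝ) := Nat.le_ceil _
  have hLle : (p : ℝ) ^ β' ≤ ((⌈(p : ℝ) ^ β'⌉₊ : ℕ) : ℝ) := Nat.le_ceil _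
  have hb0 : (0 : ℝ) < (p : ℝ) ^ β := Real.rpow_pos_of_pos hp0 _
  have hb0' : (0 : ℝ) < (p : ℝ) ^ β' := Real.rpow_pos_of_pos hp0 _
  generalize ((⌈(p : ℝ) ^ β⌉₊ : ℕ) : ℝ) = K at *
  generalize ((⌈(p : ℝ) ^ β'⌉₊ : ℕ) : ℝ) = L at *
  have hK0 : 0 ≤ K := by linarith
  have hL0 : 0 ≤ L := by linarith
  rw [sqrt_form hp0 K L]
  set s := Real.sqrt (K * L) with hs
  have hs2 : s * s = K * L := Real.mul_self_sqrt (by positivity)
  have hs0 : 0 ≤ s := Real.sqrt_nonneg _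
  have hsle : (p : ℝ) ^ ((β + β') / 2) ≤ s := by
    apply Real.le_sqrt_of_sq_le
    rw [← Real.rpow_natCast ((p : ℝ) ^ ((β + β') / 2)) 2, ← Real.rpow_mul hp0.le]
    rw [show (β + β') / 2 * ((2 : ℕ) : ℝ) = β + β' by push_cast; ring, Real.rpow_add hp0]
    exact mul_le_mul hKle hLle hb0'.le hK0
  have h2 : (p : ℝ) ^ (-δ) * (p : ℝ) ^ (1 / 2 : ℝ) =
      (p : ℝ) ^ (-((β + β' - 1) / 2 + δ)) * (p : ℝ) ^ ((β + β') / 2) := by
    rw [← Real.rpow_add hp0, ← Real.rpow_add hp0]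
    congr 1
    ring
  calc (p : ℝ) ^ (-δ) * ((p : ℝ) ^ (1 / 2 : ℝ) * s)
      = (p : ℝ) ^ (-((β + β' - 1) / 2 + δ)) * (p : ℝ) ^ ((β + β') / 2) * s := by
        rw [← mul_assoc, h2]
    _ ≤ (p : ℝ) ^ (-((β + β' - 1) / 2 + δ)) * s * s := by
        refine mul_le_mul_of_nonneg_right ?_ hs0
        exact mul_le_mul_of_nonneg_left hsle (Real.rpow_pos_of_pos hp0 _).le
    _ = (p : ℝ) ^ (-((β + β' - 1) / 2 + δ)) * K * L := by
        rw [mul_assoc, hs2, ← mul_assoc]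

theorem OneSize.beats {β β' δ δ' : ℝ} (h : OneSize F β β' ((β + β' - 1) / 2 + δ)) (hβ : 0 ≤ β)
    (hβ' : 0 ≤ β') (hδ : δ' < δ) : BeatsClassical F β β' δ' := by
  obtain ⟨p₀, h⟩ := h
  obtain ⟨p₁, hp₁⟩ := large 2 (δ - δ') (by linarith)
  refine ⟨p₀ + p₁, fun p hp hlt A B hA hB χ hχ hF =>
    (h p hp (by omega) A B hA hB χ hχ hF).trans ?_⟩
  have hp1 : (1 : ℝ) ≤ p := by exact_mod_cast hp.one_le
  have hp0 : (0 : ℝ) < p := by linarith
  rw [hA, hB]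
  have hKle := ceil_le_two_mul (Real.one_le_rpow hp1 hβ)
  have hLle := ceil_le_two_mul (Real.one_le_rpow hp1 hβ')
  have hb0 : (0 : ℝ) < (p : ℝ) ^ β := Real.rpow_pos_of_pos hp0 _
  have hb0' : (0 : ℝ) < (p : ℝ) ^ β' := Real.rpow_pos_of_pos hp0 _
  have hK0 : (0 : ℝ) ≤ ((⌈(p : ℝ) ^ β⌉₊ : ℕ) : ℝ) := Nat.cast_nonneg _
  have hL0 : (0 : ℝ) ≤ ((⌈(p : ℝ) ^ β'⌉₊ : ℕ) : ℝ) := Nat.cast_nonneg _
  generalize ((⌈(p : ℝ) ^ β⌉₊ : ℕ) : ℝ) = K at *
  generalize ((⌈(p : ℝ) ^ β'⌉₊ : ℕ) : ℝ) = L at *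
  rw [sqrt_form hp0 K L]
  set s := Real.sqrt (K * L) with hs
  have hs2 : s * s = K * L := Real.mul_self_sqrt (by positivity)
  have hs0 : 0 ≤ s := Real.sqrt_nonneg _
  have hsle : s ≤ 2 * (p : ℝ) ^ ((β + β') / 2) := by
    apply Real.sqrt_le_iff.2
    constructor
    · positivity
    · rw [mul_pow, ← Real.rpow_natCast ((p : ℝ) ^ ((β + β') / 2)) 2, ← Real.rpow_mul hp0.le]
      rw [show (β + β') / 2 * ((2 : ℕ) : ℝ) = β + β' by push_cast; ring, Real.rpow_add hp0]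
      calc K * L ≤ (2 * (p : ℝ) ^ β) * (2 * (p : ℝ) ^ β') :=
            mul_le_mul hKle hLle hL0 (by positivity)
        _ = _ := by ring
  have h2 : (p : ℝ) ^ (-δ') * (p : ℝ) ^ (1 / 2 : ℝ) =
      (p : ℝ) ^ (-((β + β' - 1) / 2 + δ)) * ((p : ℝ) ^ (δ - δ') * (p : ℝ) ^ ((β + β') / 2)) := by
    rw [← Real.rpow_add hp0, ← Real.rpow_add hp0, ← Real.rpow_add hp0]
    congr 1
    ring
  rw [mul_assoc, ← hs2, ← mul_assoc, ← mul_assoc, h2]
  refine mul_le_mul_of_nonneg_right ?_ hs0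
  refine mul_le_mul_of_nonneg_left ?_ (Real.rpow_pos_of_pos hp0 _).le
  exact hsle.trans (mul_le_mul_of_nonneg_right (hp₁ p (by omega))
    (Real.rpow_pos_of_pos hp0 _).le)

/-- **The square-root barrier**, on every line of constant ratio of the two sizes. -/
theorem barrier {u v : ℝ} (hu : 0 < u) (hv : 0 < v) (huv : u + v = 1) :
    (∃ c δ : ℝ, 0 < c ∧ 0 < δ ∧ Saves F (u - c) (v - c) δ) ↔
      ∃ s δ : ℝ, 0 < s ∧ u + s < 1 ∧ v + s < 1 ∧ 0 < δ ∧ BeatsClassical F (u + s) (v + s) δ := by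
  constructor
  · rintro ⟨c, δ, hc, hδ, h⟩
    set η := min δ (min u v) with hη
    have hη0 : 0 < η := lt_min hδ (lt_min hu hv)
    have hη1 : η ≤ δ := min_le_left _ _
    have hη2 : η ≤ u := (min_le_right _ _).trans (min_le_left _ _)
    have hη3 : η ≤ v := (min_le_right _ _).trans (min_le_right _ _)
    refine ⟨η / 2, (δ - η / 2) / 2, by linarith, by linarith, by linarith, by linarith, ?_⟩
    have H : OneSize F (u + η / 2) (v + η / 2) ((u + η / 2 + (v + η / 2) - 1) / 2 + (δ - η / 2)) := by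
      rw [show (u + η / 2 + (v + η / 2) - 1) / 2 + (δ - η / 2) = δ by linarith]
      exact h.oneSize (by linarith) (by linarith)
    exact H.beats (by linarith) (by linarith) (by linarith)
  · rintro ⟨s, δ, h1, h2, h3, hδ, H⟩
    have H1 := H.oneSize
    rw [show (u + s + (v + s) - 1) / 2 + δ = s + δ by linarith] at H1
    set η := min δ (min ((u - s) / 2) ((v - s) / 2)) with hη
    have hη0 : 0 < η := lt_min hδ (lt_min (by linarith) (by linarith))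
    have hη1 : η ≤ δ := min_le_left _ _
    have hη2 : η ≤ (u - s) / 2 := (min_le_right _ _).trans (min_le_left _ _)
    have hη3 : η ≤ (v - s) / 2 := (min_le_right _ _).trans (min_le_right _ _)
    refine ⟨η / 2, η / 4, by linarith, by linarith, ?_⟩
    have := H1.descend (h := s + η / 2) (δ' := η / 4) (by linarith) (by linarith)
      (by linarith) (by linarith) (by linarith) (by linarith) (by linarith) (by linarith)
    rwa [show u + s - (s + η / 2) = u - η / 2 by ring,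
      show v + s - (s + η / 2) = v - η / 2 by ring] at this

/-- an improvement at one pair of sizes gives an improvement at every smaller pair on its line -/
theorem BeatsClassical.descend {β β' δ h δ' : ℝ} (H : BeatsClassical F β β' δ) (hh : 0 ≤ h)
    (hhβ : h < β) (hhβ' : h < β') (hβ : β < 1) (hβ' : β' < 1) (h1 : δ' < δ)
    (h2 : δ' < (1 - β) / 2) (h3 : δ' < (1 - β') / 2) :
    BeatsClassical F (β - h) (β' - h) δ' := by
  -- leave room for the constants and for the strict inequality of sizes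
  set κ := min (min (δ - δ') (min ((1 - β) / 2 - δ') ((1 - β') / 2 - δ'))) (min (β - h) (β' - h))
    with hκ
  have hκ0 : 0 < κ := lt_min (lt_min (by linarith) (lt_min (by linarith) (by linarith)))
    (lt_min (by linarith) (by linarith))
  have hκ1 : κ ≤ δ - δ' := (min_le_left _ _).trans (min_le_left _ _)
  have hκ2 : κ ≤ (1 - β) / 2 - δ' :=
    (min_le_left _ _).trans ((min_le_right _ _).trans (min_le_left _ _))
  have hκ3 : κ ≤ (1 - β') / 2 - δ' :=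
    (min_le_left _ _).trans ((min_le_right _ _).trans (min_le_right _ _))
  have hκ4 : κ ≤ β - h := (min_le_right _ _).trans (min_le_left _ _)
  have hκ5 : κ ≤ β' - h := (min_le_right _ _).trans (min_le_right _ _)
  have h4 := H.oneSize.descend (h := h + κ / 4)
    (δ' := (β + β' - 1) / 2 - h + δ' + κ / 4)
    (by linarith) (by linarith) (by linarith) hβ hβ' (by linarith) (by linarith) (by linarith)
  have h5 : OneSize F (β - h) (β' - h) ((β - h + (β' - h) - 1) / 2 + (δ' + κ / 4)) := by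
    have := h4.oneSize (β := β - h) (β' := β' - h) (by linarith) (by linarith)
    rwa [show (β + β' - 1) / 2 - h + δ' + κ / 4 =
      (β - h + (β' - h) - 1) / 2 + (δ' + κ / 4) by ring] at this
  exact h5.beats (by linarith) (by linarith) (by linarith)

/-- **The whole conjecture at single sizes.** -/
theorem conjecture_iff :
    (∀ ε : ℝ, 0 < ε → ∃ p₀ : ℕ, ∃ δ : ℝ, 0 < δ ∧
      ∀ p : ℕ, p.Prime → p₀ < p →
        ∀ A B : Finset (ZMod p),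
          (p : ℝ) ^ ε < (A.card : ℝ) → (p : ℝ) ^ ε < (B.card : ℝ) →
          ∀ χ : MulChar (ZMod p) ℂ, χ ≠ 1 →
            ‖∑ a ∈ A, ∑ b ∈ B, χ (a + b)‖ ≤ (p : ℝ) ^ (-δ) * (A.card : ℝ) * (B.card : ℝ)) ↔
      ∀ γ : ℝ, 0 < γ → γ ≤ 1 / 2 →
        ∃ β δ : ℝ, γ < β ∧ β < 2 * γ ∧ β - γ < δ ∧ OneSize (fun _ _ => True) β β δ := by
  constructor
  · intro h γ hγ0 hγ
    rw [← saves_below_iff hγ0 hγ]
    obtain ⟨p₀, δ, hδ, H⟩ := h (γ - γ / 2) (by linarith)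
    exact ⟨γ / 2, δ, by linarith, hδ, p₀, fun p hp hlt A B hA hB χ hχ _ =>
      H p hp hlt A B hA hB χ hχ⟩
  · intro h ε hε
    have hm0 : 0 < min ε (1 / 2) := lt_min hε (by norm_num)
    obtain ⟨c, δ, hc, hδ, H⟩ := (saves_below_iff hm0 (min_le_right _ _)).2
      (h (min ε (1 / 2)) hm0 (min_le_right _ _))
    have hle := min_le_left ε (1 / 2)
    obtain ⟨p₀, H'⟩ := H.mono (α' := ε) (α₁' := ε) (δ' := δ) (by linarith) (by linarith) le_rfl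
    exact ⟨p₀, δ, hδ, fun p hp hlt A B hA hB χ hχ => H' p hp hlt A B hA hB χ hχ trivial⟩

end Pool.Agent.N793.PG
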