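import Pool.Agent.N793.PG.Fam

/-! # Amplification with a prescribed set of affine maps -/

set_option autoImplicit false

namespace Pool.Agent.N793.PG

open Finset

variable {p : ℕ} [Fact p.Prime] (χ : MulChar (ZMod p) ℂ)

/-- the image of `A` under `a ↦ g (d a + t) + s` -/
noncomputable def img (g s d t : ZMod p) (A : Finset (ZMod p)) : Finset (ZMod p) := by
  classical exact A.image (fun a => g * (d * a + t) + s)

theorem img_inj {g s d t : ZMod p} (hg : g ≠ 0) (hd : d ≠ 0) :
    Function.Injective (fun a : ZMod p => g * (d * a + t) + s) := by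
  intro a b h
  simp only [add_left_inj] at h
  have h1 := mul_left_cancel₀ hg h
  simp only [add_left_inj] at h1
  exact mul_left_cancel₀ hd h1

theorem img_card {g s d t : ZMod p} (hg : g ≠ 0) (hd : d ≠ 0) (A : Finset (ZMod p)) :
    (img g s d t A).card = A.card := by
  classical
  unfold img
  exact card_image_of_injective _ (img_inj hg hd)

theorem dsum_img {g g' s s' d t t' : ZMod p} (hg : g ≠ 0) (hg' : g' ≠ 0) (hd : d ≠ 0)
    (A B : Finset (ZMod p)) :
    dsum χ (img g s d t A) (img g' s' d t' B) =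
      ∑ a ∈ A, ∑ b ∈ B, χ (g * (d * a + t) + s + (g' * (d * b + t') + s')) := by
  classical
  unfold dsum img
  rw [sum_image fun x _ y _ h => img_inj hg hd h]
  refine sum_congr rfl fun a _ => ?_
  rw [sum_image fun x _ y _ h => img_inj hg' hd h]

/-- the diagonal terms -/
theorem diag {g s d t : ZMod p} (hg : χ g = 1) (hd : d ≠ 0) (A B : Finset (ZMod p)) :
    χ d⁻¹ * dsum χ (img g s d t A) (img g (-s) d (-t) B) = dsum χ A B := by
  have hg0 : g ≠ 0 := by
    rintro rfl
    rw [MulChar.map_zero χ] at hg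
    exact zero_ne_one hg
  rw [dsum_img χ hg0 hg0 hd, mul_sum]
  unfold dsum
  refine sum_congr rfl fun a _ => ?_
  rw [mul_sum]
  refine sum_congr rfl fun b _ => ?_
  rw [show g * (d * a + t) + s + (g * (d * b + -t) + -s) = g * (d * (a + b)) by ring, map_mul,
    map_mul, hg, one_mul, ← mul_assoc, ← map_mul, inv_mul_cancel₀ hd, map_one, one_mul]

/-- the off-diagonal terms with different slopes -/
theorem off_slopes (hχ : χ ≠ 1) {g g' s s' d : ZMod p} (hg : g ≠ 0) (hg' : g' ≠ 0) (hd : d ≠ 0)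
    (hgg : g ≠ g') (A B : Finset (ZMod p)) :
    ∑ t : ZMod p, dsum χ (img g s d t A) (img g' (-s') d (-t) B) = 0 := by
  rw [sum_congr rfl fun t _ => dsum_img χ hg hg' hd A B, sum_comm]
  refine sum_eq_zero fun a _ => ?_
  rw [sum_comm]
  refine sum_eq_zero fun b _ => ?_
  have h : ∑ t : ZMod p, χ (g * (d * a + t) + s + (g' * (d * b + -t) + -s')) =
      ∑ z : ZMod p, χ z := by
    let e : ZMod p ≃ ZMod p :=
      (Equiv.mulLeft₀ (g - g') (sub_ne_zero.2 hgg)).trans
        (Equiv.addLeft (g * (d * a) + s + (g' * (d * b) - s')))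
    refine Fintype.sum_equiv e _ _ fun t => ?_
    congr 1
    change _ = g * (d * a) + s + (g' * (d * b) - s') + (g - g') * t
    ring
  rw [h, MulChar.sum_eq_zero_of_ne_one hχ]

/-- the off-diagonal terms with equal slopes -/
theorem off_shifts (hχ : χ ≠ 1) {g s s' t : ZMod p} (hg : χ g = 1) (hss : s ≠ s')
    (A B : Finset (ZMod p)) :
    ∑ d ∈ (univ : Finset (ZMod p)).erase 0,
      χ d⁻¹ * dsum χ (img g s d t A) (img g (-s') d (-t) B) = - dsum χ A B := by
  classical
  have hg0 : g ≠ 0 := by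
    rintro rfl
    rw [MulChar.map_zero χ] at hg
    exact zero_ne_one hg
  have h1 : ∀ d ∈ (univ : Finset (ZMod p)).erase 0,
      χ d⁻¹ * dsum χ (img g s d t A) (img g (-s') d (-t) B) =
        ∑ a ∈ A, ∑ b ∈ B, χ (g * (a + b) + d⁻¹ * (s - s')) := by
    intro d hd
    have hd0 : d ≠ 0 := ne_of_mem_erase hd
    rw [dsum_img χ hg0 hg0 hd0, mul_sum]
    refine sum_congr rfl fun a _ => ?_
    rw [mul_sum]
    refine sum_congr rfl fun b _ => ?_
    rw [← map_mul]
    congr 1
    field_simp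
    ring
  rw [sum_congr rfl h1, sum_comm]
  unfold dsum
  rw [← sum_neg_distrib]
  refine sum_congr rfl fun a _ => ?_
  rw [sum_comm, ← sum_neg_distrib]
  refine sum_congr rfl fun b _ => ?_
  have h2 : ∑ d : ZMod p, χ (g * (a + b) + d⁻¹ * (s - s')) = ∑ z : ZMod p, χ z := by
    let e : ZMod p ≃ ZMod p :=
      ((Equiv.inv (ZMod p)).trans (Equiv.mulRight₀ (s - s') (sub_ne_zero.2 hss))).trans
        (Equiv.addLeft (g * (a + b)))
    exact Fintype.sum_equiv e _ _ fun d => rfl
  rw [← add_sum_erase univ _ (mem_univ (0 : ZMod p)), inv_zero, zero_mul, add_zero, map_mul, hg,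
    one_mul, MulChar.sum_eq_zero_of_ne_one hχ] at h2
  linear_combination h2

/-- overlaps of images, pointwise -/
theorem io_le (f h : ZMod p → ZMod p) (A : Finset (ZMod p)) [DecidableEq (ZMod p)] :
    io (A.image f) (A.image h) ≤ ∑ a ∈ A, ∑ b ∈ A, if f a = h b then (1 : ℝ) else 0 := by
  have h1 : ∀ (k : ZMod p → ZMod p) (x : ZMod p),
      ind (A.image k) x ≤ ∑ a ∈ A, if k a = x then (1 : ℝ) else 0 := by
    intro k x
    unfold ind
    split_ifs with hx
    · obtain ⟨a, ha, hax⟩ := mem_image.1 hx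
      calc (1 : ℝ) = if k a = x then (1 : ℝ) else 0 := by rw [if_pos hax]
        _ ≤ _ := single_le_sum (f := fun a => if k a = x then (1 : ℝ) else 0)
          (fun b _ => by split_ifs <;> norm_num) ha
    · exact sum_nonneg fun b _ => by split_ifs <;> norm_num
  unfold io
  calc ∑ x : ZMod p, ind (A.image f) x * ind (A.image h) x
      ≤ ∑ x : ZMod p, (∑ a ∈ A, if f a = x then (1 : ℝ) else 0) *
          (∑ b ∈ A, if h b = x then (1 : ℝ) else 0) := by
        refine sum_le_sum fun x _ => ?_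
        exact mul_le_mul (h1 f x) (h1 h x) (ind_nonneg _ _)
          (sum_nonneg fun b _ => by split_ifs <;> norm_num)
    _ = ∑ x : ZMod p, ∑ a ∈ A, ∑ b ∈ A,
          (if f a = x then (1 : ℝ) else 0) * (if h b = x then (1 : ℝ) else 0) := by
        refine sum_congr rfl fun x _ => ?_
        rw [sum_mul_sum]
    _ = ∑ a ∈ A, ∑ b ∈ A, ∑ x : ZMod p,
          (if f a = x then (1 : ℝ) else 0) * (if h b = x then (1 : ℝ) else 0) := by
        rw [sum_comm]
        refine sum_congr rfl fun a _ => ?_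
        rw [sum_comm]
    _ = _ := by
        refine sum_congr rfl fun a _ => sum_congr rfl fun b _ => ?_
        have h3 : ∀ x : ZMod p, (if f a = x then (1 : ℝ) else 0) * (if h b = x then (1 : ℝ) else 0) =
            if f a = x then (if h b = x then (1 : ℝ) else 0) else 0 := by
          intro x
          split_ifs <;> norm_num
        rw [sum_congr rfl fun x _ => h3 x, sum_ite_eq univ (f a), if_pos (mem_univ _)]
        by_cases h4 : f a = h b
        · rw [if_pos h4, if_pos h4.symm]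
        · rw [if_neg h4, if_neg fun h5 => h4 h5.symm]

/-- overlaps on average -/
theorem io_avg {g g' s s' : ZMod p} (hg : g ≠ 0) (hg' : g' ≠ 0) (hne : (g, s) ≠ (g', s'))
    (A : Finset (ZMod p)) :
    ∑ d ∈ (univ : Finset (ZMod p)).erase 0, ∑ t : ZMod p,
      io (img g s d t A) (img g' s' d t A) ≤ ((p : ℝ) - 1) * (A.card : ℝ) ^ 2 := by
  classical
  have hcard : (((univ : Finset (ZMod p)).erase 0).card : ℝ) = (p : ℝ) - 1 := by
    rw [card_erase_of_mem (mem_univ _), card_univ, ZMod.card,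
      Nat.cast_sub (Fact.out : p.Prime).one_le]
    simp
  have hp1 : (1 : ℝ) ≤ p := by exact_mod_cast (Fact.out : p.Prime).one_le
  have h0 : ∑ d ∈ (univ : Finset (ZMod p)).erase 0, ∑ t : ZMod p,
      io (img g s d t A) (img g' s' d t A) ≤
      ∑ d ∈ (univ : Finset (ZMod p)).erase 0, ∑ t : ZMod p, ∑ a ∈ A, ∑ b ∈ A,
        if g * (d * a + t) + s = g' * (d * b + t) + s' then (1 : ℝ) else 0 := by
    refine sum_le_sum fun d _ => sum_le_sum fun t _ => ?_
    exact io_le (fun a => g * (d * a + t) + s) (fun a => g' * (d * a + t) + s') A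
  refine h0.trans ?_
  -- the order of the sums
  have h1 : ∑ d ∈ (univ : Finset (ZMod p)).erase 0, ∑ t : ZMod p, ∑ a ∈ A, ∑ b ∈ A,
        (if g * (d * a + t) + s = g' * (d * b + t) + s' then (1 : ℝ) else 0) =
      ∑ a ∈ A, ∑ b ∈ A, ∑ d ∈ (univ : Finset (ZMod p)).erase 0, ∑ t : ZMod p,
        if g * (d * a + t) + s = g' * (d * b + t) + s' then (1 : ℝ) else 0 := by
    calc _ = ∑ d ∈ (univ : Finset (ZMod p)).erase 0, ∑ a ∈ A, ∑ b ∈ A, ∑ t : ZMod p,
        (if g * (d * a + t) + s = g' * (d * b + t) + s' then (1 : ℝ) else 0) := by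
          refine sum_congr rfl fun d _ => ?_
          rw [sum_comm]
          refine sum_congr rfl fun a _ => ?_
          rw [sum_comm]
      _ = _ := by
          rw [sum_comm]
          refine sum_congr rfl fun a _ => ?_
          rw [sum_comm]
  rw [h1]
  by_cases hgg : g = g'
  · subst hgg
    have hss : s ≠ s' := fun h => hne (by rw [h])
    have h2 : ∀ a b : ZMod p, ∑ d ∈ (univ : Finset (ZMod p)).erase 0, ∑ t : ZMod p,
        (if g * (d * a + t) + s = g * (d * b + t) + s' then (1 : ℝ) else 0) ≤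
        if a = b then 0 else (p : ℝ) := by
      intro a b
      have h3 : ∀ d t : ZMod p, (g * (d * a + t) + s = g * (d * b + t) + s') ↔
          (g * (a - b)) * d = s' - s := by
        intro d t
        constructor
        · intro h; linear_combination h
        · intro h; linear_combination h
      have h4 : ∀ d : ZMod p, ∑ t : ZMod p,
          (if g * (d * a + t) + s = g * (d * b + t) + s' then (1 : ℝ) else 0) =
          p * if (g * (a - b)) * d = s' - s then (1 : ℝ) else 0 := by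
        intro d
        rw [sum_congr rfl fun t _ => by rw [if_congr (h3 d t) rfl rfl], sum_const, card_univ,
          ZMod.card, nsmul_eq_mul]
      rw [sum_congr rfl fun d _ => h4 d, ← mul_sum]
      split_ifs with hab
      · rw [hab, sub_self, mul_zero]
        rw [sum_eq_zero, mul_zero]
        intro d _
        rw [if_neg]
        rw [zero_mul]
        exact fun h => hss (sub_eq_zero.1 h.symm).symm
      · have hc : g * (a - b) ≠ 0 := mul_ne_zero hg (sub_ne_zero.2 hab)
        have h5 : ∑ d ∈ (univ : Finset (ZMod p)).erase 0,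
            (if (g * (a - b)) * d = s' - s then (1 : ℝ) else 0) ≤ 1 := by
          calc _ ≤ ∑ d : ZMod p, (if (g * (a - b)) * d = s' - s then (1 : ℝ) else 0) :=
                sum_le_sum_of_subset_of_nonneg (erase_subset _ _)
                  fun _ _ _ => by split_ifs <;> norm_num
            _ = ∑ d : ZMod p, (if d = (g * (a - b))⁻¹ * (s' - s) then (1 : ℝ) else 0) := by
                refine sum_congr rfl fun d _ => ?_
                refine if_congr ?_ rfl rfl
                rw [eq_inv_mul_iff_mul_eq₀ hc]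
            _ ≤ 1 := by rw [sum_ite_eq' univ, if_pos (mem_univ _)]
        calc (p : ℝ) * _ ≤ (p : ℝ) * 1 := mul_le_mul_of_nonneg_left h5 (by linarith)
          _ = p := mul_one _
    calc _ ≤ ∑ a ∈ A, ∑ b ∈ A, (if a = b then 0 else (p : ℝ)) :=
          sum_le_sum fun a _ => sum_le_sum fun b _ => h2 a b
      _ = ∑ a ∈ A, ((A.card : ℝ) - 1) * p := by
          refine sum_congr rfl fun a ha => ?_
          rw [← add_sum_erase A _ ha, if_pos rfl, zero_add]
          rw [sum_congr rfl fun b hb => if_neg (ne_of_mem_erase hb).symm, sum_const,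
            card_erase_of_mem ha, nsmul_eq_mul, Nat.cast_sub (card_pos.2 ⟨a, ha⟩)]
          simp
      _ = (A.card : ℝ) * (((A.card : ℝ) - 1) * p) := by rw [sum_const, nsmul_eq_mul]
      _ ≤ ((p : ℝ) - 1) * (A.card : ℝ) ^ 2 := by
          have hM : (A.card : ℝ) ≤ p := by
            have : A.card ≤ p := by
              have := card_le_univ A
              rwa [ZMod.card] at this
            exact_mod_cast this
          have hM0 : (0 : ℝ) ≤ A.card := Nat.cast_nonneg _
          nlinarith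
  · have h2 : ∀ a b : ZMod p, ∑ d ∈ (univ : Finset (ZMod p)).erase 0, ∑ t : ZMod p,
        (if g * (d * a + t) + s = g' * (d * b + t) + s' then (1 : ℝ) else 0) = (p : ℝ) - 1 := by
      intro a b
      have hc : g - g' ≠ 0 := sub_ne_zero.2 hgg
      have h4 : ∀ d : ZMod p, ∑ t : ZMod p,
          (if g * (d * a + t) + s = g' * (d * b + t) + s' then (1 : ℝ) else 0) = 1 := by
        intro d
        have h3 : ∀ t : ZMod p, (g * (d * a + t) + s = g' * (d * b + t) + s') ↔
            t = (g - g')⁻¹ * (g' * (d * b) + s' - g * (d * a) - s) := by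
          intro t
          rw [eq_inv_mul_iff_mul_eq₀ hc]
          constructor
          · intro h; linear_combination h
          · intro h; linear_combination h
        rw [sum_congr rfl fun t _ => by rw [if_congr (h3 t) rfl rfl], sum_ite_eq' univ,
          if_pos (mem_univ _)]
      rw [sum_congr rfl fun d _ => h4 d, sum_const, nsmul_eq_mul, hcard, mul_one]
    rw [sum_congr rfl fun a _ => sum_congr rfl fun b _ => h2 a b, sum_const, sum_const,
      nsmul_eq_mul, nsmul_eq_mul]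
    exact le_of_eq (by ring)

/-- the union of the images of `A` under the maps `a ↦ g a + s`, `(g, s) ∈ Λ` -/
noncomputable def blow (Λ : Finset (ZMod p × ZMod p)) (A : Finset (ZMod p)) :
    Finset (ZMod p) := by
  classical exact Λ.biUnion fun l => A.image fun a => l.1 * a + l.2

/-- the union of the images of `B` under the maps `b ↦ g b - s`, `(g, s) ∈ Λ` -/
noncomputable def blow' (Λ : Finset (ZMod p × ZMod p)) (B : Finset (ZMod p)) :
    Finset (ZMod p) := by
  classical exact Λ.biUnion fun l => B.image fun b => l.1 * b - l.2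

/-- the affine image `d A + t` -/
noncomputable def aff (d t : ZMod p) (A : Finset (ZMod p)) : Finset (ZMod p) := by
  classical exact A.image fun a => d * a + t

theorem aff_card {d t : ZMod p} (hd : d ≠ 0) (A : Finset (ZMod p)) :
    (aff d t A).card = A.card := by
  classical
  unfold aff
  refine card_image_of_injective _ fun a b h => ?_
  simp only [add_left_inj] at h
  exact mul_left_cancel₀ hd h

/-- **Amplification with a prescribed set of affine maps.** -/
theorem template (hχ : χ ≠ 1) (Λ : Finset (ZMod p × ZMod p)) (hΛ : ∀ l ∈ Λ, χ l.1 = 1)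
    (A B : Finset (ZMod p)) (m M N : ℕ) (hm : Λ.card = m) (hm1 : 1 ≤ m) (hM : 1 ≤ M) (hN : 1 ≤ N)
    (hA : A.card = M) (hB : B.card = N) (hpM : 2 * (m * M) ≤ p) (hpN : 2 * (m * N) ≤ p) :
    ∃ d t : ZMod p, d ≠ 0 ∧
      (m : ℝ) / 2 * ‖dsum χ A B‖ ≤
        ‖dsum χ (blow Λ (aff d t A)) (blow' Λ (aff d (-t) B))‖ +
          Real.sqrt (2 * m) * (m * Real.sqrt M * Real.sqrt N) * (Real.sqrt M + Real.sqrt N) := by
  classical
  have hp2 : 2 ≤ p := (Fact.out : p.Prime).two_le
  have hp0 : (0 : ℝ) < p := by exact_mod_cast (Fact.out : p.Prime).pos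
  have hp1 : (0 : ℝ) < (p : ℝ) - 1 := by
    have : (2 : ℝ) ≤ p := by exact_mod_cast hp2
    linarith
  have hg0 : ∀ l ∈ Λ, l.1 ≠ 0 := by
    intro l hl h
    have := hΛ l hl
    rw [h, MulChar.map_zero χ] at this
    exact zero_ne_one this
  set Ω : Finset (ZMod p × ZMod p) := ((univ : Finset (ZMod p)).erase 0) ×ˢ univ with hΩ
  have hΩc : (Ω.card : ℝ) = ((p : ℝ) - 1) * p := by
    rw [hΩ, card_product, card_erase_of_mem (mem_univ _), card_univ, ZMod.card]
    push_cast [Nat.cast_sub (show 1 ≤ p by omega)]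
    ring
  have hΩne : Ω.Nonempty := ⟨(1, 0), by
    rw [hΩ, mem_product]
    exact ⟨mem_erase.2 ⟨one_ne_zero, mem_univ _⟩, mem_univ _⟩⟩
  have hd0 : ∀ ω ∈ Ω, ω.1 ≠ 0 := fun ω hω => ne_of_mem_erase (mem_product.1 hω).1
  set AA : ZMod p × ZMod p → ZMod p × ZMod p → Finset (ZMod p) :=
    fun ω l => img l.1 l.2 ω.1 ω.2 A with hAA
  set BB : ZMod p × ZMod p → ZMod p × ZMod p → Finset (ZMod p) :=
    fun ω l => img l.1 (-l.2) ω.1 (-ω.2) B with hBB
  set S := dsum χ A B with hS
  -- number of pairs of different maps with equal slopes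
  set P : ℕ := ∑ i ∈ Λ, ((Λ.erase i).filter fun j => i.1 = j.1).card with hP
  have hPle : (P : ℝ) ≤ (m : ℝ) * ((m : ℝ) - 1) := by
    have h1 : P ≤ ∑ _i ∈ Λ, (m - 1) := by
      refine sum_le_sum fun i hi => ?_
      refine (card_filter_le _ _).trans (le_of_eq ?_)
      rw [card_erase_of_mem hi, hm]
    rw [sum_const, hm, smul_eq_mul] at h1
    have h2 : (P : ℝ) ≤ ((m * (m - 1) : ℕ) : ℝ) := by exact_mod_cast h1
    rw [Nat.cast_mul, Nat.cast_sub hm1] at h2
    simpa using h2
  set c : ℂ := (((m : ℝ) - P / ((p : ℝ) - 1) : ℝ) : ℂ) * S with hc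
  -- (h1)
  have hh1 : ∑ ω ∈ Ω, χ ω.1⁻¹ * ∑ i ∈ Λ, ∑ j ∈ Λ, dsum χ (AA ω i) (BB ω j) =
      (Ω.card : ℂ) * c := by
    have e1 : ∑ ω ∈ Ω, χ ω.1⁻¹ * ∑ i ∈ Λ, ∑ j ∈ Λ, dsum χ (AA ω i) (BB ω j) =
        ∑ i ∈ Λ, ∑ j ∈ Λ, ∑ ω ∈ Ω, χ ω.1⁻¹ * dsum χ (AA ω i) (BB ω j) := by
      rw [sum_congr rfl fun ω _ => by rw [mul_sum], sum_comm]
      refine sum_congr rfl fun i _ => ?_
      rw [sum_congr rfl fun ω _ => by rw [mul_sum], sum_comm]
    rw [e1]
    have e2 : ∀ i ∈ Λ, ∑ j ∈ Λ, ∑ ω ∈ Ω, χ ω.1⁻¹ * dsum χ (AA ω i) (BB ω j) =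
        (Ω.card : ℂ) * S - (((Λ.erase i).filter fun j => i.1 = j.1).card : ℂ) * ((p : ℂ) * S) := by
      intro i hi
      rw [← add_sum_erase Λ _ hi]
      have e3 : ∑ ω ∈ Ω, χ ω.1⁻¹ * dsum χ (AA ω i) (BB ω i) = (Ω.card : ℂ) * S := by
        rw [sum_congr rfl fun ω hω => diag χ (hΛ i hi) (hd0 ω hω) A B, sum_const, nsmul_eq_mul]
      have e4 : ∀ j ∈ Λ.erase i, ∑ ω ∈ Ω, χ ω.1⁻¹ * dsum χ (AA ω i) (BB ω j) =
          if i.1 = j.1 then - ((p : ℂ) * S) else 0 := by
        intro j hj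
        have hj' := mem_of_mem_erase hj
        have hij : i ≠ j := (ne_of_mem_erase hj).symm
        rw [hΩ, sum_product]
        split_ifs with h
        · have hss : i.2 ≠ j.2 := fun h2 => hij (Prod.ext h h2)
          rw [sum_comm]
          have e5 : ∀ t : ZMod p, ∑ d ∈ (univ : Finset (ZMod p)).erase 0,
              χ d⁻¹ * dsum χ (img i.1 i.2 d t A) (img j.1 (-j.2) d (-t) B) = - S := by
            intro t
            rw [← h]
            exact off_shifts χ hχ (hΛ i hi) hss A B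
          rw [sum_congr rfl fun t _ => e5 t, sum_const, card_univ, ZMod.card, nsmul_eq_mul]
          ring
        · refine sum_eq_zero fun d hd => ?_
          have hd' : d ≠ 0 := ne_of_mem_erase hd
          change ∑ t : ZMod p, χ d⁻¹ * dsum χ (img i.1 i.2 d t A) (img j.1 (-j.2) d (-t) B) = 0
          rw [← mul_sum, off_slopes χ hχ (hg0 i hi) (hg0 j hj') hd' h A B, mul_zero]
      rw [e3, sum_congr rfl e4, ← sum_filter, sum_const, nsmul_eq_mul]
      ring
    rw [sum_congr rfl e2, sum_sub_distrib, sum_const, hm, nsmul_eq_mul, ← sum_mul]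
    have e6 : (∑ i ∈ Λ, (((Λ.erase i).filter fun j => i.1 = j.1).card : ℂ)) = (P : ℂ) := by
      rw [hP]; push_cast; rfl
    have e7 : (Ω.card : ℂ) = ((p : ℂ) - 1) * p := by
      have := congrArg (fun x : ℝ => (x : ℂ)) hΩc
      push_cast at this
      exact this
    have e8 : ((p : ℂ) - 1) ≠ 0 := by
      have : (((p : ℝ) - 1 : ℝ) : ℂ) ≠ 0 := by exact_mod_cast hp1.ne'
      push_cast at this
      exact this
    rw [e6, hc, e7]
    push_cast
    field_simp
  -- (h2)
  have hqA : ∀ (X : Finset (ZMod p)) (sg : ZMod p), (sg = 1 ∨ sg = -1) →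
      (p : ℝ) * ∑ ω ∈ Ω, mq Λ (fun l => img l.1 (sg * l.2) ω.1 (sg * ω.2) X) ≤
        (Ω.card : ℝ) * ((m : ℝ) ^ 2 * (X.card : ℝ) ^ 2) := by
    intro X sg hsg
    have hsg0 : sg ≠ 0 := by
      rcases hsg with h | h
      · rw [h]; exact one_ne_zero
      · rw [h]; exact neg_ne_zero.2 one_ne_zero
    have e1 : ∑ ω ∈ Ω, mq Λ (fun l => img l.1 (sg * l.2) ω.1 (sg * ω.2) X) =
        ∑ i ∈ Λ, ∑ j ∈ Λ.erase i, ∑ ω ∈ Ω,
          io (img i.1 (sg * i.2) ω.1 (sg * ω.2) X) (img j.1 (sg * j.2) ω.1 (sg * ω.2) X) := by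
      rw [sum_congr rfl fun ω _ => mq_eq Λ _, sum_comm]
      refine sum_congr rfl fun i _ => ?_
      rw [sum_comm]
    have e2 : ∀ i ∈ Λ, ∀ j ∈ Λ.erase i, ∑ ω ∈ Ω,
        io (img i.1 (sg * i.2) ω.1 (sg * ω.2) X) (img j.1 (sg * j.2) ω.1 (sg * ω.2) X) ≤
          ((p : ℝ) - 1) * (X.card : ℝ) ^ 2 := by
      intro i hi j hj
      have hij : i ≠ j := (ne_of_mem_erase hj).symm
      rw [hΩ, sum_product]
      have e3 : ∀ d : ZMod p, ∑ t : ZMod p,
          io (img i.1 (sg * i.2) d (sg * t) X) (img j.1 (sg * j.2) d (sg * t) X) =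
          ∑ t : ZMod p, io (img i.1 (sg * i.2) d t X) (img j.1 (sg * j.2) d t X) := by
        intro d
        exact Fintype.sum_equiv (Equiv.mulLeft₀ sg hsg0) _ _ fun t => rfl
      rw [sum_congr rfl fun d _ => e3 d]
      refine io_avg (hg0 i hi) (hg0 j (mem_of_mem_erase hj)) ?_ X
      intro h
      rw [Prod.mk.injEq] at h
      exact hij (Prod.ext h.1 (mul_left_cancel₀ hsg0 h.2))
    rw [e1]
    have e4 : ∑ i ∈ Λ, ∑ j ∈ Λ.erase i, ∑ ω ∈ Ω,
          io (img i.1 (sg * i.2) ω.1 (sg * ω.2) X) (img j.1 (sg * j.2) ω.1 (sg * ω.2) X) ≤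
        ∑ i ∈ Λ, ∑ j ∈ Λ, ((p : ℝ) - 1) * (X.card : ℝ) ^ 2 := by
      refine sum_le_sum fun i hi => ?_
      refine (sum_le_sum fun j hj => e2 i hi j hj).trans ?_
      exact sum_le_sum_of_subset_of_nonneg (erase_subset _ _) fun _ _ _ => by positivity
    rw [sum_const, sum_const, hm, nsmul_eq_mul, nsmul_eq_mul] at e4
    calc (p : ℝ) * _ ≤ (p : ℝ) * ((m : ℝ) * ((m : ℝ) * (((p : ℝ) - 1) * (X.card : ℝ) ^ 2))) :=
          mul_le_mul_of_nonneg_left e4 hp0.le
      _ = _ := by rw [hΩc]; ring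
  have hh2A : (p : ℝ) * ∑ ω ∈ Ω, mq Λ (AA ω) ≤ (Ω.card : ℝ) * ((m : ℝ) ^ 2 * (M : ℝ) ^ 2) := by
    have := hqA A 1 (Or.inl rfl)
    simp only [one_mul] at this
    rw [hA] at this
    exact this
  have hh2B : (p : ℝ) * ∑ ω ∈ Ω, mq Λ (BB ω) ≤ (Ω.card : ℝ) * ((m : ℝ) ^ 2 * (N : ℝ) ^ 2) := by
    have := hqA B (-1) (Or.inr rfl)
    simp only [neg_one_mul] at this
    rw [hB] at this
    exact this
  obtain ⟨ω, hω, hmain⟩ := amp_abs χ Λ hχ Ω hΩne (fun ω => χ ω.1⁻¹)
    (fun ω _ => norm_le_one χ _) AA BB m M N hm hm1 hM hN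
    (fun ω hω i hi => by rw [hAA]; simp only; rw [img_card (hg0 i hi) (hd0 ω hω), hA])
    (fun ω hω i hi => by rw [hBB]; simp only; rw [img_card (hg0 i hi) (hd0 ω hω), hB])
    hpM hpN c hh1 hh2A hh2B
  refine ⟨ω.1, ω.2, hd0 ω hω, ?_⟩
  have hsA : su Λ (AA ω) = blow Λ (aff ω.1 ω.2 A) := by
    unfold su blow aff
    refine biUnion_congr rfl fun l _ => ?_
    rw [hAA, image_image]
    rfl
  have hsB : su Λ (BB ω) = blow' Λ (aff ω.1 (-ω.2) B) := by
    unfold su blow' aff
    refine biUnion_congr rfl fun l _ => ?_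
    rw [hBB, image_image]
    simp only [img]
    refine image_congr fun b _ => ?_
    simp only [Function.comp]
    ring
  rw [hsA, hsB] at hmain
  refine le_trans ?_ hmain
  rw [hc, norm_mul, Complex.norm_real, Real.norm_eq_abs]
  refine mul_le_mul_of_nonneg_right ?_ (norm_nonneg _)
  refine le_trans ?_ (le_abs_self _)
  -- m/2 ≤ m - P/(p-1)
  have h2m : 2 * ((m : ℝ) - 1) ≤ (p : ℝ) - 1 := by
    have : 2 * m ≤ p := by nlinarith
    have : 2 * (m : ℝ) ≤ p := by exact_mod_cast this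
    linarith
  have h3 : (P : ℝ) / ((p : ℝ) - 1) ≤ (m : ℝ) / 2 := by
    rw [div_le_iff₀ hp1]
    have hm0 : (0 : ℝ) ≤ m := Nat.cast_nonneg _
    nlinarith
  linarith

end Pool.Agent.N793.PG
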