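import Pool.Agent.N793.PG.Avg

/-! # Amplification of double character sums by translations -/

set_option autoImplicit false

namespace Pool.Agent.N793.PG

open Finset

variable {p : ℕ} [Fact p.Prime] (χ : MulChar (ZMod p) ℂ)

/-- the double sum of `χ (a + b)` over `a ∈ A`, `b ∈ B` -/
noncomputable def dsum (A B : Finset (ZMod p)) : ℂ := ∑ a ∈ A, ∑ b ∈ B, χ (a + b)

/-- the shifted double sum -/
noncomputable def X (A B : Finset (ZMod p)) (u : ZMod p) : ℂ :=
  ∑ x : ZMod p, ∑ y : ZMod p, (ind A x : ℂ) * (ind B y : ℂ) * χ (x + y + u)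

theorem W_ind (A B : Finset (ZMod p)) : W χ (ind A) (ind B) = dsum χ A B := by
  classical
  unfold W dsum ind
  rw [← sum_filter_add_sum_filter_not univ (fun x => x ∈ A)]
  rw [show ∑ x ∈ univ.filter (fun x => ¬ x ∈ A), ∑ y : ZMod p,
      (((if x ∈ A then (1 : ℝ) else 0 : ℝ) : ℂ)) * (((if y ∈ B then (1 : ℝ) else 0 : ℝ) : ℂ)) *
        χ (x + y) = 0 by
    refine sum_eq_zero fun x hx => sum_eq_zero fun y _ => ?_
    rw [if_neg (mem_filter.1 hx).2]; simp]
  rw [add_zero, filter_mem_eq_inter, univ_inter]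
  refine sum_congr rfl fun x hx => ?_
  rw [← sum_filter_add_sum_filter_not univ (fun x => x ∈ B)]
  rw [show ∑ y ∈ univ.filter (fun y => ¬ y ∈ B),
      (((if x ∈ A then (1 : ℝ) else 0 : ℝ) : ℂ)) * (((if y ∈ B then (1 : ℝ) else 0 : ℝ) : ℂ)) *
        χ (x + y) = 0 by
    refine sum_eq_zero fun y hy => ?_
    rw [if_neg (mem_filter.1 hy).2]; simp]
  rw [add_zero, filter_mem_eq_inter, univ_inter]
  refine sum_congr rfl fun y hy => ?_
  rw [if_pos hx, if_pos hy]
  simp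

theorem X_zero (A B : Finset (ZMod p)) : X χ A B 0 = dsum χ A B := by
  rw [← W_ind]
  unfold X W
  simp only [add_zero]

theorem X_sum (hχ : χ ≠ 1) (A B : Finset (ZMod p)) : ∑ u : ZMod p, X χ A B u = 0 := by
  unfold X
  rw [sum_comm]
  refine sum_eq_zero fun x _ => ?_
  rw [sum_comm]
  refine sum_eq_zero fun y _ => ?_
  rw [← mul_sum]
  have h : ∑ u : ZMod p, χ (x + y + u) = ∑ z : ZMod p, χ z :=
    Fintype.sum_equiv (Equiv.addLeft (x + y)) _ _ fun u => rfl
  rw [h, MulChar.sum_eq_zero_of_ne_one hχ, mul_zero]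

theorem W_Fs (A B : Finset (ZMod p)) {m : ℕ} (t : Fin m → ZMod p) :
    W χ (Fs A 1 t) (Fs B (-1) t) = ∑ i : Fin m, ∑ j : Fin m, X χ A B (t i - t j) := by
  have h1 : ∀ x y : ZMod p, ((Fs A 1 t x : ℝ) : ℂ) * ((Fs B (-1) t y : ℝ) : ℂ) * χ (x + y) =
      ∑ i : Fin m, ∑ j : Fin m,
        (ind A (x - 1 * t i) : ℂ) * (ind B (y - (-1) * t j) : ℂ) * χ (x + y) := by
    intro x y
    unfold Fs
    push_cast
    rw [sum_mul_sum, sum_mul]
    refine sum_congr rfl fun i _ => ?_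
    rw [sum_mul]
  unfold W
  rw [sum_congr rfl fun x _ => sum_congr rfl fun y _ => h1 x y]
  -- move the sums over i, j outside
  have h2 : ∑ x : ZMod p, ∑ y : ZMod p, ∑ i : Fin m, ∑ j : Fin m,
        (ind A (x - 1 * t i) : ℂ) * (ind B (y - (-1) * t j) : ℂ) * χ (x + y) =
      ∑ i : Fin m, ∑ j : Fin m, ∑ x : ZMod p, ∑ y : ZMod p,
        (ind A (x - 1 * t i) : ℂ) * (ind B (y - (-1) * t j) : ℂ) * χ (x + y) := by
    calc _ = ∑ x : ZMod p, ∑ i : Fin m, ∑ j : Fin m, ∑ y : ZMod p,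
        (ind A (x - 1 * t i) : ℂ) * (ind B (y - (-1) * t j) : ℂ) * χ (x + y) := by
          refine sum_congr rfl fun x _ => ?_
          rw [sum_comm]
          refine sum_congr rfl fun i _ => ?_
          rw [sum_comm]
      _ = _ := by
          rw [sum_comm]
          refine sum_congr rfl fun i _ => ?_
          rw [sum_comm]
  rw [h2]
  refine sum_congr rfl fun i _ => sum_congr rfl fun j _ => ?_
  unfold X
  refine Fintype.sum_equiv (Equiv.subRight (t i)) _ _ fun x => ?_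
  refine Fintype.sum_equiv (Equiv.addRight (t j)) _ _ fun y => ?_
  simp only [Equiv.subRight_apply, Equiv.coe_addRight, one_mul]
  rw [show y - -1 * t j = y + t j by ring]
  congr 2
  ring

theorem W_avg (hχ : χ ≠ 1) (A B : Finset (ZMod p)) (m : ℕ) :
    ∑ t : Fin m → ZMod p, W χ (Fs A 1 t) (Fs B (-1) t) =
      (p : ℂ) ^ m * ((m : ℂ) * dsum χ A B) := by
  classical
  have hp : (p : ℝ) ≠ 0 := by exact_mod_cast (Fact.out : p.Prime).ne_zero
  rw [sum_congr rfl fun t _ => W_Fs χ A B t, sum_comm]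
  have h1 : ∀ i : Fin m, ∑ t : Fin m → ZMod p, ∑ j : Fin m, X χ A B (t i - t j) =
      (p : ℂ) ^ m * dsum χ A B := by
    intro i
    rw [sum_comm, ← add_sum_erase univ _ (mem_univ i)]
    rw [sum_eq_zero (s := univ.erase i)]
    · simp only [sub_self, X_zero, add_zero, sum_const, card_univ, Fintype.card_fun, ZMod.card,
        Fintype.card_fin, nsmul_eq_mul]
      push_cast
      rfl
    · intro j hj
      have h2 := avg_diff m (fun u => X χ A B u) (ne_of_mem_erase hj).symm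
      rw [X_sum χ hχ, smul_zero] at h2
      exact (smul_eq_zero.1 h2).resolve_left hp
  rw [sum_congr rfl fun i _ => h1 i, sum_const, card_univ, Fintype.card_fin, nsmul_eq_mul]
  ring

theorem W_add_left (f f' g : ZMod p → ℝ) :
    W χ (fun x => f x + f' x) g = W χ f g + W χ f' g := by
  unfold W
  rw [← sum_add_distrib]
  refine sum_congr rfl fun x _ => ?_
  rw [← sum_add_distrib]
  refine sum_congr rfl fun y _ => ?_
  push_cast
  ring

theorem W_add_right (f g g' : ZMod p → ℝ) :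
    W χ f (fun y => g y + g' y) = W χ f g + W χ f g' := by
  unfold W
  rw [← sum_add_distrib]
  refine sum_congr rfl fun x _ => ?_
  rw [← sum_add_distrib]
  refine sum_congr rfl fun y _ => ?_
  push_cast
  ring

/-- a unimodular number turning `z` into its modulus -/
theorem exists_unimodular (z : ℂ) : ∃ w : ℂ, ‖w‖ = 1 ∧ w * z = (‖z‖ : ℂ) := by
  by_cases hz : z = 0
  · exact ⟨1, by simp, by rw [hz]; simp⟩
  · refine ⟨(starRingEnd ℂ) z / ‖z‖, ?_, ?_⟩
    · rw [norm_div, RCLike.norm_conj, Complex.norm_real, norm_norm]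
      exact div_self (norm_ne_zero_iff.2 hz)
    · have h : ((‖z‖ : ℝ) : ℂ) ≠ 0 := by exact_mod_cast norm_ne_zero_iff.2 hz
      rw [div_mul_eq_mul_div, Complex.conj_mul', sq]
      field_simp

/-- the supports carry the sum up to the excesses -/
theorem support_error (hχ : χ ≠ 1) (A B : Finset (ZMod p)) {m : ℕ} (t : Fin m → ZMod p)
    (μ ν : ℝ) (hμ : 0 < μ) (hν : 0 < ν) (hμν : (p : ℝ) ≤ μ * ν) :
    ‖W χ (Fs A 1 t) (Fs B (-1) t)‖ ≤ ‖dsum χ (sp A 1 t) (sp B (-1) t)‖ +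
      μ * Qs A 1 t + ν * Qs B (-1) t + p * (m * B.card) / (2 * μ) +
        p * (m * A.card) / (2 * ν) := by
  have e : W χ (Fs A 1 t) (Fs B (-1) t) =
      dsum χ (sp A 1 t) (sp B (-1) t) +
      W χ (ind (sp A 1 t)) (fun y => Fs B (-1) t y - ind (sp B (-1) t) y) +
      W χ (fun x => Fs A 1 t x - ind (sp A 1 t) x) (Fs B (-1) t) := by
    rw [← W_ind, ← W_add_right]
    have h1 : (fun y => ind (sp B (-1) t) y + (Fs B (-1) t y - ind (sp B (-1) t) y)) =
        Fs B (-1) t := by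
      funext y; ring
    rw [h1, ← W_add_left]
    have h2 : (fun x => ind (sp A 1 t) x + (Fs A 1 t x - ind (sp A 1 t) x)) =
        Fs A 1 t := by
      funext y; ring
    rw [h2]
  have hp : (0 : ℝ) ≤ p := Nat.cast_nonneg _
  have hQA := Qs_nonneg A 1 t
  have hQB := Qs_nonneg B (-1) t
  have hiA : ∑ x : ZMod p, ind (sp A 1 t) x ^ 2 ≤ m * A.card := by
    have h1 : ∑ x : ZMod p, ind (sp A 1 t) x ^ 2 = (sp A 1 t).card := by
      rw [← ind_sum]
      refine sum_congr rfl fun x _ => ?_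
      rw [sq, ind_mul_self]
    rw [h1]
    exact_mod_cast sp_card A 1 t
  have hFB : ∑ y : ZMod p, Fs B (-1) t y ^ 2 ≤ Qs B (-1) t + m * B.card := by
    rw [F_sq]
  set a := Qs A 1 t with ha
  set b := Qs B (-1) t with hb
  set K : ℝ := m * A.card with hK
  set L : ℝ := m * B.card with hL
  have hK0 : 0 ≤ K := by positivity
  have hL0 : 0 ≤ L := by positivity
  -- first error: √(p K b) ≤ ν b / 2 + p K / (2 ν)
  have h1 : ‖W χ (ind (sp A 1 t)) (fun y => Fs B (-1) t y - ind (sp B (-1) t) y)‖ ≤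
      ν * b / 2 + p * K / (2 * ν) := by
    refine W_bound' χ hχ _ _ K b hiA (F1_sq B (-1) t) _ (by positivity) ?_
    have h2 : (ν * b / 2) * (p * K / (2 * ν)) = p * K * b / 4 := by field_simp; ring
    nlinarith [sq_nonneg (ν * b / 2 - p * K / (2 * ν))]
  -- second error
  have h3 : ‖W χ (fun x => Fs A 1 t x - ind (sp A 1 t) x) (Fs B (-1) t)‖ ≤
      (μ * a / 2 + p * L / (2 * μ)) + (μ * a + ν * b) / 2 := by
    refine W_bound' χ hχ _ _ a (b + L) (F1_sq A 1 t) hFB _ (by positivity) ?_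
    have h2 : (μ * a / 2) * (p * L / (2 * μ)) = p * L * a / 4 := by field_simp; ring
    have h4 : p * a * b ≤ ((μ * a + ν * b) / 2) ^ 2 := by
      have h5 : p * (a * b) ≤ (μ * ν) * (a * b) := mul_le_mul_of_nonneg_right hμν (by positivity)
      nlinarith [sq_nonneg (μ * a - ν * b)]
    have h6 : p * L * a ≤ (μ * a / 2 + p * L / (2 * μ)) ^ 2 := by
      nlinarith [sq_nonneg (μ * a / 2 - p * L / (2 * μ))]
    have h7 : 0 ≤ μ * a / 2 + p * L / (2 * μ) := by positivity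
    have h8 : 0 ≤ (μ * a + ν * b) / 2 := by positivity
    nlinarith [mul_nonneg h7 h8]
  rw [e]
  refine (norm_add₃_le).trans ?_
  linarith

/-- **Amplification by translations.** -/
theorem amplify (hχ : χ ≠ 1) (A B : Finset (ZMod p)) (m M N : ℕ) (hm : 1 ≤ m) (hM : 1 ≤ M)
    (hN : 1 ≤ N) (hA : A.card = M) (hB : B.card = N) (hpM : 2 * (m * M) ≤ p)
    (hpN : 2 * (m * N) ≤ p) :
    ∃ A' B' : Finset (ZMod p), A'.card ≤ m * M ∧ B'.card ≤ m * N ∧
      (m : ℝ) * ‖dsum χ A B‖ ≤ ‖dsum χ A' B'‖ +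
        Real.sqrt (2 * m) * (m * Real.sqrt M * Real.sqrt N) * (Real.sqrt M + Real.sqrt N) := by
  classical
  have hp0 : (0 : ℝ) < p := by exact_mod_cast (Fact.out : p.Prime).pos
  have hm0 : (0 : ℝ) < m := by exact_mod_cast hm
  have hM0 : (0 : ℝ) < M := by exact_mod_cast hM
  have hN0 : (0 : ℝ) < N := by exact_mod_cast hN
  set r : ℝ := Real.sqrt (2 * m) with hr
  set u : ℝ := Real.sqrt M with hu
  set v : ℝ := Real.sqrt N with hv
  have hr2 : r ^ 2 = 2 * m := Real.sq_sqrt (by positivity)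
  have hu2 : u ^ 2 = M := Real.sq_sqrt (by positivity)
  have hv2 : v ^ 2 = N := Real.sq_sqrt (by positivity)
  have hr0 : 0 < r := Real.sqrt_pos.2 (by positivity)
  have hu0 : 0 < u := Real.sqrt_pos.2 hM0
  have hv0 : 0 < v := Real.sqrt_pos.2 hN0
  have hp'M : 2 * ((m : ℝ) * M) ≤ p := by exact_mod_cast hpM
  have hp'N : 2 * ((m : ℝ) * N) ≤ p := by exact_mod_cast hpN
  -- μ = p v / (r M), ν = p u / (r N)
  set μ : ℝ := p * v / (r * u ^ 2) with hμ
  set ν : ℝ := p * u / (r * v ^ 2) with hν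
  have hμ0 : 0 < μ := by positivity
  have hν0 : 0 < ν := by positivity
  have hμν : (p : ℝ) ≤ μ * ν := by
    have h1 : μ * ν = p ^ 2 / (r ^ 2 * (u * v)) := by
      rw [hμ, hν]; field_simp
    rw [h1, le_div_iff₀ (by positivity), hr2]
    have h2 : 2 * m * (u * v) ≤ (p : ℝ) := by
      have h3 : 2 * (u * v) ≤ u ^ 2 + v ^ 2 := by nlinarith [sq_nonneg (u - v)]
      rw [hu2, hv2] at h3
      nlinarith
    nlinarith
  obtain ⟨w, hw1, hw2⟩ := exists_unimodular (dsum χ A B)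
  -- averages
  have h1 : ∑ t : Fin m → ZMod p, (w * W χ (Fs A 1 t) (Fs B (-1) t)).re =
      (p : ℝ) ^ m * (m * ‖dsum χ A B‖) := by
    rw [← Complex.re_sum, ← mul_sum, W_avg χ hχ]
    rw [show w * ((p : ℂ) ^ m * ((m : ℂ) * dsum χ A B)) =
      (((p : ℝ) ^ m * (m * ‖dsum χ A B‖) : ℝ) : ℂ) by
        push_cast; rw [← hw2]; ring]
    rw [Complex.ofReal_re]
  have h2A := Qs_avg A (m := m) 1 one_ne_zero
  have h2B := Qs_avg B (m := m) (-1) (neg_ne_zero.2 one_ne_zero)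
  rw [hA, ← hu2] at h2A
  rw [hB, ← hv2] at h2B
  have h3A : μ * ∑ t : Fin m → ZMod p, Qs A 1 t ≤ (p : ℝ) ^ m * (r * m * (u ^ 2 * v) / 2) := by
    have h5 : μ * ∑ t : Fin m → ZMod p, Qs A 1 t =
        (v / (r * u ^ 2)) * ((p : ℝ) * ∑ t : Fin m → ZMod p, Qs A 1 t) := by
      rw [hμ]; ring
    rw [h5]
    refine (mul_le_mul_of_nonneg_left h2A (by positivity)).trans (le_of_eq ?_)
    have h6 : (m : ℝ) = r ^ 2 / 2 := by rw [hr2]; ring
    rw [h6]
    field_simp
  have h3B : ν * ∑ t : Fin m → ZMod p, Qs B (-1) t ≤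
      (p : ℝ) ^ m * (r * m * (u * v ^ 2) / 2) := by
    have h5 : ν * ∑ t : Fin m → ZMod p, Qs B (-1) t =
        (u / (r * v ^ 2)) * ((p : ℝ) * ∑ t : Fin m → ZMod p, Qs B (-1) t) := by
      rw [hν]; ring
    rw [h5]
    refine (mul_le_mul_of_nonneg_left h2B (by positivity)).trans (le_of_eq ?_)
    have h6 : (m : ℝ) = r ^ 2 / 2 := by rw [hr2]; ring
    rw [h6]
    field_simp
  obtain ⟨t, ht⟩ := exists_ge_avg m
    (fun t : Fin m → ZMod p => (w * W χ (Fs A 1 t) (Fs B (-1) t)).re -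
      (μ * Qs A 1 t + ν * Qs B (-1) t))
      (m * ‖dsum χ A B‖ - (r * m * (u ^ 2 * v) / 2 + r * m * (u * v ^ 2) / 2)) (by
        rw [sum_sub_distrib, h1, sum_add_distrib, ← mul_sum, ← mul_sum]
        linarith [h3A, h3B])
  refine ⟨sp A 1 t, sp B (-1) t, ?_, ?_, ?_⟩
  · have := sp_card A 1 t; rwa [hA] at this
  · have := sp_card B (-1) t; rwa [hB] at this
  have h6 := support_error χ hχ A B t μ ν hμ0 hν0 hμν
  have h7 : (w * W χ (Fs A 1 t) (Fs B (-1) t)).re ≤ ‖W χ (Fs A 1 t) (Fs B (-1) t)‖ := by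
    refine (Complex.re_le_norm _).trans ?_
    rw [norm_mul, hw1, one_mul]
  rw [hA, hB, ← hu2, ← hv2] at h6
  have h8 : p * (m * v ^ 2) / (2 * μ) = r * m * (u ^ 2 * v) / 2 := by
    rw [hμ]; field_simp
  have h9 : p * (m * u ^ 2) / (2 * ν) = r * m * (u * v ^ 2) / 2 := by
    rw [hν]; field_simp
  rw [h8, h9] at h6
  have h10 : r * (m * u * v) * (u + v) =
      r * m * (u ^ 2 * v) / 2 + r * m * (u * v ^ 2) / 2 +
      (r * m * (u ^ 2 * v) / 2 + r * m * (u * v ^ 2) / 2) := by ring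
  rw [h10]
  linarith

end Pool.Agent.N793.PG
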