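import Pool.Agent.N793.PG.Bilinear

/-! # Averages over tuples of shifts -/

set_option autoImplicit false

namespace Pool.Agent.N793.PG

open Finset

variable {p : ℕ} [Fact p.Prime]

/-- average of a function of a difference of two coordinates -/
theorem avg_diff {E : Type*} [AddCommGroup E] [Module ℝ E] (m : ℕ) (g : ZMod p → E)
    {i j : Fin m} (hij : i ≠ j) :
    (p : ℝ) • ∑ t : Fin m → ZMod p, g (t i - t j) = ((p : ℝ) ^ m) • ∑ u : ZMod p, g u := by
  classical
  have h1 : ∀ u : ZMod p, ∑ t : Fin m → ZMod p, g (t i - t j) =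
      ∑ t : Fin m → ZMod p, g (t i - t j + u) := by
    intro u
    have e : (Fin m → ZMod p) ≃ (Fin m → ZMod p) := Equiv.addRight (Pi.single i u)
    refine (Fintype.sum_equiv (Equiv.addRight (Pi.single i u : Fin m → ZMod p)) _ _
      fun t => ?_).symm
    simp only [Equiv.coe_addRight, Pi.add_apply, Pi.single_eq_same, Pi.single_eq_of_ne hij.symm]
    congr 1
    ring
  have h2 : ∑ _u : ZMod p, ∑ t : Fin m → ZMod p, g (t i - t j) =
      ∑ t : Fin m → ZMod p, ∑ u : ZMod p, g u := by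
    rw [sum_congr rfl fun u _ => h1 u, sum_comm]
    refine sum_congr rfl fun t _ => ?_
    exact Fintype.sum_equiv (Equiv.addLeft (t i - t j)) _ _ fun u => rfl
  rw [sum_const, sum_const, card_univ, card_univ, ZMod.card, Fintype.card_fun, ZMod.card,
    Fintype.card_fin] at h2
  rw [Nat.cast_smul_eq_nsmul ℝ, h2, ← Nat.cast_smul_eq_nsmul ℝ]
  push_cast
  rfl

/-- if the average is at least `c` then some value is -/
theorem exists_ge_avg (m : ℕ) (J : (Fin m → ZMod p) → ℝ) (c : ℝ)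
    (h : (p : ℝ) ^ m * c ≤ ∑ t : Fin m → ZMod p, J t) : ∃ t, c ≤ J t := by
  classical
  by_contra hcon
  push Not at hcon
  have h1 : ∑ t : Fin m → ZMod p, J t < ∑ _t : Fin m → ZMod p, c :=
    sum_lt_sum_of_nonempty univ_nonempty fun t _ => hcon t
  rw [sum_const, card_univ, Fintype.card_fun, ZMod.card, Fintype.card_fin, nsmul_eq_mul] at h1
  push_cast at h1
  linarith

/-- the indicator -/
noncomputable def ind (A : Finset (ZMod p)) (x : ZMod p) : ℝ := by
  classical exact if x ∈ A then 1 else 0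

theorem ind_sum (A : Finset (ZMod p)) : ∑ x : ZMod p, ind A x = A.card := by
  classical
  unfold ind
  rw [sum_ite_mem, univ_inter, sum_const, nsmul_eq_mul, mul_one]

theorem ind_mul_self (A : Finset (ZMod p)) (x : ZMod p) : ind A x * ind A x = ind A x := by
  classical
  unfold ind
  split_ifs <;> ring

theorem ind_nonneg (A : Finset (ZMod p)) (x : ZMod p) : 0 ≤ ind A x := by
  classical
  unfold ind
  split_ifs <;> norm_num

/-- sum of translates, with sign `s = ±1` -/
noncomputable def Fs (A : Finset (ZMod p)) {m : ℕ} (s : ZMod p) (t : Fin m → ZMod p)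
    (x : ZMod p) : ℝ := ∑ j : Fin m, ind A (x - s * t j)

theorem Fs_sum (A : Finset (ZMod p)) {m : ℕ} (s : ZMod p) (t : Fin m → ZMod p) :
    ∑ x : ZMod p, Fs A s t x = m * A.card := by
  unfold Fs
  rw [sum_comm]
  have h : ∀ j : Fin m, ∑ x : ZMod p, ind A (x - s * t j) = A.card := by
    intro j
    rw [← ind_sum A]
    exact Fintype.sum_equiv (Equiv.subRight (s * t j)) _ _ fun x => rfl
  rw [sum_congr rfl fun j _ => h j, sum_const, card_univ, Fintype.card_fin, nsmul_eq_mul]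

/-- the overlap function -/
noncomputable def ov (A : Finset (ZMod p)) (u : ZMod p) : ℝ :=
  ∑ x : ZMod p, ind A x * ind A (x + u)

theorem ov_sum (A : Finset (ZMod p)) : ∑ u : ZMod p, ov A u = (A.card : ℝ) ^ 2 := by
  unfold ov
  rw [sum_comm]
  have h : ∀ x : ZMod p, ∑ u : ZMod p, ind A x * ind A (x + u) = ind A x * A.card := by
    intro x
    rw [← mul_sum, ← ind_sum A]
    congr 1
    exact Fintype.sum_equiv (Equiv.addLeft x) _ _ fun u => rfl
  rw [sum_congr rfl fun x _ => h x, ← sum_mul, ind_sum]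
  ring

/-- the excess `∑ F (F - 1)` -/
noncomputable def Qs (A : Finset (ZMod p)) {m : ℕ} (s : ZMod p) (t : Fin m → ZMod p) : ℝ :=
  ∑ x : ZMod p, (Fs A s t x ^ 2 - Fs A s t x)

theorem Qs_eq (A : Finset (ZMod p)) {m : ℕ} (s : ZMod p) (t : Fin m → ZMod p) :
    Qs A s t = ∑ i : Fin m, ∑ j ∈ univ.erase i, ov A (s * t i - s * t j) := by
  classical
  have h1 : ∀ x : ZMod p, Fs A s t x ^ 2 - Fs A s t x =
      ∑ i : Fin m, ∑ j ∈ univ.erase i, ind A (x - s * t i) * ind A (x - s * t j) := by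
    intro x
    unfold Fs
    rw [sq, sum_mul_sum, ← sum_sub_distrib]
    refine sum_congr rfl fun i _ => ?_
    rw [← add_sum_erase univ _ (mem_univ i), ind_mul_self]
    ring
  unfold Qs
  rw [sum_congr rfl fun x _ => h1 x, sum_comm]
  refine sum_congr rfl fun i _ => ?_
  rw [sum_comm]
  refine sum_congr rfl fun j _ => ?_
  unfold ov
  refine Fintype.sum_equiv (Equiv.subRight (s * t i)) _ _ fun x => ?_
  simp only [Equiv.subRight_apply]
  congr 2
  ring

theorem Qs_avg (A : Finset (ZMod p)) {m : ℕ} (s : ZMod p) (hs : s ≠ 0) :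
    (p : ℝ) * ∑ t : Fin m → ZMod p, Qs A s t ≤ (p : ℝ) ^ m * ((m : ℝ) ^ 2 * (A.card : ℝ) ^ 2) := by
  classical
  have h0 : ∑ t : Fin m → ZMod p, Qs A s t =
      ∑ i : Fin m, ∑ j ∈ univ.erase i, ∑ t : Fin m → ZMod p, ov A (s * (t i - t j)) := by
    rw [sum_congr rfl fun t _ => Qs_eq A s t, sum_comm]
    refine sum_congr rfl fun i _ => ?_
    rw [sum_comm]
    refine sum_congr rfl fun j _ => sum_congr rfl fun t _ => ?_
    rw [mul_sub]
  have h1 : ∀ i : Fin m, ∀ j ∈ univ.erase i,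
      (p : ℝ) * ∑ t : Fin m → ZMod p, ov A (s * (t i - t j)) = (p : ℝ) ^ m * (A.card : ℝ) ^ 2 := by
    intro i j hj
    have h2 := avg_diff m (fun u => ov A (s * u)) (ne_of_mem_erase hj).symm
    simp only [smul_eq_mul] at h2
    rw [h2]
    congr 1
    rw [← ov_sum A]
    exact Fintype.sum_equiv (Equiv.mulLeft₀ s hs) _ _ fun u => rfl
  rw [h0, mul_sum]
  have h3 : ∑ i : Fin m, (p : ℝ) * ∑ j ∈ univ.erase i, ∑ t : Fin m → ZMod p,
      ov A (s * (t i - t j)) = ∑ i : Fin m, ∑ j ∈ univ.erase i, (p : ℝ) ^ m * (A.card : ℝ) ^ 2 := by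
    refine sum_congr rfl fun i _ => ?_
    rw [mul_sum]
    exact sum_congr rfl fun j hj => h1 i j hj
  rw [h3]
  have hpos : (0 : ℝ) ≤ (p : ℝ) ^ m * (A.card : ℝ) ^ 2 := by positivity
  calc ∑ i : Fin m, ∑ j ∈ univ.erase i, (p : ℝ) ^ m * (A.card : ℝ) ^ 2
      ≤ ∑ i : Fin m, ∑ _j : Fin m, (p : ℝ) ^ m * (A.card : ℝ) ^ 2 := by
        refine sum_le_sum fun i _ => ?_
        exact sum_le_sum_of_subset_of_nonneg (erase_subset _ _) fun _ _ _ => hpos
    _ = _ := by
        rw [sum_const, sum_const, card_univ, Fintype.card_fin, nsmul_eq_mul, nsmul_eq_mul]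
        ring

theorem Fs_nat (A : Finset (ZMod p)) {m : ℕ} (s : ZMod p) (t : Fin m → ZMod p) (x : ZMod p) :
    ∃ k : ℕ, Fs A s t x = k := by
  classical
  refine ⟨(univ.filter fun j : Fin m => x - s * t j ∈ A).card, ?_⟩
  unfold Fs ind
  rw [sum_boole]

/-- the support -/
noncomputable def sp (A : Finset (ZMod p)) {m : ℕ} (s : ZMod p) (t : Fin m → ZMod p) :
    Finset (ZMod p) := by
  classical exact univ.filter fun x => Fs A s t x ≠ 0

theorem sp_card (A : Finset (ZMod p)) {m : ℕ} (s : ZMod p) (t : Fin m → ZMod p) :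
    (sp A s t).card ≤ m * A.card := by
  have h : ((sp A s t).card : ℝ) ≤ m * A.card := by
    rw [← ind_sum, ← Fs_sum A s t]
    refine sum_le_sum fun x _ => ?_
    obtain ⟨k, hk⟩ := Fs_nat A s t x
    unfold ind
    split_ifs with hx
    · unfold sp at hx
      rw [mem_filter, hk] at hx
      rw [hk]
      have : k ≠ 0 := fun h => hx.2 (by rw [h]; simp)
      exact_mod_cast Nat.one_le_iff_ne_zero.2 this
    · rw [hk]; exact Nat.cast_nonneg _
  exact_mod_cast h

theorem F1_sq (A : Finset (ZMod p)) {m : ℕ} (s : ZMod p) (t : Fin m → ZMod p) :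
    ∑ x : ZMod p, (Fs A s t x - ind (sp A s t) x) ^ 2 ≤ Qs A s t := by
  unfold Qs
  refine sum_le_sum fun x _ => ?_
  obtain ⟨k, hk⟩ := Fs_nat A s t x
  unfold ind
  split_ifs with hx
  · unfold sp at hx
    rw [mem_filter, hk] at hx
    rw [hk]
    have h1 : k ≠ 0 := fun h => hx.2 (by rw [h]; simp)
    have h2 : (1 : ℝ) ≤ k := by exact_mod_cast Nat.one_le_iff_ne_zero.2 h1
    nlinarith
  · have hx' : Fs A s t x = 0 := by
      by_contra h
      apply hx
      unfold sp
      rw [mem_filter]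
      exact ⟨mem_univ _, h⟩
    rw [hx']
    norm_num

theorem Qs_nonneg (A : Finset (ZMod p)) {m : ℕ} (s : ZMod p) (t : Fin m → ZMod p) :
    0 ≤ Qs A s t := (sum_nonneg fun x _ => sq_nonneg _).trans (F1_sq A s t)

theorem F_sq (A : Finset (ZMod p)) {m : ℕ} (s : ZMod p) (t : Fin m → ZMod p) :
    ∑ x : ZMod p, Fs A s t x ^ 2 = Qs A s t + m * A.card := by
  rw [← Fs_sum A s t]
  unfold Qs
  rw [sum_sub_distrib]
  ring

end Pool.Agent.N793.PG
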