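import Mathlib

/-! # Weighted double character sums: the classical bilinear bound -/

set_option autoImplicit false

namespace Pool.Agent.N793.PG

open Finset

variable {p : ℕ} [Fact p.Prime] (χ : MulChar (ZMod p) ℂ)

/-- the weighted double sum of `χ (x + y)` -/
noncomputable def W (f g : ZMod p → ℝ) : ℂ :=
  ∑ x : ZMod p, ∑ y : ZMod p, (f x : ℂ) * (g y : ℂ) * χ (x + y)

theorem norm_unit {t : ZMod p} (ht : t ≠ 0) : ‖χ t‖ = 1 := by
  have h1 : χ t ^ (Fintype.card (ZMod p) - 1) = 1 := by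
    rw [← map_pow, ZMod.card]
    rw [ZMod.pow_card_sub_one_eq_one ht, map_one]
  have hp := (Fact.out : p.Prime).two_le
  rw [ZMod.card] at h1
  exact Complex.norm_eq_one_of_pow_eq_one h1 (by omega)

theorem norm_le_one (t : ZMod p) : ‖χ t‖ ≤ 1 := by
  by_cases ht : t = 0
  · rw [ht, MulChar.map_zero χ, norm_zero]; exact zero_le_one
  · exact (norm_unit χ ht).le

/-- correlations of a nontrivial character with its shifts -/
theorem corr (hχ : χ ≠ 1) {b c : ZMod p} (hbc : b ≠ c) :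
    ∑ x : ZMod p, χ (x + b) * (starRingEnd ℂ) (χ (x + c)) = -1 := by
  classical
  have hinv : ∀ y : ZMod p, (starRingEnd ℂ) (χ y) = χ⁻¹ y := by
    intro y
    by_cases hy : y = 0
    · rw [hy]
      have h0 : χ 0 = 0 := MulChar.map_zero χ
      have h0' : χ⁻¹ 0 = 0 := MulChar.map_zero χ⁻¹
      rw [h0, h0', map_zero]
    · rw [← Complex.inv_eq_conj (norm_unit χ hy), MulChar.inv_apply_eq_inv']
  have h1 : ∑ x : ZMod p, χ (x + b) * (starRingEnd ℂ) (χ (x + c)) =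
      ∑ y : ZMod p, χ (y + (b - c)) * χ⁻¹ y := by
    refine Fintype.sum_equiv (Equiv.addRight c) _ _ fun x => ?_
    simp only [Equiv.coe_addRight]
    rw [hinv]
    congr 2
    ring
  rw [h1]
  have hd : b - c ≠ 0 := sub_ne_zero.2 hbc
  have h2 : ∀ y : ZMod p, χ (y + (b - c)) * χ⁻¹ y =
      if y = 0 then 0 else χ (1 + (b - c) * y⁻¹) := by
    intro y
    split_ifs with hy
    · rw [hy]
      have h0' : χ⁻¹ 0 = 0 := MulChar.map_zero χ⁻¹
      rw [h0', mul_zero]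
    · rw [MulChar.inv_apply' χ y, ← map_mul]
      congr 1
      field_simp
  rw [sum_congr rfl fun y _ => h2 y]
  have h3 : ∑ y : ZMod p, (if y = 0 then (0 : ℂ) else χ (1 + (b - c) * y⁻¹)) =
      (∑ y : ZMod p, χ (1 + (b - c) * y⁻¹)) - χ 1 := by
    rw [← Finset.add_sum_erase univ (fun y : ZMod p => χ (1 + (b - c) * y⁻¹)) (mem_univ 0),
      ← Finset.add_sum_erase univ _ (mem_univ (0 : ZMod p))]
    rw [if_pos rfl, zero_add, inv_zero, mul_zero, add_zero, add_sub_cancel_left]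
    refine sum_congr rfl fun y hy => ?_
    rw [if_neg (ne_of_mem_erase hy)]
  rw [h3, map_one]
  have h4 : ∑ y : ZMod p, χ (1 + (b - c) * y⁻¹) = ∑ z : ZMod p, χ z := by
    let e : ZMod p ≃ ZMod p :=
      ((Equiv.inv (ZMod p)).trans (Equiv.mulLeft₀ (b - c) hd)).trans (Equiv.addLeft 1)
    refine Fintype.sum_equiv e _ _ fun y => ?_
    rfl
  rw [h4, MulChar.sum_eq_zero_of_ne_one hχ, zero_sub]

/-- the second moment with weights -/
theorem second (hχ : χ ≠ 1) (g : ZMod p → ℝ) :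
    ∑ x : ZMod p, ‖∑ y : ZMod p, (g y : ℂ) * χ (x + y)‖ ^ 2 ≤ p * ∑ y : ZMod p, g y ^ 2 := by
  classical
  -- the diagonal constant
  obtain ⟨D, hD⟩ : ∃ D : ℝ, ∀ y : ZMod p,
      (∑ x : ZMod p, χ (x + y) * (starRingEnd ℂ) (χ (x + y))) = (D : ℂ) ∧ D ≤ p - 1 := by
    refine ⟨∑ z : ZMod p, ‖χ z‖ ^ 2, fun y => ⟨?_, ?_⟩⟩
    · push_cast
      refine Fintype.sum_equiv (Equiv.addRight y) _ _ fun x => ?_
      simp only [Equiv.coe_addRight]
      rw [Complex.mul_conj']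
    · rw [← Finset.add_sum_erase univ _ (mem_univ (0 : ZMod p)), MulChar.map_zero χ, norm_zero]
      have : ∑ x ∈ (univ : Finset (ZMod p)).erase 0, ‖χ x‖ ^ 2 ≤
          ∑ _x ∈ (univ : Finset (ZMod p)).erase 0, (1 : ℝ) :=
        sum_le_sum fun x _ => pow_le_one₀ (norm_nonneg _) (norm_le_one χ x)
      rw [sum_const, card_erase_of_mem (mem_univ _), card_univ, ZMod.card, nsmul_eq_mul,
        mul_one] at this
      have hp := (Fact.out : p.Prime).one_le
      push_cast [Nat.cast_sub hp] at this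
      simpa using this
  have hexp : ((∑ x : ZMod p, ‖∑ y : ZMod p, (g y : ℂ) * χ (x + y)‖ ^ 2 : ℝ) : ℂ) =
      ∑ b : ZMod p, ∑ c : ZMod p, (g b : ℂ) * (g c : ℂ) *
        ∑ x : ZMod p, χ (x + b) * (starRingEnd ℂ) (χ (x + c)) := by
    push_cast
    have h1 : ∀ x : ZMod p, ((‖∑ y : ZMod p, (g y : ℂ) * χ (x + y)‖ : ℂ)) ^ 2 =
        ∑ b : ZMod p, ∑ c : ZMod p, (g b : ℂ) * (g c : ℂ) *
          (χ (x + b) * (starRingEnd ℂ) (χ (x + c))) := by
      intro x
      rw [← Complex.mul_conj', map_sum, sum_mul_sum]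
      refine sum_congr rfl fun b _ => sum_congr rfl fun c _ => ?_
      rw [map_mul, Complex.conj_ofReal]
      ring
    rw [sum_congr rfl fun x _ => h1 x, sum_comm]
    refine sum_congr rfl fun b _ => ?_
    rw [sum_comm]
    refine sum_congr rfl fun c _ => ?_
    rw [mul_sum]
  have hval : ∀ b c : ZMod p, ∑ x : ZMod p, χ (x + b) * (starRingEnd ℂ) (χ (x + c)) =
      ((if b = c then D + 1 else 0) - 1 : ℝ) := by
    intro b c
    split_ifs with h
    · rw [h, (hD c).1]; push_cast; ring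
    · rw [corr χ hχ h]; push_cast; ring
  have hre : (∑ x : ZMod p, ‖∑ y : ZMod p, (g y : ℂ) * χ (x + y)‖ ^ 2 : ℝ) =
      ∑ b : ZMod p, ∑ c : ZMod p, g b * g c * ((if b = c then D + 1 else 0) - 1) := by
    have h := hexp
    rw [sum_congr rfl fun b _ => sum_congr rfl fun c _ => by rw [hval b c]] at h
    exact_mod_cast h
  rw [hre]
  have h5 : ∑ b : ZMod p, ∑ c : ZMod p, g b * g c * ((if b = c then D + 1 else 0) - 1) =
      (D + 1) * (∑ b : ZMod p, g b ^ 2) - (∑ b : ZMod p, g b) ^ 2 := by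
    have h6 : ∀ b : ZMod p, ∑ c : ZMod p, g b * g c * ((if b = c then D + 1 else 0) - 1) =
        (D + 1) * g b ^ 2 - g b * ∑ c : ZMod p, g c := by
      intro b
      rw [mul_sum]
      rw [show (D + 1) * g b ^ 2 = ∑ c : ZMod p, if b = c then (D + 1) * g b ^ 2 else 0 by
        rw [sum_ite_eq univ b]; simp]
      rw [← sum_sub_distrib]
      refine sum_congr rfl fun c _ => ?_
      split_ifs with h
      · rw [← h]; ring
      · ring
    rw [sum_congr rfl fun b _ => h6 b, sum_sub_distrib, ← mul_sum, ← sum_mul]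
    ring
  rw [h5]
  have h7 := (hD 0).2
  have h8 : 0 ≤ ∑ b : ZMod p, g b ^ 2 := sum_nonneg fun b _ => sq_nonneg _
  nlinarith [sq_nonneg (∑ b : ZMod p, g b)]

/-- the classical bilinear bound -/
theorem W_bound (hχ : χ ≠ 1) (f g : ZMod p → ℝ) :
    ‖W χ f g‖ ^ 2 ≤ p * (∑ x : ZMod p, f x ^ 2) * (∑ y : ZMod p, g y ^ 2) := by
  have h1 : W χ f g = ∑ x : ZMod p, (f x : ℂ) * ∑ y : ZMod p, (g y : ℂ) * χ (x + y) := by
    unfold W
    refine sum_congr rfl fun x _ => ?_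
    rw [mul_sum]
    exact sum_congr rfl fun y _ => by ring
  have h2 : ‖W χ f g‖ ≤ ∑ x : ZMod p, |f x| * ‖∑ y : ZMod p, (g y : ℂ) * χ (x + y)‖ := by
    rw [h1]
    refine (norm_sum_le _ _).trans (le_of_eq ?_)
    refine sum_congr rfl fun x _ => ?_
    rw [norm_mul, Complex.norm_real, Real.norm_eq_abs]
  have h3 : ‖W χ f g‖ ^ 2 ≤
      (∑ x : ZMod p, |f x| * ‖∑ y : ZMod p, (g y : ℂ) * χ (x + y)‖) ^ 2 :=
    pow_le_pow_left₀ (norm_nonneg _) h2 2
  have h4 := sum_mul_sq_le_sq_mul_sq univ (fun x : ZMod p => |f x|)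
    (fun x : ZMod p => ‖∑ y : ZMod p, (g y : ℂ) * χ (x + y)‖)
  have h5 := second χ hχ g
  have h6 : ∑ x : ZMod p, |f x| ^ 2 = ∑ x : ZMod p, f x ^ 2 :=
    sum_congr rfl fun x _ => sq_abs _
  rw [h6] at h4
  have h7 : 0 ≤ ∑ x : ZMod p, f x ^ 2 := sum_nonneg fun x _ => sq_nonneg _
  calc ‖W χ f g‖ ^ 2 ≤ _ := h3
    _ ≤ _ := h4
    _ ≤ (∑ x : ZMod p, f x ^ 2) * (p * ∑ y : ZMod p, g y ^ 2) := mul_le_mul_of_nonneg_left h5 h7
    _ = _ := by ring

/-- the bound in the form used for error terms -/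
theorem W_bound' (hχ : χ ≠ 1) (f g : ZMod p → ℝ) (a b : ℝ)
    (hf : ∑ x : ZMod p, f x ^ 2 ≤ a) (hg : ∑ y : ZMod p, g y ^ 2 ≤ b) (c : ℝ) (hc : 0 ≤ c)
    (habc : p * a * b ≤ c ^ 2) : ‖W χ f g‖ ≤ c := by
  have h1 := W_bound χ hχ f g
  have h2 : 0 ≤ ∑ x : ZMod p, f x ^ 2 := sum_nonneg fun x _ => sq_nonneg _
  have h3 : 0 ≤ ∑ y : ZMod p, g y ^ 2 := sum_nonneg fun x _ => sq_nonneg _
  have h4 : (p : ℝ) * (∑ x : ZMod p, f x ^ 2) * (∑ y : ZMod p, g y ^ 2) ≤ p * a * b := by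
    have hp : (0 : ℝ) ≤ p := Nat.cast_nonneg _
    exact mul_le_mul (mul_le_mul_of_nonneg_left hf hp) hg h3
      (mul_nonneg hp (h2.trans hf))
  exact (le_abs_self _).trans (abs_le_of_sq_le_sq (by linarith) hc)

end Pool.Agent.N793.PG
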