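import Pool.Agent.N793.PG.Sets

/-! # Amplification for random families of sets -/

set_option autoImplicit false

namespace Pool.Agent.N793.PG

open Finset

variable {p : ℕ} [Fact p.Prime] (χ : MulChar (ZMod p) ℂ) {ι : Type*} [DecidableEq ι] (I : Finset ι)

/-- multiplicity function of a family of sets -/
noncomputable def mf (A : ι → Finset (ZMod p)) (x : ZMod p) : ℝ := ∑ i ∈ I, ind (A i) x

/-- the number of common elements -/
noncomputable def io (A B : Finset (ZMod p)) : ℝ := ∑ x : ZMod p, ind A x * ind B x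

/-- the excess -/
noncomputable def mq (A : ι → Finset (ZMod p)) : ℝ := ∑ x : ZMod p, (mf I A x ^ 2 - mf I A x)

theorem mf_sum (A : ι → Finset (ZMod p)) :
    ∑ x : ZMod p, mf I A x = ∑ i ∈ I, ((A i).card : ℝ) := by
  unfold mf
  rw [sum_comm]
  exact sum_congr rfl fun i _ => ind_sum _

theorem mq_eq (A : ι → Finset (ZMod p)) :
    mq I A = ∑ i ∈ I, ∑ j ∈ I.erase i, io (A i) (A j) := by
  have h1 : ∀ x : ZMod p, mf I A x ^ 2 - mf I A x =
      ∑ i ∈ I, ∑ j ∈ I.erase i, ind (A i) x * ind (A j) x := by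
    intro x
    unfold mf
    rw [sq, sum_mul_sum, ← sum_sub_distrib]
    refine sum_congr rfl fun i hi => ?_
    rw [← add_sum_erase I _ hi, ind_mul_self]
    ring
  unfold mq io
  rw [sum_congr rfl fun x _ => h1 x, sum_comm]
  refine sum_congr rfl fun i _ => ?_
  rw [sum_comm]

theorem mf_nat (A : ι → Finset (ZMod p)) (x : ZMod p) : ∃ k : ℕ, mf I A x = k := by
  classical
  refine ⟨(I.filter fun i => x ∈ A i).card, ?_⟩
  unfold mf ind
  rw [sum_boole]

/-- the union, as the support of the multiplicity function -/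
noncomputable def su (A : ι → Finset (ZMod p)) : Finset (ZMod p) := by
  classical exact I.biUnion A

theorem mem_su (A : ι → Finset (ZMod p)) (x : ZMod p) : x ∈ su I A ↔ mf I A x ≠ 0 := by
  classical
  unfold su mf
  rw [mem_biUnion]
  constructor
  · rintro ⟨i, hi, hx⟩
    have h1 : (1 : ℝ) ≤ ∑ i ∈ I, ind (A i) x := by
      have h2 : ind (A i) x = 1 := by unfold ind; rw [if_pos hx]
      rw [← h2]
      exact single_le_sum (f := fun i => ind (A i) x) (fun j _ => ind_nonneg _ _) hi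
    linarith
  · intro h
    by_contra hcon
    push Not at hcon
    apply h
    refine sum_eq_zero fun i hi => ?_
    unfold ind
    rw [if_neg (hcon i hi)]

theorem m1_sq (A : ι → Finset (ZMod p)) :
    ∑ x : ZMod p, (mf I A x - ind (su I A) x) ^ 2 ≤ mq I A := by
  classical
  unfold mq
  refine sum_le_sum fun x _ => ?_
  obtain ⟨k, hk⟩ := mf_nat I A x
  have hm := mem_su I A x
  unfold ind
  split_ifs with hx
  · have h0 := hm.1 hx
    rw [hk] at h0 ⊢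
    have h1 : k ≠ 0 := fun h => h0 (by rw [h]; simp)
    have h2 : (1 : ℝ) ≤ k := by exact_mod_cast Nat.one_le_iff_ne_zero.2 h1
    nlinarith
  · have hx' : mf I A x = 0 := by
      by_contra h
      exact hx (hm.2 h)
    rw [hx']
    norm_num

theorem mq_nonneg (A : ι → Finset (ZMod p)) : 0 ≤ mq I A :=
  (sum_nonneg fun x _ => sq_nonneg _).trans (m1_sq I A)

theorem m_sq (A : ι → Finset (ZMod p)) :
    ∑ x : ZMod p, mf I A x ^ 2 = mq I A + ∑ i ∈ I, ((A i).card : ℝ) := by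
  rw [← mf_sum]
  unfold mq
  rw [sum_sub_distrib]
  ring

theorem su_sq (A : ι → Finset (ZMod p)) :
    ∑ x : ZMod p, ind (su I A) x ^ 2 ≤ ∑ i ∈ I, ((A i).card : ℝ) := by
  classical
  have h1 : ∑ x : ZMod p, ind (su I A) x ^ 2 = (su I A).card := by
    rw [← ind_sum]
    refine sum_congr rfl fun x _ => ?_
    rw [sq, ind_mul_self]
  rw [h1]
  unfold su
  exact_mod_cast card_biUnion_le

theorem W_mf (A B : ι → Finset (ZMod p)) :
    W χ (mf I A) (mf I B) = ∑ i ∈ I, ∑ j ∈ I, dsum χ (A i) (B j) := by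
  have h1 : ∀ x y : ZMod p, ((mf I A x : ℝ) : ℂ) * ((mf I B y : ℝ) : ℂ) * χ (x + y) =
      ∑ i ∈ I, ∑ j ∈ I, (ind (A i) x : ℂ) * (ind (B j) y : ℂ) * χ (x + y) := by
    intro x y
    unfold mf
    push_cast
    rw [sum_mul_sum, sum_mul]
    refine sum_congr rfl fun i _ => ?_
    rw [sum_mul]
  unfold W
  rw [sum_congr rfl fun x _ => sum_congr rfl fun y _ => h1 x y]
  calc ∑ x : ZMod p, ∑ y : ZMod p, ∑ i ∈ I, ∑ j ∈ I,
        (ind (A i) x : ℂ) * (ind (B j) y : ℂ) * χ (x + y)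
      = ∑ x : ZMod p, ∑ i ∈ I, ∑ j ∈ I, ∑ y : ZMod p,
        (ind (A i) x : ℂ) * (ind (B j) y : ℂ) * χ (x + y) := by
        refine sum_congr rfl fun x _ => ?_
        rw [sum_comm]
        refine sum_congr rfl fun i _ => ?_
        rw [sum_comm]
    _ = ∑ i ∈ I, ∑ j ∈ I, ∑ x : ZMod p, ∑ y : ZMod p,
        (ind (A i) x : ℂ) * (ind (B j) y : ℂ) * χ (x + y) := by
        rw [sum_comm]
        refine sum_congr rfl fun i _ => ?_
        rw [sum_comm]
    _ = _ := by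
        refine sum_congr rfl fun i _ => sum_congr rfl fun j _ => ?_
        rw [← W_ind]
        rfl

/-- the unions carry the sum up to the excesses -/
theorem fam_error (hχ : χ ≠ 1) (A B : ι → Finset (ZMod p)) (K L : ℝ)
    (hK : ∑ i ∈ I, ((A i).card : ℝ) = K) (hL : ∑ i ∈ I, ((B i).card : ℝ) = L)
    (μ ν : ℝ) (hμ : 0 < μ) (hν : 0 < ν) (hμν : (p : ℝ) ≤ μ * ν) :
    ‖W χ (mf I A) (mf I B)‖ ≤ ‖dsum χ (su I A) (su I B)‖ +
      μ * mq I A + ν * mq I B + p * L / (2 * μ) + p * K / (2 * ν) := by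
  have e : W χ (mf I A) (mf I B) =
      dsum χ (su I A) (su I B) +
      W χ (ind (su I A)) (fun y => mf I B y - ind (su I B) y) +
      W χ (fun x => mf I A x - ind (su I A) x) (mf I B) := by
    rw [← W_ind, ← W_add_right]
    have h1 : (fun y => ind (su I B) y + (mf I B y - ind (su I B) y)) = mf I B := by
      funext y; ring
    rw [h1, ← W_add_left]
    have h2 : (fun x => ind (su I A) x + (mf I A x - ind (su I A) x)) = mf I A := by
      funext y; ring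
    rw [h2]
  have hp : (0 : ℝ) ≤ p := Nat.cast_nonneg _
  have hQA := mq_nonneg I A
  have hQB := mq_nonneg I B
  have hiA : ∑ x : ZMod p, ind (su I A) x ^ 2 ≤ K := by rw [← hK]; exact su_sq I A
  have hFB : ∑ y : ZMod p, mf I B y ^ 2 ≤ mq I B + L := by rw [m_sq, hL]
  have hK0 : 0 ≤ K := by rw [← hK]; exact sum_nonneg fun i _ => Nat.cast_nonneg _
  have hL0 : 0 ≤ L := by rw [← hL]; exact sum_nonneg fun i _ => Nat.cast_nonneg _
  have hm1A := m1_sq I A
  have hm1B := m1_sq I B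
  set a := mq I A with ha
  set b := mq I B with hb
  have h1 : ‖W χ (ind (su I A)) (fun y => mf I B y - ind (su I B) y)‖ ≤
      ν * b / 2 + p * K / (2 * ν) := by
    refine W_bound' χ hχ _ _ K b hiA hm1B _ (by positivity) ?_
    have h2 : (ν * b / 2) * (p * K / (2 * ν)) = p * K * b / 4 := by field_simp; ring
    nlinarith [sq_nonneg (ν * b / 2 - p * K / (2 * ν))]
  have h3 : ‖W χ (fun x => mf I A x - ind (su I A) x) (mf I B)‖ ≤
      (μ * a / 2 + p * L / (2 * μ)) + (μ * a + ν * b) / 2 := by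
    refine W_bound' χ hχ _ _ a (b + L) hm1A hFB _ (by positivity) ?_
    have h2 : (μ * a / 2) * (p * L / (2 * μ)) = p * L * a / 4 := by field_simp; ring
    have h4 : p * a * b ≤ ((μ * a + ν * b) / 2) ^ 2 := by
      have h5 : p * (a * b) ≤ (μ * ν) * (a * b) := mul_le_mul_of_nonneg_right hμν (by positivity)
      nlinarith [sq_nonneg (μ * a - ν * b)]
    have h6 : p * L * a ≤ (μ * a / 2 + p * L / (2 * μ)) ^ 2 := by
      nlinarith [sq_nonneg (μ * a / 2 - p * L / (2 * μ))]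
    have h7 : 0 ≤ μ * a / 2 + p * L / (2 * μ) := by positivity
    have h8 : 0 ≤ (μ * a + ν * b) / 2 := by positivity
    nlinarith [mul_nonneg h7 h8]
  rw [e]
  refine (norm_add₃_le).trans ?_
  linarith

omit [Fact p.Prime] in
theorem idA (r u v m : ℝ) (hr : r ≠ 0) (hu : u ≠ 0) (h : r ^ 2 = 2 * m) :
    v / (r * u ^ 2) * (m ^ 2 * (u ^ 2) ^ 2) = r * m * (u ^ 2 * v) / 2 := by
  have h6 : m = r ^ 2 / 2 := by rw [h]; ring
  rw [h6]
  field_simp

/-- **Abstract amplification**: the average over a finite probability space `Ω`. -/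
theorem amp_abs (hχ : χ ≠ 1) {σ : Type*} (Ω : Finset σ) (hΩ : Ω.Nonempty) (φ : σ → ℂ)
    (hφ : ∀ ω ∈ Ω, ‖φ ω‖ ≤ 1) (A B : σ → ι → Finset (ZMod p)) (m M N : ℕ) (hm : I.card = m)
    (hm1 : 1 ≤ m) (hM : 1 ≤ M) (hN : 1 ≤ N) (hA : ∀ ω ∈ Ω, ∀ i ∈ I, (A ω i).card = M)
    (hB : ∀ ω ∈ Ω, ∀ i ∈ I, (B ω i).card = N) (hpM : 2 * (m * M) ≤ p) (hpN : 2 * (m * N) ≤ p)
    (c : ℂ) (h1 : ∑ ω ∈ Ω, φ ω * ∑ i ∈ I, ∑ j ∈ I, dsum χ (A ω i) (B ω j) = (Ω.card : ℂ) * c)
    (h2A : (p : ℝ) * ∑ ω ∈ Ω, mq I (A ω) ≤ (Ω.card : ℝ) * ((m : ℝ) ^ 2 * (M : ℝ) ^ 2))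
    (h2B : (p : ℝ) * ∑ ω ∈ Ω, mq I (B ω) ≤ (Ω.card : ℝ) * ((m : ℝ) ^ 2 * (N : ℝ) ^ 2)) :
    ∃ ω ∈ Ω, ‖c‖ ≤ ‖dsum χ (su I (A ω)) (su I (B ω))‖ +
        Real.sqrt (2 * m) * (m * Real.sqrt M * Real.sqrt N) * (Real.sqrt M + Real.sqrt N) := by
  have hp0 : (0 : ℝ) < p := by exact_mod_cast (Fact.out : p.Prime).pos
  have hm0 : (0 : ℝ) < m := by exact_mod_cast hm1
  have hM0 : (0 : ℝ) < M := by exact_mod_cast hM
  have hN0 : (0 : ℝ) < N := by exact_mod_cast hN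
  have hΩ0 : (0 : ℝ) < Ω.card := by exact_mod_cast card_pos.2 hΩ
  set r : ℝ := Real.sqrt (2 * m) with hr
  set u : ℝ := Real.sqrt M with hu
  set v : ℝ := Real.sqrt N with hv
  have hr2 : r ^ 2 = 2 * m := Real.sq_sqrt (by positivity)
  have hu2 : u ^ 2 = M := Real.sq_sqrt (by positivity)
  have hv2 : v ^ 2 = N := Real.sq_sqrt (by positivity)
  have hr0 : 0 < r := Real.sqrt_pos.2 (by positivity)
  have hu0 : 0 < u := Real.sqrt_pos.2 hM0
  have hv0 : 0 < v := Real.sqrt_pos.2 hN0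
  have hp'M : 2 * ((m : ℝ) * M) ≤ p := by exact_mod_cast hpM
  have hp'N : 2 * ((m : ℝ) * N) ≤ p := by exact_mod_cast hpN
  set μ : ℝ := p * v / (r * u ^ 2) with hμ
  set ν : ℝ := p * u / (r * v ^ 2) with hν
  have hμ0 : 0 < μ := by positivity
  have hν0 : 0 < ν := by positivity
  have hμν : (p : ℝ) ≤ μ * ν := by
    have h1 : μ * ν = p ^ 2 / (r ^ 2 * (u * v)) := by
      rw [hμ, hν]; field_simp
    rw [h1, le_div_iff₀ (by positivity), hr2]
    have h2 : 2 * m * (u * v) ≤ (p : ℝ) := by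
      have h3 : 2 * (u * v) ≤ u ^ 2 + v ^ 2 := by nlinarith [sq_nonneg (u - v)]
      rw [hu2, hv2] at h3
      nlinarith
    nlinarith
  obtain ⟨w, hw1, hw2⟩ := exists_unimodular c
  -- the average of the main term
  have e1 : ∑ ω ∈ Ω, (w * (φ ω * W χ (mf I (A ω)) (mf I (B ω)))).re = (Ω.card : ℝ) * ‖c‖ := by
    rw [← Complex.re_sum, ← mul_sum]
    rw [sum_congr rfl fun ω _ => by rw [W_mf χ I (A ω) (B ω)], h1]
    rw [show w * ((Ω.card : ℂ) * c) = (((Ω.card : ℝ) * ‖c‖ : ℝ) : ℂ) by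
        push_cast; rw [← hw2]; ring]
    rw [Complex.ofReal_re]
  rw [← hu2] at h2A
  rw [← hv2] at h2B
  have e2 : μ * ∑ ω ∈ Ω, mq I (A ω) ≤ (Ω.card : ℝ) * (r * m * (u ^ 2 * v) / 2) := by
    have h5 : μ * ∑ ω ∈ Ω, mq I (A ω) = (v / (r * u ^ 2)) * ((p : ℝ) * ∑ ω ∈ Ω, mq I (A ω)) := by
      rw [hμ]; ring
    rw [h5]
    refine (mul_le_mul_of_nonneg_left h2A (by positivity)).trans (le_of_eq ?_)
    rw [mul_left_comm, idA r u v m hr0.ne' hu0.ne' hr2]
  have e3 : ν * ∑ ω ∈ Ω, mq I (B ω) ≤ (Ω.card : ℝ) * (r * m * (u * v ^ 2) / 2) := by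
    have h5 : ν * ∑ ω ∈ Ω, mq I (B ω) = (u / (r * v ^ 2)) * ((p : ℝ) * ∑ ω ∈ Ω, mq I (B ω)) := by
      rw [hν]; ring
    rw [h5]
    refine (mul_le_mul_of_nonneg_left h2B (by positivity)).trans (le_of_eq ?_)
    rw [mul_left_comm, idA r v u m hr0.ne' hv0.ne' hr2, mul_comm u (v ^ 2)]
  obtain ⟨ω, hω, ht⟩ : ∃ ω ∈ Ω, ‖c‖ - (r * m * (u ^ 2 * v) / 2 + r * m * (u * v ^ 2) / 2) ≤
      (w * (φ ω * W χ (mf I (A ω)) (mf I (B ω)))).re -
        (μ * mq I (A ω) + ν * mq I (B ω)) := by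
    by_contra hcon
    push Not at hcon
    have h7 := sum_lt_sum_of_nonempty hΩ hcon
    rw [sum_sub_distrib, e1, sum_add_distrib, ← mul_sum, ← mul_sum, sum_const,
      nsmul_eq_mul] at h7
    nlinarith
  refine ⟨ω, hω, ?_⟩
  have h6 := fam_error χ I hχ (A ω) (B ω) (m * M) (m * N)
    (by rw [sum_congr rfl fun i hi => by rw [hA ω hω i hi], sum_const, hm, nsmul_eq_mul])
    (by rw [sum_congr rfl fun i hi => by rw [hB ω hω i hi], sum_const, hm, nsmul_eq_mul])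
    μ ν hμ0 hν0 hμν
  have h7 : (w * (φ ω * W χ (mf I (A ω)) (mf I (B ω)))).re ≤ ‖W χ (mf I (A ω)) (mf I (B ω))‖ := by
    refine (Complex.re_le_norm _).trans ?_
    rw [norm_mul, hw1, one_mul, norm_mul]
    exact mul_le_of_le_one_left (norm_nonneg _) (hφ ω hω)
  rw [← hu2, ← hv2] at h6
  have h8 : p * (m * v ^ 2) / (2 * μ) = r * m * (u ^ 2 * v) / 2 := by
    rw [hμ]; field_simp
  have h9 : p * (m * u ^ 2) / (2 * ν) = r * m * (u * v ^ 2) / 2 := by
    rw [hν]; field_simp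
  rw [h8, h9] at h6
  have h10 : r * (m * u * v) * (u + v) =
      r * m * (u ^ 2 * v) / 2 + r * m * (u * v ^ 2) / 2 +
      (r * m * (u ^ 2 * v) / 2 + r * m * (u * v ^ 2) / 2) := by ring
  rw [h10]
  linarith

end Pool.Agent.N793.PG
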