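import Mathlib

/-! # Quadratic sums of a kernel over one set: subsets and supersets -/

set_option autoImplicit false

namespace Pool.Agent.N793.PG

open Finset

variable {α : Type*} [DecidableEq α] (k : α → α → ℝ)

/-- the quadratic sum -/
def qk (A : Finset α) : ℝ := ∑ x ∈ A, ∑ y ∈ A, k x y

theorem qk_insert (hk : ∀ x, k x x = 0) {A : Finset α} {a : α} (ha : a ∉ A) :
    qk k (insert a A) = qk k A + ∑ y ∈ A, k a y + ∑ x ∈ A, k x a := by
  unfold qk
  rw [sum_insert ha, sum_insert ha, hk]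
  have h : ∑ x ∈ A, ∑ y ∈ insert a A, k x y = ∑ x ∈ A, k x a + ∑ x ∈ A, ∑ y ∈ A, k x y := by
    rw [← sum_add_distrib]
    exact sum_congr rfl fun x _ => sum_insert ha
  rw [h]
  ring

theorem qk_erase (hk : ∀ x, k x x = 0) {A : Finset α} {a : α} (ha : a ∈ A) :
    qk k (A.erase a) = qk k A - ∑ y ∈ A, k a y - ∑ x ∈ A, k x a := by
  have h := qk_insert k hk (A := A.erase a) (notMem_erase a A)
  rw [insert_erase ha] at h
  have h1 : ∑ y ∈ A, k a y = ∑ y ∈ A.erase a, k a y := by
    rw [← add_sum_erase A _ ha, hk, zero_add]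
  have h2 : ∑ x ∈ A, k x a = ∑ x ∈ A.erase a, k x a := by
    rw [← add_sum_erase A (fun x => k x a) ha, hk, zero_add]
  rw [h1, h2]
  linarith

/-- removing one element -/
theorem exists_erase (hk : ∀ x, k x x = 0) {A : Finset α} (hA : A.Nonempty) :
    ∃ a ∈ A, ((A.card : ℝ) - 2) * qk k A ≤ A.card * qk k (A.erase a) := by
  have h1 : ∑ a ∈ A, qk k (A.erase a) = ((A.card : ℝ) - 2) * qk k A := by
    rw [sum_congr rfl fun a ha => qk_erase k hk ha, sum_sub_distrib, sum_sub_distrib, sum_const,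
      nsmul_eq_mul]
    have h2 : ∑ a ∈ A, ∑ y ∈ A, k a y = qk k A := rfl
    have h3 : ∑ a ∈ A, ∑ x ∈ A, k x a = qk k A := by rw [sum_comm]; rfl
    rw [h2, h3]
    ring
  by_contra hcon
  push Not at hcon
  have hc : (0 : ℝ) < A.card := by exact_mod_cast card_pos.2 hA
  have h4 : ∑ a ∈ A, (A.card * qk k (A.erase a)) < ∑ _a ∈ A, ((A.card : ℝ) - 2) * qk k A :=
    sum_lt_sum_of_nonempty hA fun a ha => hcon a ha
  rw [← mul_sum, h1, sum_const, nsmul_eq_mul] at h4
  exact lt_irrefl _ h4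

/-- adding one element -/
theorem exists_insert [Fintype α] (hk : ∀ x, k x x = 0) (h1 : ∀ y, ∑ x, k x y = 0)
    (h2 : ∀ x, ∑ y, k x y = 0) {A : Finset α} (hA : A.card < Fintype.card α) :
    ∃ a, a ∉ A ∧ ((Fintype.card α : ℝ) - A.card - 2) * qk k A ≤
      ((Fintype.card α : ℝ) - A.card) * qk k (insert a A) := by
  have hcard : ((univ \ A : Finset α).card : ℝ) = (Fintype.card α : ℝ) - A.card := by
    rw [card_sdiff_of_subset (subset_univ _), card_univ, Nat.cast_sub hA.le]
  have hne : (univ \ A : Finset α).Nonempty := by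
    rw [← card_pos, card_sdiff_of_subset (subset_univ _), card_univ]
    omega
  have h3 : ∑ a ∈ univ \ A, qk k (insert a A) = ((Fintype.card α : ℝ) - A.card - 2) * qk k A := by
    rw [sum_congr rfl fun a ha => qk_insert k hk (mem_sdiff.1 ha).2, sum_add_distrib,
      sum_add_distrib, sum_const, nsmul_eq_mul, hcard]
    have h4 : ∑ a ∈ univ \ A, ∑ y ∈ A, k a y = - qk k A := by
      rw [sum_comm]
      have h5 : ∀ y : α, ∑ x ∈ univ \ A, k x y = - ∑ x ∈ A, k x y := by
        intro y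
        have h6 := sum_sdiff (f := fun x => k x y) (subset_univ A)
        rw [h1 y] at h6
        linarith
      rw [sum_congr rfl fun y _ => h5 y, sum_neg_distrib, sum_comm]
      rfl
    have h4' : ∑ a ∈ univ \ A, ∑ x ∈ A, k x a = - qk k A := by
      rw [sum_comm]
      have h5 : ∀ x : α, ∑ y ∈ univ \ A, k x y = - ∑ y ∈ A, k x y := by
        intro x
        have h6 := sum_sdiff (f := fun y => k x y) (subset_univ A)
        rw [h2 x] at h6
        linarith
      rw [sum_congr rfl fun x _ => h5 x, sum_neg_distrib]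
      rfl
    rw [h4, h4']
    ring
  by_contra hcon
  push Not at hcon
  have h7 : ∑ a ∈ univ \ A, (((Fintype.card α : ℝ) - A.card) * qk k (insert a A)) <
      ∑ _a ∈ univ \ A, ((Fintype.card α : ℝ) - A.card - 2) * qk k A :=
    sum_lt_sum_of_nonempty hne fun a ha => hcon a (mem_sdiff.1 ha).2
  rw [← mul_sum, h3, sum_const, nsmul_eq_mul, hcard] at h7
  exact lt_irrefl _ h7

/-- subsets of given size -/
theorem exists_sub (hk : ∀ x, k x x = 0) (M : ℕ) (hM : 2 ≤ M) :
    ∀ (n : ℕ) (A : Finset α), A.card = n → M ≤ n →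
      ∃ A₁ ⊆ A, A₁.card = M ∧ ((M : ℝ) * (M - 1)) * qk k A ≤ ((n : ℝ) * (n - 1)) * qk k A₁ := by
  intro n
  induction n with
  | zero => intro A hA h; omega
  | succ n ih =>
    intro A hA h
    rcases Nat.lt_or_ge n M with h1 | h1
    · have : M = n + 1 := by omega
      exact ⟨A, Subset.refl _, by omega, by rw [this]⟩
    have hne : A.Nonempty := by rw [← card_pos]; omega
    obtain ⟨a, ha, h2⟩ := exists_erase k hk hne
    obtain ⟨A₁, h3, h4, h5⟩ := ih (A.erase a) (by rw [card_erase_of_mem ha]; omega) h1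
    refine ⟨A₁, h3.trans (erase_subset _ _), h4, ?_⟩
    rw [hA] at h2
    push_cast at h2 ⊢
    have hn : (2 : ℝ) ≤ n := by exact_mod_cast hM.trans h1
    have hMr : (2 : ℝ) ≤ M := by exact_mod_cast hM
    have hMM : (0 : ℝ) ≤ (M : ℝ) * (M - 1) := mul_nonneg (by linarith) (by linarith)
    have h6 : ((n : ℝ) - 1) * (((M : ℝ) * (M - 1)) * qk k A) ≤
        ((n : ℝ) - 1) * (((n : ℝ) + 1) * ((n : ℝ) + 1 - 1) * qk k A₁) := by
      have h7 := mul_le_mul_of_nonneg_left h2 hMM
      have h8 := mul_le_mul_of_nonneg_left h5 (show (0 : ℝ) ≤ (n : ℝ) + 1 by linarith)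
      nlinarith
    exact le_of_mul_le_mul_left h6 (by linarith)

/-- supersets of given size -/
theorem exists_sup [Fintype α] (hk : ∀ x, k x x = 0) (h1 : ∀ y, ∑ x, k x y = 0)
    (h2 : ∀ x, ∑ y, k x y = 0) (A : Finset α) (hq : 0 ≤ qk k A) :
    ∀ (j : ℕ), 8 * (A.card + j) ≤ Fintype.card α →
      ∃ A₁ : Finset α, A ⊆ A₁ ∧ A₁.card = A.card + j ∧
        (1 - 4 * (j : ℝ) / Fintype.card α) * qk k A ≤ qk k A₁ := by
  intro j
  induction j with
  | zero => intro _; exact ⟨A, Subset.refl _, rfl, by simp⟩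
  | succ j ih =>
    intro hj
    obtain ⟨A₁, h3, h4, h5⟩ := ih (by omega)
    obtain ⟨a, ha, h6⟩ := exists_insert k hk h1 h2 (A := A₁) (by omega)
    refine ⟨insert a A₁, h3.trans (subset_insert _ _), ?_, ?_⟩
    · rw [card_insert_of_notMem ha, h4]; omega
    set P : ℝ := (Fintype.card α : ℝ) with hP
    have hjr : 8 * ((A.card : ℝ) + ((j : ℝ) + 1)) ≤ P := by
      have : ((8 * (A.card + (j + 1)) : ℕ) : ℝ) ≤ (Fintype.card α : ℝ) := by exact_mod_cast hj
      push_cast at this
      exact this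
    have hA0 : (0 : ℝ) ≤ A.card := Nat.cast_nonneg _
    have hj0 : (0 : ℝ) ≤ j := Nat.cast_nonneg _
    have hP0 : 0 < P := by linarith
    have hn : ((A₁.card : ℕ) : ℝ) = A.card + j := by rw [h4]; push_cast; ring
    rw [hn] at h6
    have hc : 0 ≤ 1 - 4 * (j : ℝ) / P := by
      have : 4 * (j : ℝ) / P ≤ 1 := by rw [div_le_one hP0]; linarith
      linarith
    have hq1 : 0 ≤ qk k A₁ := le_trans (mul_nonneg hc hq) h5
    have h7 : (1 - 4 / P) * qk k A₁ ≤ qk k (insert a A₁) := by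
      have hpos : 0 < P - (A.card + j) := by linarith
      have h8 : (P - (A.card + j)) * ((1 - 4 / P) * qk k A₁) ≤
          (P - (A.card + j)) * qk k (insert a A₁) := by
        refine le_trans ?_ h6
        rw [← mul_assoc]
        refine mul_le_mul_of_nonneg_right ?_ hq1
        have h9 : 2 ≤ (P - (A.card + j)) * (4 / P) := by
          rw [mul_div_assoc', le_div_iff₀ hP0]
          linarith
        linarith
      exact le_of_mul_le_mul_left h8 hpos
    have h10 : (1 - 4 * ((j + 1 : ℕ) : ℝ) / P) ≤ (1 - 4 / P) * (1 - 4 * (j : ℝ) / P) := by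
      have h11 : 0 ≤ (4 / P) * (4 * (j : ℝ) / P) := by positivity
      have h12 : 4 * ((j + 1 : ℕ) : ℝ) / P = 4 * (j : ℝ) / P + 4 / P := by push_cast; ring
      rw [h12]
      nlinarith
    have h13 : 0 ≤ 1 - 4 / P := by
      have : 4 / P ≤ 1 := by rw [div_le_one hP0]; linarith
      linarith
    calc (1 - 4 * ((j + 1 : ℕ) : ℝ) / P) * qk k A ≤
          ((1 - 4 / P) * (1 - 4 * (j : ℝ) / P)) * qk k A := mul_le_mul_of_nonneg_right h10 hq
      _ = (1 - 4 / P) * ((1 - 4 * (j : ℝ) / P) * qk k A) := by ring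
      _ ≤ (1 - 4 / P) * qk k A₁ := mul_le_mul_of_nonneg_left h5 h13
      _ ≤ _ := h7

end Pool.Agent.N793.PG
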