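import Pool.Agent.N793.PG.Kernel
import Pool.Agent.N793.PG.Asym

/-! # Sums over difference sets and two-set sums for even characters -/

set_option autoImplicit false

namespace Pool.Agent.N793.PG

open Finset

variable {p : ℕ} [Fact p.Prime] (χ : MulChar (ZMod p) ℂ)

/-- the sum of `χ (a - b)` over `A × C` -/
noncomputable def bs (A C : Finset (ZMod p)) : ℂ := ∑ a ∈ A, ∑ b ∈ C, χ (a - b)

/-- the weighted difference form -/
noncomputable def V (f g : ZMod p → ℝ) : ℂ :=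
  ∑ x : ZMod p, ∑ y : ZMod p, (f x : ℂ) * (g y : ℂ) * χ (x - y)

/-- the reflected set -/
noncomputable def refl (B : Finset (ZMod p)) : Finset (ZMod p) := by
  classical exact B.image (fun b => -b)

theorem refl_card (B : Finset (ZMod p)) : (refl B).card = B.card := by
  classical
  unfold refl
  exact card_image_of_injective _ neg_injective

theorem dsum_eq_bs (A B : Finset (ZMod p)) : dsum χ A B = bs χ A (refl B) := by
  classical
  unfold dsum bs refl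
  refine sum_congr rfl fun a _ => ?_
  rw [sum_image (fun x _ y _ h => neg_injective h)]
  exact sum_congr rfl fun b _ => by rw [sub_neg_eq_add]

theorem bs_eq_dsum (A : Finset (ZMod p)) : bs χ A A = dsum χ A (refl A) := by
  classical
  unfold dsum bs refl
  refine sum_congr rfl fun a _ => ?_
  rw [sum_image (fun x _ y _ h => neg_injective h)]
  exact sum_congr rfl fun b _ => by rw [sub_eq_add_neg]

theorem V_ind (A C : Finset (ZMod p)) : V χ (ind A) (ind C) = bs χ A C := by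
  classical
  unfold V bs ind
  rw [← sum_filter_add_sum_filter_not univ (fun x => x ∈ A)]
  rw [show ∑ x ∈ univ.filter (fun x => ¬ x ∈ A), ∑ y : ZMod p,
      (((if x ∈ A then (1 : ℝ) else 0 : ℝ) : ℂ)) * (((if y ∈ C then (1 : ℝ) else 0 : ℝ) : ℂ)) *
        χ (x - y) = 0 by
    refine sum_eq_zero fun x hx => sum_eq_zero fun y _ => ?_
    rw [if_neg (mem_filter.1 hx).2]; simp]
  rw [add_zero, filter_mem_eq_inter, univ_inter]
  refine sum_congr rfl fun x hx => ?_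
  rw [← sum_filter_add_sum_filter_not univ (fun x => x ∈ C)]
  rw [show ∑ y ∈ univ.filter (fun y => ¬ y ∈ C),
      (((if x ∈ A then (1 : ℝ) else 0 : ℝ) : ℂ)) * (((if y ∈ C then (1 : ℝ) else 0 : ℝ) : ℂ)) *
        χ (x - y) = 0 by
    refine sum_eq_zero fun y hy => ?_
    rw [if_neg (mem_filter.1 hy).2]; simp]
  rw [add_zero, filter_mem_eq_inter, univ_inter]
  refine sum_congr rfl fun y hy => ?_
  rw [if_pos hx, if_pos hy]
  simp

/-- odd characters: the one-set sums vanish -/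
theorem bs_odd (hodd : χ (-1) = -1) (A : Finset (ZMod p)) : bs χ A A = 0 := by
  have h : bs χ A A = - bs χ A A := by
    conv_lhs => unfold bs; rw [sum_comm]
    unfold bs
    rw [← sum_neg_distrib]
    refine sum_congr rfl fun a _ => ?_
    rw [← sum_neg_distrib]
    refine sum_congr rfl fun b _ => ?_
    rw [show b - a = -1 * (a - b) by ring, map_mul, hodd]
    ring
  have h2 : (2 : ℂ) * bs χ A A = 0 := by linear_combination h
  exact (mul_eq_zero.1 h2).resolve_left two_ne_zero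

theorem even_or_odd : χ (-1) = 1 ∨ χ (-1) = -1 := by
  have h : χ (-1) ^ 2 = 1 := by rw [← map_pow, neg_one_sq, map_one]
  exact sq_eq_one_iff.1 h

/-- **Polarisation** with overlaps. -/
theorem polar (heven : χ (-1) = 1) (A C : Finset (ZMod p)) [DecidableEq (ZMod p)] :
    2 * bs χ A C = 2 * bs χ (A ∪ C) (A ∪ C) + 2 * bs χ (A ∩ C) (A ∩ C) -
      bs χ ((A ∪ C) \ (A ∩ C)) ((A ∪ C) \ (A ∩ C)) - bs χ A A - bs χ C C := by
  have hsymm : V χ (ind C) (ind A) = V χ (ind A) (ind C) := by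
    unfold V
    rw [sum_comm]
    refine sum_congr rfl fun x _ => sum_congr rfl fun y _ => ?_
    rw [show y - x = -1 * (x - y) by ring, map_mul, heven]
    ring
  have hi : ∀ x, ind (A ∪ C) x = ind A x + ind C x - ind (A ∩ C) x := by
    intro x
    unfold ind
    by_cases h1 : x ∈ A <;> by_cases h2 : x ∈ C <;> simp [h1, h2]
  have hd : ∀ x, ind ((A ∪ C) \ (A ∩ C)) x = ind A x + ind C x - 2 * ind (A ∩ C) x := by
    intro x
    unfold ind
    by_cases h1 : x ∈ A <;> by_cases h2 : x ∈ C <;> simp [h1, h2] <;> norm_num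
  rw [← V_ind, ← V_ind, ← V_ind, ← V_ind, ← V_ind, ← V_ind]
  have e : ∀ f g : ZMod p → ℝ, V χ f g =
      ∑ z : ZMod p × ZMod p, (f z.1 : ℂ) * (g z.2 : ℂ) * χ (z.1 - z.2) := by
    intro f g
    unfold V
    rw [← univ_product_univ, sum_product]
  have key : 2 * V χ (ind (A ∪ C)) (ind (A ∪ C)) + 2 * V χ (ind (A ∩ C)) (ind (A ∩ C)) -
      V χ (ind ((A ∪ C) \ (A ∩ C))) (ind ((A ∪ C) \ (A ∩ C))) - V χ (ind A) (ind A) -
      V χ (ind C) (ind C) = V χ (ind A) (ind C) + V χ (ind C) (ind A) := by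
    rw [e, e, e, e, e, e, e, mul_sum, mul_sum, ← sum_add_distrib, ← sum_sub_distrib,
      ← sum_sub_distrib, ← sum_sub_distrib, ← sum_add_distrib]
    refine sum_congr rfl fun z _ => ?_
    rw [hi, hi, hd, hd]
    push_cast
    ring
  rw [key, hsymm]
  ring

/-- subsets: one-set sums over larger sets are controlled by one size -/
theorem bs_large (A : Finset (ZMod p)) (M : ℕ) (hM : 2 ≤ M) (hA : M ≤ A.card) :
    ∃ A₁ ⊆ A, A₁.card = M ∧ ((M : ℝ) * (M - 1)) * ‖bs χ A A‖ ≤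
      ((A.card : ℝ) * (A.card - 1)) * ‖bs χ A₁ A₁‖ := by
  classical
  obtain ⟨w, hw1, hw2⟩ := exists_unimodular (bs χ A A)
  set k : ZMod p → ZMod p → ℝ := fun x y => (w * χ (x - y)).re with hk
  have hk0 : ∀ x, k x x = 0 := by
    intro x
    rw [hk]
    simp only [sub_self]
    rw [MulChar.map_zero χ, mul_zero, Complex.zero_re]
  have hq : ∀ X : Finset (ZMod p), qk k X = (w * bs χ X X).re := by
    intro X
    unfold qk bs
    rw [mul_sum, Complex.re_sum]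
    refine sum_congr rfl fun x _ => ?_
    rw [mul_sum, Complex.re_sum]
  obtain ⟨A₁, h1, h2, h3⟩ := exists_sub k hk0 M hM A.card A rfl hA
  refine ⟨A₁, h1, h2, ?_⟩
  rw [hq, hq, hw2, Complex.ofReal_re] at h3
  refine h3.trans (mul_le_mul_of_nonneg_left ?_ ?_)
  · refine (Complex.re_le_norm _).trans ?_
    rw [norm_mul, hw1, one_mul]
  · have : (2 : ℝ) ≤ A.card := by exact_mod_cast hM.trans hA
    exact mul_nonneg (by linarith) (by linarith)

/-- supersets: one-set sums over smaller sets are controlled by one size -/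
theorem bs_small (hχ : χ ≠ 1) (A : Finset (ZMod p)) (L : ℕ) (hA : A.card ≤ L) (hL : 8 * L ≤ p) :
    ∃ A₁ : Finset (ZMod p), A ⊆ A₁ ∧ A₁.card = L ∧ ‖bs χ A A‖ ≤ 2 * ‖bs χ A₁ A₁‖ := by
  classical
  obtain ⟨w, hw1, hw2⟩ := exists_unimodular (bs χ A A)
  set k : ZMod p → ZMod p → ℝ := fun x y => (w * χ (x - y)).re with hk
  have hk0 : ∀ x, k x x = 0 := by
    intro x
    rw [hk]
    simp only [sub_self]
    rw [MulChar.map_zero χ, mul_zero, Complex.zero_re]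
  have hs1 : ∀ y, ∑ x, k x y = 0 := by
    intro y
    have h : ∑ x : ZMod p, χ (x - y) = ∑ z : ZMod p, χ z :=
      Fintype.sum_equiv (Equiv.subRight y) _ _ fun u => rfl
    rw [hk]
    simp only
    rw [← Complex.re_sum, ← mul_sum, h, MulChar.sum_eq_zero_of_ne_one hχ, mul_zero,
      Complex.zero_re]
  have hs2 : ∀ x, ∑ y, k x y = 0 := by
    intro x
    have h : ∑ y : ZMod p, χ (x - y) = ∑ z : ZMod p, χ z :=
      Fintype.sum_equiv (Equiv.subLeft x) _ _ fun u => rfl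
    rw [hk]
    simp only
    rw [← Complex.re_sum, ← mul_sum, h, MulChar.sum_eq_zero_of_ne_one hχ, mul_zero,
      Complex.zero_re]
  have hq : ∀ X : Finset (ZMod p), qk k X = (w * bs χ X X).re := by
    intro X
    unfold qk bs
    rw [mul_sum, Complex.re_sum]
    refine sum_congr rfl fun x _ => ?_
    rw [mul_sum, Complex.re_sum]
  have hqA : qk k A = ‖bs χ A A‖ := by rw [hq, hw2, Complex.ofReal_re]
  obtain ⟨A₁, h1, h2, h3⟩ := exists_sup k hk0 hs1 hs2 A (by rw [hqA]; exact norm_nonneg _)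
    (L - A.card) (by rw [ZMod.card]; omega)
  refine ⟨A₁, h1, by omega, ?_⟩
  rw [hqA, hq, ZMod.card] at h3
  have h4 : (w * bs χ A₁ A₁).re ≤ ‖bs χ A₁ A₁‖ := by
    refine (Complex.re_le_norm _).trans ?_
    rw [norm_mul, hw1, one_mul]
  have hp0 : (0 : ℝ) < p := by exact_mod_cast (Fact.out : p.Prime).pos
  have h5 : 4 * ((L - A.card : ℕ) : ℝ) / p ≤ 1 / 2 := by
    rw [div_le_iff₀ hp0]
    have h6 : ((L - A.card : ℕ) : ℝ) ≤ L := by exact_mod_cast Nat.sub_le _ _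
    have h7 : 8 * (L : ℝ) ≤ p := by exact_mod_cast hL
    linarith
  have h8 : (1 / 2 : ℝ) * ‖bs χ A A‖ ≤ (1 - 4 * ((L - A.card : ℕ) : ℝ) / p) * ‖bs χ A A‖ :=
    mul_le_mul_of_nonneg_right (by linarith) (norm_nonneg _)
  linarith

/-- **Two sets from one set**, at a single size. -/
theorem two_of_one (hχ : χ ≠ 1) (heven : χ (-1) = 1) (L : ℕ) (hL2 : 2 ≤ L) (hL : 8 * L ≤ p)
    (κ : ℝ) (H : ∀ X : Finset (ZMod p), X.card = L → ‖∑ a ∈ X, ∑ b ∈ X, χ (a - b)‖ ≤ κ)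
    (A B : Finset (ZMod p)) (hA : A.card ≤ L) (hB : B.card ≤ L) :
    ‖∑ a ∈ A, ∑ b ∈ B, χ (a + b)‖ ≤ 13 * κ := by
  classical
  change ∀ X : Finset (ZMod p), X.card = L → ‖bs χ X X‖ ≤ κ at H
  change ‖dsum χ A B‖ ≤ _
  -- sets of size at most L
  have hsmall : ∀ X : Finset (ZMod p), X.card ≤ L → ‖bs χ X X‖ ≤ 2 * κ := by
    intro X hX
    obtain ⟨X₁, -, h1, h2⟩ := bs_small χ hχ X L hX hL
    have := H X₁ h1
    linarith
  have hκ : 0 ≤ κ := by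
    have := hsmall ∅ (by simp)
    have := norm_nonneg (bs χ ∅ ∅)
    linarith
  have hmed : ∀ X : Finset (ZMod p), X.card ≤ 2 * L → ‖bs χ X X‖ ≤ 6 * κ := by
    intro X hX
    rcases le_total X.card L with h | h
    · have := hsmall X h
      linarith
    · obtain ⟨X₁, -, h1, h2⟩ := bs_large χ X L hL2 h
      have h3 := H X₁ h1
      have hn : (X.card : ℝ) ≤ 2 * L := by exact_mod_cast hX
      have hn' : (L : ℝ) ≤ X.card := by exact_mod_cast h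
      have hL' : (2 : ℝ) ≤ L := by exact_mod_cast hL2
      have hnn : (X.card : ℝ) * (X.card - 1) ≤ 6 * ((L : ℝ) * (L - 1)) := by nlinarith
      have hpos : (0 : ℝ) < (L : ℝ) * (L - 1) := mul_pos (by linarith) (by linarith)
      have h4 : ((L : ℝ) * (L - 1)) * ‖bs χ X X‖ ≤ ((L : ℝ) * (L - 1)) * (6 * κ) := by
        refine h2.trans ?_
        have h5 : ((X.card : ℝ) * (X.card - 1)) * ‖bs χ X₁ X₁‖ ≤
            (6 * ((L : ℝ) * (L - 1))) * κ :=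
          mul_le_mul hnn h3 (norm_nonneg _) (by positivity)
        linarith
      exact le_of_mul_le_mul_left h4 hpos
  rw [dsum_eq_bs]
  set C := refl B with hC
  have hCc : C.card ≤ L := by rw [hC, refl_card]; exact hB
  have hpol := polar χ heven A C
  have hU : (A ∪ C).card ≤ 2 * L := (card_union_le _ _).trans (by omega)
  have hI : (A ∩ C).card ≤ L := (card_le_card inter_subset_left).trans hA
  have hD : ((A ∪ C) \ (A ∩ C)).card ≤ 2 * L := (card_le_card sdiff_subset).trans hU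
  have h1 := hmed _ hU
  have h2 := hsmall _ hI
  have h3 := hmed _ hD
  have h4 := hsmall _ hA
  have h5 := hsmall _ hCc
  have h6 : ‖2 * bs χ A C‖ ≤ 2 * ‖bs χ (A ∪ C) (A ∪ C)‖ + 2 * ‖bs χ (A ∩ C) (A ∩ C)‖ +
      ‖bs χ ((A ∪ C) \ (A ∩ C)) ((A ∪ C) \ (A ∩ C))‖ + ‖bs χ A A‖ + ‖bs χ C C‖ := by
    rw [hpol]
    refine (norm_sub_le _ _).trans (add_le_add ?_ le_rfl)
    refine (norm_sub_le _ _).trans (add_le_add ?_ le_rfl)
    refine (norm_sub_le _ _).trans (add_le_add ?_ le_rfl)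
    refine (norm_add_le _ _).trans (add_le_add ?_ ?_)
    · rw [norm_mul]; simp
    · rw [norm_mul]; simp
  rw [norm_mul] at h6
  have h7 : ‖(2 : ℂ)‖ = 2 := by simp
  rw [h7] at h6
  linarith

/-- The bound `p ^ (-δ) |A|²` for the one-set sums, sets of EXACTLY `⌈p ^ β⌉` elements. -/
def OneSet (β δ : ℝ) : Prop :=
  ∃ p₀ : ℕ, ∀ p : ℕ, p.Prime → p₀ < p → ∀ A : Finset (ZMod p), A.card = ⌈(p : ℝ) ^ β⌉₊ →
    ∀ χ : DirichletCharacter ℂ p, χ ≠ 1 →
      ‖∑ a ∈ A, ∑ b ∈ A, χ (a - b)‖ ≤ (p : ℝ) ^ (-δ) * (A.card : ℝ) ^ 2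

/-- The bound `p ^ (-δ) |A|²` for the one-set sums, all sets with MORE than `p ^ α` elements. -/
def SavesSet (α δ : ℝ) : Prop :=
  ∃ p₀ : ℕ, ∀ p : ℕ, p.Prime → p₀ < p → ∀ A : Finset (ZMod p), (p : ℝ) ^ α < (A.card : ℝ) →
    ∀ χ : DirichletCharacter ℂ p, χ ≠ 1 →
      ‖∑ a ∈ A, ∑ b ∈ A, χ (a - b)‖ ≤ (p : ℝ) ^ (-δ) * (A.card : ℝ) ^ 2

/-- The bound `√p |A|` improved by `p ^ (-δ)`, sets of EXACTLY `⌈p ^ β⌉` elements. -/
def BeatsOneSet (β δ : ℝ) : Prop :=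
  ∃ p₀ : ℕ, ∀ p : ℕ, p.Prime → p₀ < p → ∀ A : Finset (ZMod p), A.card = ⌈(p : ℝ) ^ β⌉₊ →
    ∀ χ : DirichletCharacter ℂ p, χ ≠ 1 →
      ‖∑ a ∈ A, ∑ b ∈ A, χ (a - b)‖ ≤ (p : ℝ) ^ (-δ) * (Real.sqrt p * (A.card : ℝ))

/-- the family of even characters -/
def EvenF (p : ℕ) (χ : MulChar (ZMod p) ℂ) : Prop := χ (-1) = 1

theorem OneSize.oneSet {β δ : ℝ} (h : OneSize EvenF β β δ) : OneSet β δ := by
  obtain ⟨p₀, h⟩ := h
  refine ⟨p₀, fun p hp hlt A hA χ hχ => ?_⟩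
  have : Fact p.Prime := ⟨hp⟩
  rcases even_or_odd χ with he | ho
  · have h1 := h p hp hlt A (refl A) hA (by rw [refl_card, hA]) χ hχ he
    change ‖dsum χ A (refl A)‖ ≤ _ at h1
    rw [← bs_eq_dsum, refl_card] at h1
    change ‖bs χ A A‖ ≤ _
    rw [sq, ← mul_assoc]
    exact h1
  · change ‖bs χ A A‖ ≤ _
    rw [bs_odd χ ho, norm_zero]
    positivity

theorem Saves.savesSet {α δ : ℝ} (h : Saves EvenF α α δ) : SavesSet α δ := by
  obtain ⟨p₀, h⟩ := h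
  refine ⟨p₀, fun p hp hlt A hA χ hχ => ?_⟩
  have : Fact p.Prime := ⟨hp⟩
  rcases even_or_odd χ with he | ho
  · have h1 := h p hp hlt A (refl A) hA (by rw [refl_card]; exact hA) χ hχ he
    change ‖dsum χ A (refl A)‖ ≤ _ at h1
    rw [← bs_eq_dsum, refl_card] at h1
    change ‖bs χ A A‖ ≤ _
    rw [sq, ← mul_assoc]
    exact h1
  · change ‖bs χ A A‖ ≤ _
    rw [bs_odd χ ho, norm_zero]
    positivity

theorem SavesSet.oneSet {α β δ : ℝ} (h : SavesSet α δ) (hα : α < β) : OneSet β δ := by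
  obtain ⟨p₀, h⟩ := h
  refine ⟨p₀, fun p hp hlt A hA χ hχ => ?_⟩
  have hp1 : (1 : ℝ) < p := by exact_mod_cast hp.one_lt
  have h1 : (p : ℝ) ^ α < (p : ℝ) ^ β := Real.rpow_lt_rpow_of_exponent_lt hp1 hα
  have h2 : (p : ℝ) ^ β ≤ (⌈(p : ℝ) ^ β⌉₊ : ℝ) := Nat.le_ceil _
  exact h p hp hlt A (by rw [hA]; exact h1.trans_le h2) χ hχ

/-- the two exponents agree, for even characters -/
theorem OneSet.oneSize {β δ δ' : ℝ} (h : OneSet β δ) (hβ0 : 0 < β) (hβ : β < 1) (hδ : δ' < δ) :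
    OneSize EvenF β β δ' := by
  obtain ⟨p₀, h⟩ := h
  obtain ⟨p₁, hp₁⟩ := large 16 (1 - β) (by linarith)
  obtain ⟨p₂, hp₂⟩ := large 2 β hβ0
  obtain ⟨p₃, hp₃⟩ := large 13 (δ - δ') (by linarith)
  refine ⟨p₀ + p₁ + p₂ + p₃, fun p hp hlt A B hA hB χ hχ heven => ?_⟩
  have : Fact p.Prime := ⟨hp⟩
  have e1 := hp₁ p (by omega)
  have e2 := hp₂ p (by omega)
  have e3 := hp₃ p (by omega)
  have hp1 : (1 : ℝ) ≤ p := by exact_mod_cast hp.one_le
  have hp0 : (0 : ℝ) < p := by linarith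
  have hc := ceil_le_two_mul (x := (p : ℝ) ^ β) (by linarith)
  have hle : (p : ℝ) ^ β ≤ ((⌈(p : ℝ) ^ β⌉₊ : ℕ) : ℝ) := Nat.le_ceil _
  have hL2 : 2 ≤ ⌈(p : ℝ) ^ β⌉₊ := by
    have : (2 : ℝ) ≤ ((⌈(p : ℝ) ^ β⌉₊ : ℕ) : ℝ) := e2.trans hle
    exact_mod_cast this
  have hL8 : 8 * ⌈(p : ℝ) ^ β⌉₊ ≤ p := by
    have h2 : (p : ℝ) ^ β * (p : ℝ) ^ (1 - β) = p := by
      rw [← Real.rpow_add hp0, add_sub_cancel, Real.rpow_one]
    have h3 : 8 * ((⌈(p : ℝ) ^ β⌉₊ : ℕ) : ℝ) ≤ p := by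
      have h4 : (p : ℝ) ^ β * 16 ≤ (p : ℝ) ^ β * (p : ℝ) ^ (1 - β) :=
        mul_le_mul_of_nonneg_left e1 (by linarith)
      linarith
    exact_mod_cast h3
  have h4 := two_of_one χ hχ heven ⌈(p : ℝ) ^ β⌉₊ hL2 hL8
    ((p : ℝ) ^ (-δ) * ((⌈(p : ℝ) ^ β⌉₊ : ℕ) : ℝ) ^ 2)
    (fun X hX => by
      have := h p hp (by omega) X hX χ hχ
      rwa [hX] at this) A B hA.le hB.le
  refine h4.trans ?_
  rw [hA, hB]
  have h5 : (p : ℝ) ^ (-δ') = (p : ℝ) ^ (δ - δ') * (p : ℝ) ^ (-δ) := by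
    rw [← Real.rpow_add hp0]; congr 1; ring
  have h6 : 0 < (p : ℝ) ^ (-δ) := Real.rpow_pos_of_pos hp0 _
  rw [h5]
  generalize ((⌈(p : ℝ) ^ β⌉₊ : ℕ) : ℝ) = L
  have h7 : 13 * ((p : ℝ) ^ (-δ) * L ^ 2) ≤ (p : ℝ) ^ (δ - δ') * ((p : ℝ) ^ (-δ) * L ^ 2) :=
    mul_le_mul_of_nonneg_right e3 (by positivity)
  calc _ ≤ _ := h7
    _ = _ := by ring

/-- **One size controls the smaller sizes**, one-set sums. -/
theorem OneSet.descend {β δ h δ' : ℝ} (H : OneSet β δ) (hh : 0 ≤ h) (hhβ : h < β) (hβ : β < 1)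
    (hδ1 : δ' < δ - h) (hδ2 : δ' < β / 2 - h) : SavesSet (β - h) δ' := by
  have H1 := H.oneSize (δ' := (δ + (δ' + h)) / 2) (by linarith) hβ (by linarith)
  exact (H1.descend hh hhβ hhβ hβ hβ (by linarith) hδ2 hδ2).savesSet

/-- saving below `p ^ γ` for one-set sums -/
theorem set_below_iff {γ : ℝ} (hγ0 : 0 < γ) (hγ : γ ≤ 1 / 2) :
    (∃ c δ : ℝ, 0 < c ∧ 0 < δ ∧ SavesSet (γ - c) δ) ↔
      ∃ β δ : ℝ, γ < β ∧ β < 2 * γ ∧ β - γ < δ ∧ OneSet β δ := by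
  constructor
  · rintro ⟨c, δ, hc, hδ, h⟩
    set η := min δ γ with hη
    have hη0 : 0 < η := lt_min hδ hγ0
    have hη1 : η ≤ δ := min_le_left _ _
    have hη2 : η ≤ γ := min_le_right _ _
    exact ⟨γ + η / 2, δ, by linarith, by linarith, by linarith, h.oneSet (by linarith)⟩
  · rintro ⟨β, δ, h1, h2, h3, H⟩
    have H1 := H.oneSize (δ' := (δ + (β - γ)) / 2) (by linarith) (by linarith) (by linarith)
    obtain ⟨c, δ₁, hc, hδ₁, H2⟩ := (saves_below_iff (F := EvenF) hγ0 hγ).2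
      ⟨β, (δ + (β - γ)) / 2, h1, h2, by linarith, H1⟩
    exact ⟨c, δ₁, hc, hδ₁, H2.savesSet⟩

/-- saving below `p ^ γ`: one-set sums and two-set sums of even characters -/
theorem set_iff_even {γ : ℝ} (hγ0 : 0 < γ) (hγ : γ ≤ 1 / 2) :
    (∃ c δ : ℝ, 0 < c ∧ 0 < δ ∧ SavesSet (γ - c) δ) ↔
      ∃ c δ : ℝ, 0 < c ∧ 0 < δ ∧ Saves EvenF (γ - c) (γ - c) δ := by
  constructor
  · intro h
    obtain ⟨β, δ, h1, h2, h3, H⟩ := (set_below_iff hγ0 hγ).1 h
    have H1 := H.oneSize (δ' := (δ + (β - γ)) / 2) (by linarith) (by linarith) (by linarith)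
    exact (saves_below_iff (F := EvenF) hγ0 hγ).2
      ⟨β, (δ + (β - γ)) / 2, h1, h2, by linarith, H1⟩
  · rintro ⟨c, δ, hc, hδ, h⟩
    exact ⟨c, δ, hc, hδ, h.savesSet⟩

/-- the square-root barrier for one-set sums -/
theorem set_barrier :
    (∃ c δ : ℝ, 0 < c ∧ 0 < δ ∧ SavesSet (1 / 2 - c) δ) ↔
      ∃ β δ : ℝ, 1 / 2 < β ∧ β < 1 ∧ 0 < δ ∧ BeatsOneSet β δ := by
  rw [set_below_iff (by norm_num) le_rfl]
  constructor
  · rintro ⟨β, δ, h1, h2, h3, p₀, H⟩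
    obtain ⟨p₁, hp₁⟩ := large 2 ((δ - (β - 1 / 2)) / 2) (by linarith)
    refine ⟨β, (δ - (β - 1 / 2)) / 2, h1, by linarith, by linarith, p₀ + p₁,
      fun p hp hlt A hA χ hχ => (H p hp (by omega) A hA χ hχ).trans ?_⟩
    have e1 := hp₁ p (by omega)
    have hp1 : (1 : ℝ) ≤ p := by exact_mod_cast hp.one_le
    have hp0 : (0 : ℝ) < p := by linarith
    have hc := ceil_le_two_mul (Real.one_le_rpow hp1 (show 0 ≤ β by linarith))
    rw [hA, Real.sqrt_eq_rpow]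
    have hL0 : (0 : ℝ) ≤ ((⌈(p : ℝ) ^ β⌉₊ : ℕ) : ℝ) := Nat.cast_nonneg _
    generalize ((⌈(p : ℝ) ^ β⌉₊ : ℕ) : ℝ) = L at *
    have h5 : (p : ℝ) ^ (-((δ - (β - 1 / 2)) / 2)) * (p : ℝ) ^ (1 / 2 : ℝ) =
        (p : ℝ) ^ (-δ) * ((p : ℝ) ^ ((δ - (β - 1 / 2)) / 2) * (p : ℝ) ^ β) := by
      rw [← Real.rpow_add hp0, ← Real.rpow_add hp0, ← Real.rpow_add hp0]
      congr 1; ring
    rw [← mul_assoc, h5, sq, ← mul_assoc]
    refine mul_le_mul_of_nonneg_right ?_ hL0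
    refine mul_le_mul_of_nonneg_left ?_ (Real.rpow_pos_of_pos hp0 _).le
    exact hc.trans (mul_le_mul_of_nonneg_right e1 (Real.rpow_pos_of_pos hp0 _).le)
  · rintro ⟨β, δ, h1, h2, h3, p₀, H⟩
    refine ⟨β, β - 1 / 2 + δ, h1, by linarith, by linarith, p₀,
      fun p hp hlt A hA χ hχ => (H p hp hlt A hA χ hχ).trans ?_⟩
    have hp0 : (0 : ℝ) < p := by exact_mod_cast hp.pos
    rw [hA, Real.sqrt_eq_rpow]
    have hle : (p : ℝ) ^ β ≤ ((⌈(p : ℝ) ^ β⌉₊ : ℕ) : ℝ) := Nat.le_ceil _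
    have hL0 : (0 : ℝ) ≤ ((⌈(p : ℝ) ^ β⌉₊ : ℕ) : ℝ) := Nat.cast_nonneg _
    generalize ((⌈(p : ℝ) ^ β⌉₊ : ℕ) : ℝ) = L at *
    have h5 : (p : ℝ) ^ (-δ) * (p : ℝ) ^ (1 / 2 : ℝ) =
        (p : ℝ) ^ (-(β - 1 / 2 + δ)) * (p : ℝ) ^ β := by
      rw [← Real.rpow_add hp0, ← Real.rpow_add hp0]
      congr 1; ring
    rw [← mul_assoc, h5, sq, ← mul_assoc]
    refine mul_le_mul_of_nonneg_right ?_ hL0
    exact mul_le_mul_of_nonneg_left hle (Real.rpow_pos_of_pos hp0 _).le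

/-- the question of the page, literally -/
def Q1Set : Prop :=
  ∀ δ : ℝ, 0 < δ → ∃ τ : ℝ, 0 < τ ∧ ∃ P : ℕ, ∀ p : ℕ, p.Prime → P ≤ p →
    ∀ A : Finset (ZMod p), (p : ℝ) ^ δ < (A.card : ℝ) →
      ∀ χ : DirichletCharacter ℂ p, χ ≠ 1 →
        ‖∑ a ∈ A, ∑ b ∈ A, χ (a - b)‖ < (A.card : ℝ) ^ (2 - τ)

theorem Q1Set.saves (h : Q1Set) {γ : ℝ} (hγ : 0 < γ) :
    ∃ c δ : ℝ, 0 < c ∧ 0 < δ ∧ SavesSet (γ - c) δ := by
  obtain ⟨τ, hτ, P, H⟩ := h (γ - γ / 2) (by linarith)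
  refine ⟨γ / 2, (γ - γ / 2) * τ, by linarith, mul_pos (by linarith) hτ, P,
    fun p hp hlt A hA χ hχ => (H p hp hlt.le A hA χ hχ).le.trans ?_⟩
  have hp0 : (0 : ℝ) < p := by exact_mod_cast hp.pos
  have hx : (0 : ℝ) < (p : ℝ) ^ (γ - γ / 2) := Real.rpow_pos_of_pos hp0 _
  have hA0 : (0 : ℝ) < A.card := hx.trans hA
  have h1 : (A.card : ℝ) ^ (2 - τ) = (A.card : ℝ) ^ (-τ) * (A.card : ℝ) ^ 2 := by
    rw [← Real.rpow_natCast (A.card : ℝ) 2, ← Real.rpow_add hA0]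
    congr 1; push_cast; ring
  rw [h1]
  refine mul_le_mul_of_nonneg_right ?_ (by positivity)
  have h2 : (p : ℝ) ^ (-((γ - γ / 2) * τ)) = ((p : ℝ) ^ (γ - γ / 2)) ^ (-τ) := by
    rw [← Real.rpow_mul hp0.le]; congr 1; ring
  rw [h2]
  exact Real.rpow_le_rpow_of_nonpos hx hA.le (by linarith)

/-- the question in terms of savings at all small exponents -/
theorem q1_of_saves (h : ∀ γ : ℝ, 0 < γ → γ ≤ 1 / 2 →
    ∃ c δ : ℝ, 0 < c ∧ 0 < δ ∧ SavesSet (γ - c) δ) : Q1Set := by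
  intro ε hε
  have hm0 : 0 < min ε (1 / 2) := lt_min hε (by norm_num)
  have hle := min_le_left ε (1 / 2)
  obtain ⟨c, δ, hc, hδ, p₀, H⟩ := h (min ε (1 / 2)) hm0 (min_le_right _ _)
  refine ⟨δ / 2, by linarith, p₀ + 2, fun p hp hlt A hA χ hχ => ?_⟩
  have hp1 : (1 : ℝ) < p := by exact_mod_cast hp.one_lt
  have hp0 : (0 : ℝ) < p := by linarith
  have : Fact p.Prime := ⟨hp⟩
  have h1 : (p : ℝ) ^ (min ε (1 / 2) - c) < (A.card : ℝ) :=
    (Real.rpow_le_rpow_of_exponent_le hp1.le (by linarith)).trans_lt hA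
  refine (H p hp (by omega) A h1 χ hχ).trans_lt ?_
  have hA0 : (0 : ℝ) < A.card := (Real.rpow_pos_of_pos hp0 ε).trans hA
  have hAp : (A.card : ℝ) ≤ p := by
    have : A.card ≤ p := by
      have := card_le_univ A
      rwa [ZMod.card] at this
    exact_mod_cast this
  have h2 : (A.card : ℝ) ^ (2 - δ / 2) = (A.card : ℝ) ^ (-(δ / 2)) * (A.card : ℝ) ^ 2 := by
    rw [← Real.rpow_natCast (A.card : ℝ) 2, ← Real.rpow_add hA0]
    congr 1; push_cast; ring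
  rw [h2]
  refine mul_lt_mul_of_pos_right ?_ (by positivity)
  calc (p : ℝ) ^ (-δ) < (p : ℝ) ^ (-(δ / 2)) :=
        Real.rpow_lt_rpow_of_exponent_lt hp1 (by linarith)
    _ ≤ (A.card : ℝ) ^ (-(δ / 2)) := Real.rpow_le_rpow_of_nonpos hA0 hAp (by linarith)

/-- **The question at single sizes.** -/
theorem q1_iff : Q1Set ↔ ∀ γ : ℝ, 0 < γ → γ ≤ 1 / 2 →
    ∃ β δ : ℝ, γ < β ∧ β < 2 * γ ∧ β - γ < δ ∧ OneSet β δ := by
  constructor
  · intro h γ h0 h1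
    exact (set_below_iff h0 h1).1 (h.saves h0)
  · intro h
    exact q1_of_saves fun γ h0 h1 => (set_below_iff h0 h1).2 (h γ h0 h1)

/-- **The question and the two-set conjecture for even characters.** -/
theorem q1_iff_even : Q1Set ↔ ∀ ε : ℝ, 0 < ε → ∃ δ : ℝ, 0 < δ ∧ Saves EvenF ε ε δ := by
  constructor
  · intro h ε hε
    have hm0 : 0 < min ε (1 / 2) := lt_min hε (by norm_num)
    have hle := min_le_left ε (1 / 2)
    obtain ⟨c, δ, hc, hδ, H⟩ := (set_iff_even hm0 (min_le_right _ _)).1 (h.saves hm0)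
    exact ⟨δ, hδ, H.mono (by linarith) (by linarith) le_rfl⟩
  · intro h
    refine q1_of_saves fun γ h0 h1 => ?_
    obtain ⟨δ, hδ, H⟩ := h (γ - γ / 2) (by linarith)
    exact ⟨γ / 2, δ, by linarith, hδ, H.savesSet⟩

end Pool.Agent.N793.PG
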