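import Pool.Agent.N793.PG.Amplify

/-! # Subsampling, padding and the finite amplification theorem -/

set_option autoImplicit false

namespace Pool.Agent.N793.PG

open Finset

/-- a subset of given size with at least average weight -/
theorem exists_subset_avg {α : Type*} [DecidableEq α] (w : α → ℝ) (M : ℕ) :
    ∀ (n : ℕ) (A : Finset α), A.card = n → M ≤ n →
      ∃ A₁ ⊆ A, A₁.card = M ∧ (M : ℝ) * ∑ a ∈ A, w a ≤ (n : ℝ) * ∑ a ∈ A₁, w a := by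
  intro n
  induction n with
  | zero =>
    intro A hA hM
    have hM0 : M = 0 := by omega
    refine ⟨A, Subset.refl _, by omega, ?_⟩
    rw [hM0]
  | succ n ih =>
    intro A hA hM
    rcases Nat.lt_or_ge n M with h | h
    · have : M = n + 1 := by omega
      exact ⟨A, Subset.refl _, by omega, by rw [this]⟩
    have hne : A.Nonempty := by
      rw [← card_pos]; omega
    obtain ⟨a₀, ha₀, hmin⟩ := exists_min_image A w hne
    obtain ⟨A₁, h1, h2, h3⟩ := ih (A.erase a₀) (by rw [card_erase_of_mem ha₀]; omega) h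
    refine ⟨A₁, h1.trans (erase_subset _ _), h2, ?_⟩
    have h4 : (A.card : ℝ) * w a₀ ≤ ∑ a ∈ A, w a := by
      rw [← nsmul_eq_mul, ← sum_const]
      exact sum_le_sum fun a ha => hmin a ha
    have h5 : ∑ a ∈ A, w a = w a₀ + ∑ a ∈ A.erase a₀, w a := (add_sum_erase A w ha₀).symm
    rw [hA] at h4
    push_cast at h4 ⊢
    rcases Nat.eq_zero_or_pos n with hn | hn
    · have hM0 : M = 0 := by omega
      have hA1 : A₁ = ∅ := by rw [← card_eq_zero]; omega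
      rw [hM0, hA1]; simp
    have hn' : (0 : ℝ) < n := by exact_mod_cast hn
    have hMn : (0 : ℝ) ≤ M := Nat.cast_nonneg _
    -- (n+1) * Σ_erase ≥ n * Σ_A
    have h6 : (n : ℝ) * ∑ a ∈ A, w a ≤ (n + 1) * ∑ a ∈ A.erase a₀, w a := by
      nlinarith
    have h7 : (n : ℝ) * ((M : ℝ) * ∑ a ∈ A, w a) ≤ (n : ℝ) * ((n + 1) * ∑ a ∈ A₁, w a) := by
      have h8 := mul_le_mul_of_nonneg_left h6 hMn
      have h9 : ((n : ℝ) + 1) * ((M : ℝ) * ∑ a ∈ A.erase a₀, w a) ≤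
          ((n : ℝ) + 1) * ((n : ℝ) * ∑ a ∈ A₁, w a) :=
        mul_le_mul_of_nonneg_left h3 (by positivity)
      nlinarith
    exact le_of_mul_le_mul_left h7 hn'

variable {p : ℕ} [Fact p.Prime] (χ : MulChar (ZMod p) ℂ)

theorem dsum_comm (A B : Finset (ZMod p)) : dsum χ A B = dsum χ B A := by
  unfold dsum
  rw [sum_comm]
  exact sum_congr rfl fun b _ => sum_congr rfl fun a _ => by rw [add_comm]

theorem re_dsum (w : ℂ) (A B : Finset (ZMod p)) :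
    (w * dsum χ A B).re = ∑ a ∈ A, (w * ∑ b ∈ B, χ (a + b)).re := by
  unfold dsum
  rw [mul_sum, Complex.re_sum]

theorem sub_one (A B : Finset (ZMod p)) (M : ℕ) (hM : M ≤ A.card) :
    ∃ A₁ ⊆ A, A₁.card = M ∧ (M : ℝ) * ‖dsum χ A B‖ ≤ (A.card : ℝ) * ‖dsum χ A₁ B‖ := by
  classical
  obtain ⟨w, hw1, hw2⟩ := exists_unimodular (dsum χ A B)
  obtain ⟨A₁, h1, h2, h3⟩ := exists_subset_avg (fun a => (w * ∑ b ∈ B, χ (a + b)).re) M
    A.card A rfl hM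
  refine ⟨A₁, h1, h2, ?_⟩
  rw [← re_dsum, ← re_dsum, hw2, Complex.ofReal_re] at h3
  refine h3.trans (mul_le_mul_of_nonneg_left ?_ (Nat.cast_nonneg _))
  refine (Complex.re_le_norm _).trans ?_
  rw [norm_mul, hw1, one_mul]

theorem sum_univ_dsum (hχ : χ ≠ 1) (B : Finset (ZMod p)) :
    ∑ a : ZMod p, ∑ b ∈ B, χ (a + b) = 0 := by
  rw [sum_comm]
  refine sum_eq_zero fun b _ => ?_
  have h : ∑ a : ZMod p, χ (a + b) = ∑ z : ZMod p, χ z :=
    Fintype.sum_equiv (Equiv.addRight b) _ _ fun u => rfl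
  rw [h, MulChar.sum_eq_zero_of_ne_one hχ]

theorem pad_one (hχ : χ ≠ 1) (A B : Finset (ZMod p)) (L : ℕ) (hL : A.card ≤ L)
    (hp : 2 * L ≤ p) :
    ∃ A₁ : Finset (ZMod p), A ⊆ A₁ ∧ A₁.card = L ∧ ‖dsum χ A B‖ ≤ 2 * ‖dsum χ A₁ B‖ := by
  classical
  obtain ⟨w, hw1, hw2⟩ := exists_unimodular (dsum χ A B)
  have hcard : (univ \ A : Finset (ZMod p)).card = p - A.card := by
    rw [card_sdiff_of_subset (subset_univ _), card_univ, ZMod.card]
  have hp1 := (Fact.out : p.Prime).pos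
  obtain ⟨D, h1, h2, h3⟩ := exists_subset_avg (fun a => (w * ∑ b ∈ B, χ (a + b)).re) (L - A.card)
    (p - A.card) (univ \ A) hcard (by omega)
  have hdisj : Disjoint A D := by
    rw [disjoint_left]
    intro a ha hD
    exact (mem_sdiff.1 (h1 hD)).2 ha
  refine ⟨A ∪ D, subset_union_left, ?_, ?_⟩
  · rw [card_union_of_disjoint hdisj, h2]; omega
  have h4 : ∑ a ∈ univ \ A, (w * ∑ b ∈ B, χ (a + b)).re = - ‖dsum χ A B‖ := by
    have h5 : ∑ a ∈ univ \ A, (w * ∑ b ∈ B, χ (a + b)).re +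
        ∑ a ∈ A, (w * ∑ b ∈ B, χ (a + b)).re = ∑ a : ZMod p, (w * ∑ b ∈ B, χ (a + b)).re :=
      sum_sdiff (subset_univ A)
    rw [← Complex.re_sum univ, ← mul_sum, sum_univ_dsum χ hχ, mul_zero, Complex.zero_re,
      ← re_dsum χ w A B, hw2, Complex.ofReal_re] at h5
    linarith
  rw [h4] at h3
  have h6 : (w * dsum χ (A ∪ D) B).re = ‖dsum χ A B‖ +
      ∑ a ∈ D, (w * ∑ b ∈ B, χ (a + b)).re := by
    rw [re_dsum, sum_union hdisj, ← re_dsum, hw2, Complex.ofReal_re]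
  have h7 : (w * dsum χ (A ∪ D) B).re ≤ ‖dsum χ (A ∪ D) B‖ := by
    refine (Complex.re_le_norm _).trans ?_
    rw [norm_mul, hw1, one_mul]
  -- (L - |A|) K ≤ (p - |A|) (-s), so -s ≤ K (L-|A|)/(p-|A|) ≤ K/2
  set K := ‖dsum χ A B‖ with hK
  have hK0 : 0 ≤ K := norm_nonneg _
  set s := ∑ a ∈ D, (w * ∑ b ∈ B, χ (a + b)).re with hs
  have h8 : ((p - A.card : ℕ) : ℝ) = (p : ℝ) - A.card := by
    rw [Nat.cast_sub (by omega)]
  have h9 : ((L - A.card : ℕ) : ℝ) = (L : ℝ) - A.card := by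
    rw [Nat.cast_sub hL]
  rw [h8, h9] at h3
  have hpL : 2 * (L : ℝ) ≤ p := by exact_mod_cast hp
  have hAL : (A.card : ℝ) ≤ L := by exact_mod_cast hL
  have hA0 : (0 : ℝ) ≤ A.card := Nat.cast_nonneg _
  have hpos : (0 : ℝ) < (p : ℝ) - A.card := by
    have : A.card < p := by omega
    have : (A.card : ℝ) < p := by exact_mod_cast this
    linarith
  have h10 : - s ≤ K / 2 := by
    have h11 : ((p : ℝ) - A.card) * (-s) ≤ ((p : ℝ) - A.card) * (K / 2) := by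
      nlinarith
    exact le_of_mul_le_mul_left h11 hpos
  linarith

/-- **Finite amplification theorem.** -/
theorem finite (hχ : χ ≠ 1) (A B : Finset (ZMod p)) (m M N K L : ℕ) (hm : 1 ≤ m) (hM : 1 ≤ M)
    (hN : 1 ≤ N) (hA : M ≤ A.card) (hB : N ≤ B.card) (hK : m * M ≤ K) (hL : m * N ≤ L)
    (hpK : 2 * K ≤ p) (hpL : 2 * L ≤ p) :
    ∃ A' B' : Finset (ZMod p), A'.card = K ∧ B'.card = L ∧
      ((m : ℝ) * M * N) * ‖dsum χ A B‖ ≤
        (A.card : ℝ) * B.card * (4 * ‖dsum χ A' B'‖ +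
          Real.sqrt (2 * m) * (m * Real.sqrt M * Real.sqrt N) * (Real.sqrt M + Real.sqrt N)) := by
  obtain ⟨A₁, -, hA1, h1⟩ := sub_one χ A B M hA
  obtain ⟨B₁, -, hB1, h2⟩ := sub_one χ B A₁ N hB
  rw [dsum_comm χ B, dsum_comm χ B₁] at h2
  obtain ⟨A₂, B₂, hA2, hB2, h3⟩ := amplify χ hχ A₁ B₁ m M N hm hM hN hA1 hB1 (by omega)
    (by omega)
  obtain ⟨A₃, -, hA3, h4⟩ := pad_one χ hχ A₂ B₂ K (by omega) hpK
  obtain ⟨B₃, -, hB3, h5⟩ := pad_one χ hχ B₂ A₃ L (by omega) hpL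
  rw [dsum_comm χ B₂, dsum_comm χ B₃] at h5
  refine ⟨A₃, B₃, hA3, hB3, ?_⟩
  have hm0 : (0 : ℝ) < m := by exact_mod_cast hm
  have hM0 : (0 : ℝ) < M := by exact_mod_cast hM
  have hN0 : (0 : ℝ) < N := by exact_mod_cast hN
  have hA0 : (0 : ℝ) ≤ A.card := Nat.cast_nonneg _
  have hB0 : (0 : ℝ) ≤ B.card := Nat.cast_nonneg _
  set E := Real.sqrt (2 * m) * (m * Real.sqrt M * Real.sqrt N) * (Real.sqrt M + Real.sqrt N)
    with hE
  have h6 : ((M : ℝ) * N) * ‖dsum χ A B‖ ≤ (A.card : ℝ) * B.card * ‖dsum χ A₁ B₁‖ := by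
    have h7 := mul_le_mul_of_nonneg_left h1 hN0.le
    have h8 := mul_le_mul_of_nonneg_left h2 hA0
    linarith
  have h9 : (m : ℝ) * (((M : ℝ) * N) * ‖dsum χ A B‖) ≤
      (m : ℝ) * ((A.card : ℝ) * B.card * ‖dsum χ A₁ B₁‖) :=
    mul_le_mul_of_nonneg_left h6 hm0.le
  have h11 : (m : ℝ) * ‖dsum χ A₁ B₁‖ ≤ 4 * ‖dsum χ A₃ B₃‖ + E := by linarith
  have h12 := mul_le_mul_of_nonneg_left h11 (mul_nonneg hA0 hB0)
  calc ((m : ℝ) * M * N) * ‖dsum χ A B‖ = (m : ℝ) * (((M : ℝ) * N) * ‖dsum χ A B‖) := by ring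
    _ ≤ _ := h9
    _ = (A.card : ℝ) * B.card * ((m : ℝ) * ‖dsum χ A₁ B₁‖) := by ring
    _ ≤ _ := h12

end Pool.Agent.N793.PG
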