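import Pool.Agent.N793.PG.Affine
import Pool.Agent.N793.PG.Asym

/-! # Exponents: structured sets control all sets -/

set_option autoImplicit false

namespace Pool.Agent.N793.PG

open Finset

/-- A system of templates: for every exponent `h` in `(0, 1)`, every prime `p` and every nontrivial
character `χ` a set of `⌈p ^ h⌉` pairs `(g, s)` with `χ g = 1`; the pair `(g, s)` stands for the maps
`a ↦ g a + s` (applied to `A`) and `b ↦ g b - s` (applied to `B`). -/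
def TemplateSystem (Λ : ℝ → ∀ p : ℕ, MulChar (ZMod p) ℂ → Finset (ZMod p × ZMod p)) : Prop :=
  ∀ h : ℝ, 0 < h → h < 1 → ∀ p : ℕ, p.Prime → ∀ χ : MulChar (ZMod p) ℂ, χ ≠ 1 →
    (∀ l ∈ Λ h p χ, χ l.1 = 1) ∧ (Λ h p χ).card = ⌈(p : ℝ) ^ h⌉₊

/-- The union of the images of `A` under `a ↦ g a + s`, `(g, s) ∈ Λ`. -/
noncomputable def up {p : ℕ} (Λ : Finset (ZMod p × ZMod p)) (A : Finset (ZMod p)) :
    Finset (ZMod p) :=
  Λ.biUnion fun l => A.image fun a => l.1 * a + l.2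

/-- The union of the images of `B` under `b ↦ g b - s`, `(g, s) ∈ Λ`. -/
noncomputable def down {p : ℕ} (Λ : Finset (ZMod p × ZMod p)) (B : Finset (ZMod p)) :
    Finset (ZMod p) :=
  Λ.biUnion fun l => B.image fun b => l.1 * b - l.2

/-- The bound `p ^ (-δ) (|Λ| |A|) (|Λ| |B|)` for the sums over the structured sets `up Λ A`,
`down Λ B`, where `A` and `B` have EXACTLY `⌈p ^ u⌉` and `⌈p ^ v⌉` elements. -/
def Struct (F : ∀ p : ℕ, MulChar (ZMod p) ℂ → Prop)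
    (Λ : ∀ p : ℕ, MulChar (ZMod p) ℂ → Finset (ZMod p × ZMod p)) (u v δ : ℝ) : Prop :=
  ∃ p₀ : ℕ, ∀ p : ℕ, p.Prime → p₀ < p → ∀ A B : Finset (ZMod p),
    A.card = ⌈(p : ℝ) ^ u⌉₊ → B.card = ⌈(p : ℝ) ^ v⌉₊ →
      ∀ χ : MulChar (ZMod p) ℂ, χ ≠ 1 → F p χ →
        ‖∑ a ∈ up (Λ p χ) A, ∑ b ∈ down (Λ p χ) B, χ (a + b)‖ ≤ (p : ℝ) ^ (-δ) *
          (((Λ p χ).card : ℝ) * (A.card : ℝ)) * (((Λ p χ).card : ℝ) * (B.card : ℝ))

variable {F : ∀ p : ℕ, MulChar (ZMod p) ℂ → Prop}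

theorem blow_eq {p : ℕ} [Fact p.Prime] (Λ : Finset (ZMod p × ZMod p)) (A : Finset (ZMod p)) :
    blow Λ A = up Λ A := by
  unfold blow up
  ext x
  simp only [mem_biUnion, mem_image]

theorem blow'_eq {p : ℕ} [Fact p.Prime] (Λ : Finset (ZMod p × ZMod p)) (A : Finset (ZMod p)) :
    blow' Λ A = down Λ A := by
  unfold blow' down
  ext x
  simp only [mem_biUnion, mem_image]

theorem up_le {p : ℕ} (Λ : Finset (ZMod p × ZMod p)) (A : Finset (ZMod p)) :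
    (up Λ A).card ≤ Λ.card * A.card := by
  unfold up
  refine (card_biUnion_le).trans ?_
  rw [← smul_eq_mul, ← sum_const]
  exact sum_le_sum fun l _ => card_image_le

theorem down_le {p : ℕ} (Λ : Finset (ZMod p × ZMod p)) (A : Finset (ZMod p)) :
    (down Λ A).card ≤ Λ.card * A.card := by
  unfold down
  refine (card_biUnion_le).trans ?_
  rw [← smul_eq_mul, ← sum_const]
  exact sum_le_sum fun l _ => card_image_le

theorem le_up {p : ℕ} [Fact p.Prime] {Λ : Finset (ZMod p × ZMod p)} {l : ZMod p × ZMod p}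
    (hl : l ∈ Λ) (h0 : l.1 ≠ 0) (A : Finset (ZMod p)) : A.card ≤ (up Λ A).card := by
  have h1 : (A.image fun a => l.1 * a + l.2) ⊆ up Λ A := by
    unfold up
    exact subset_biUnion_of_mem (fun l : ZMod p × ZMod p => A.image fun a => l.1 * a + l.2) hl
  refine le_trans (le_of_eq ?_) (card_le_card h1)
  refine (card_image_of_injective _ fun a b h => ?_).symm
  simp only [add_left_inj] at h
  exact mul_left_cancel₀ h0 h

theorem le_down {p : ℕ} [Fact p.Prime] {Λ : Finset (ZMod p × ZMod p)} {l : ZMod p × ZMod p}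
    (hl : l ∈ Λ) (h0 : l.1 ≠ 0) (A : Finset (ZMod p)) : A.card ≤ (down Λ A).card := by
  have h1 : (A.image fun a => l.1 * a - l.2) ⊆ down Λ A := by
    unfold down
    exact subset_biUnion_of_mem (fun l : ZMod p × ZMod p => A.image fun a => l.1 * a - l.2) hl
  refine le_trans (le_of_eq ?_) (card_le_card h1)
  refine (card_image_of_injective _ fun a b h => ?_).symm
  simp only [sub_left_inj] at h
  exact mul_left_cancel₀ h0 h

/-- all sets control structured sets -/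
theorem Saves.struct {Λ : ℝ → ∀ p : ℕ, MulChar (ZMod p) ℂ → Finset (ZMod p × ZMod p)}
    (hΛ : TemplateSystem Λ) {h u₀ v₀ u v δ : ℝ} (H : Saves F u₀ v₀ δ) (h0 : 0 < h) (h1 : h < 1)
    (hu : u₀ < u) (hv : v₀ < v) : Struct F (Λ h) u v δ := by
  obtain ⟨p₀, H⟩ := H
  refine ⟨p₀, fun p hp hlt A B hA hB χ hχ hF => ?_⟩
  have : Fact p.Prime := ⟨hp⟩
  obtain ⟨hl1, hl2⟩ := hΛ h h0 h1 p hp χ hχ
  have hp1 : (1 : ℝ) < p := by exact_mod_cast hp.one_lt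
  have hp0 : (0 : ℝ) < p := by linarith
  have hne : (Λ h p χ).Nonempty := by
    rw [← card_pos, hl2]
    exact Nat.ceil_pos.2 (Real.rpow_pos_of_pos hp0 _)
  obtain ⟨l, hl⟩ := hne
  have hl0 : l.1 ≠ 0 := by
    intro h2
    have := hl1 l hl
    rw [h2, MulChar.map_zero χ] at this
    exact zero_ne_one this
  have e1 : (p : ℝ) ^ u₀ < ((up (Λ h p χ) A).card : ℝ) := by
    have h3 : (p : ℝ) ^ u₀ < (p : ℝ) ^ u := Real.rpow_lt_rpow_of_exponent_lt hp1 hu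
    have h4 : (p : ℝ) ^ u ≤ (A.card : ℝ) := by rw [hA]; exact Nat.le_ceil _
    have h5 : (A.card : ℝ) ≤ ((up (Λ h p χ) A).card : ℝ) := by exact_mod_cast le_up hl hl0 A
    linarith
  have e2 : (p : ℝ) ^ v₀ < ((down (Λ h p χ) B).card : ℝ) := by
    have h3 : (p : ℝ) ^ v₀ < (p : ℝ) ^ v := Real.rpow_lt_rpow_of_exponent_lt hp1 hv
    have h4 : (p : ℝ) ^ v ≤ (B.card : ℝ) := by rw [hB]; exact Nat.le_ceil _
    have h5 : (B.card : ℝ) ≤ ((down (Λ h p χ) B).card : ℝ) := by exact_mod_cast le_down hl hl0 B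
    linarith
  refine (H p hp hlt _ _ e1 e2 χ hχ hF).trans ?_
  have h6 : ((up (Λ h p χ) A).card : ℝ) ≤ ((Λ h p χ).card : ℝ) * A.card := by
    exact_mod_cast up_le (Λ h p χ) A
  have h7 : ((down (Λ h p χ) B).card : ℝ) ≤ ((Λ h p χ).card : ℝ) * B.card := by
    exact_mod_cast down_le (Λ h p χ) B
  have h8 : (0 : ℝ) < (p : ℝ) ^ (-δ) := Real.rpow_pos_of_pos hp0 _
  exact mul_le_mul (mul_le_mul_of_nonneg_left h6 h8.le) h7 (Nat.cast_nonneg _) (by positivity)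

/-- **Structured sets control all sets.** -/
theorem Struct.descend {Λ : ℝ → ∀ p : ℕ, MulChar (ZMod p) ℂ → Finset (ZMod p × ZMod p)}
    (hΛ : TemplateSystem Λ) {h u v δ δ' : ℝ} (H : Struct F (Λ h) u v δ) (h0 : 0 < h) (hu : h < u)
    (hv : h < v) (hu1 : u + h < 1) (hv1 : v + h < 1) (hδ1 : δ' < δ - h)
    (hδ2 : δ' < (u - h) / 2) (hδ3 : δ' < (v - h) / 2) : Saves F u v δ' := by
  obtain ⟨p₀, H⟩ := H
  obtain ⟨p₁, hp₁⟩ := large 8 (1 - (u + h)) (by linarith)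
  obtain ⟨p₂, hp₂⟩ := large 8 (1 - (v + h)) (by linarith)
  obtain ⟨p₃, hp₃⟩ := large 12 (δ - h - δ') (by linarith)
  obtain ⟨p₄, hp₄⟩ := large 12 ((u - h) / 2 - δ') (by linarith)
  obtain ⟨p₅, hp₅⟩ := large 12 ((v - h) / 2 - δ') (by linarith)
  refine ⟨p₀ + p₁ + p₂ + p₃ + p₄ + p₅, fun p hp hlt A B hA hB χ hχ hF => ?_⟩
  have hlt0 : p₀ < p := by omega
  have e1 := hp₁ p (by omega)
  have e2 := hp₂ p (by omega)
  have e3 := hp₃ p (by omega)
  have e4 := hp₄ p (by omega)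
  have e5 := hp₅ p (by omega)
  clear hlt hp₁ hp₂ hp₃ hp₄ hp₅
  have : Fact p.Prime := ⟨hp⟩
  have hp1 : (1 : ℝ) ≤ p := by exact_mod_cast hp.one_le
  have hp0 : (0 : ℝ) < p := by linarith
  obtain ⟨hl1, hl2⟩ := hΛ h h0 (by linarith) p hp χ hχ
  have ha1 : 1 ≤ (p : ℝ) ^ u := Real.one_le_rpow hp1 (by linarith)
  have hb1 : 1 ≤ (p : ℝ) ^ v := Real.one_le_rpow hp1 (by linarith)
  have hg1 : 1 ≤ (p : ℝ) ^ h := Real.one_le_rpow hp1 h0.le
  have hMc : (p : ℝ) ^ u ≤ (⌈(p : ℝ) ^ u⌉₊ : ℝ) := Nat.le_ceil _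
  have hNc : (p : ℝ) ^ v ≤ (⌈(p : ℝ) ^ v⌉₊ : ℝ) := Nat.le_ceil _
  have hMc2 := ceil_le_two_mul ha1
  have hNc2 := ceil_le_two_mul hb1
  have hmc2 := ceil_le_two_mul hg1
  have hmc : (p : ℝ) ^ h ≤ (⌈(p : ℝ) ^ h⌉₊ : ℝ) := Nat.le_ceil _
  have hMA : ⌈(p : ℝ) ^ u⌉₊ ≤ A.card := Nat.ceil_le.2 hA.le
  have hNB : ⌈(p : ℝ) ^ v⌉₊ ≤ B.card := Nat.ceil_le.2 hB.le
  have hM1 : 1 ≤ ⌈(p : ℝ) ^ u⌉₊ := Nat.ceil_pos.2 (by linarith)
  have hN1 : 1 ≤ ⌈(p : ℝ) ^ v⌉₊ := Nat.ceil_pos.2 (by linarith)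
  have hm1 : 1 ≤ ⌈(p : ℝ) ^ h⌉₊ := Nat.ceil_pos.2 (by linarith)
  have hKp : 2 * (⌈(p : ℝ) ^ h⌉₊ * ⌈(p : ℝ) ^ u⌉₊) ≤ p := by
    have h2 : (p : ℝ) ^ h * (p : ℝ) ^ u * (p : ℝ) ^ (1 - (u + h)) = p := by
      rw [← Real.rpow_add hp0, ← Real.rpow_add hp0, show h + u + (1 - (u + h)) = 1 by ring,
        Real.rpow_one]
    have h3 : 2 * (((⌈(p : ℝ) ^ h⌉₊ : ℕ) : ℝ) * ((⌈(p : ℝ) ^ u⌉₊ : ℕ) : ℝ)) ≤ p := by
      have h4 : ((⌈(p : ℝ) ^ h⌉₊ : ℕ) : ℝ) * ((⌈(p : ℝ) ^ u⌉₊ : ℕ) : ℝ) ≤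
          (2 * (p : ℝ) ^ h) * (2 * (p : ℝ) ^ u) :=
        mul_le_mul hmc2 hMc2 (Nat.cast_nonneg _) (by linarith)
      have h5 : (p : ℝ) ^ h * (p : ℝ) ^ u * 8 ≤ (p : ℝ) ^ h * (p : ℝ) ^ u *
          (p : ℝ) ^ (1 - (u + h)) := mul_le_mul_of_nonneg_left e1 (by positivity)
      linarith
    exact_mod_cast h3
  have hLp : 2 * (⌈(p : ℝ) ^ h⌉₊ * ⌈(p : ℝ) ^ v⌉₊) ≤ p := by
    have h2 : (p : ℝ) ^ h * (p : ℝ) ^ v * (p : ℝ) ^ (1 - (v + h)) = p := by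
      rw [← Real.rpow_add hp0, ← Real.rpow_add hp0, show h + v + (1 - (v + h)) = 1 by ring,
        Real.rpow_one]
    have h3 : 2 * (((⌈(p : ℝ) ^ h⌉₊ : ℕ) : ℝ) * ((⌈(p : ℝ) ^ v⌉₊ : ℕ) : ℝ)) ≤ p := by
      have h4 : ((⌈(p : ℝ) ^ h⌉₊ : ℕ) : ℝ) * ((⌈(p : ℝ) ^ v⌉₊ : ℕ) : ℝ) ≤
          (2 * (p : ℝ) ^ h) * (2 * (p : ℝ) ^ v) :=
        mul_le_mul hmc2 hNc2 (Nat.cast_nonneg _) (by linarith)
      have h5 : (p : ℝ) ^ h * (p : ℝ) ^ v * 8 ≤ (p : ℝ) ^ h * (p : ℝ) ^ v *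
          (p : ℝ) ^ (1 - (v + h)) := mul_le_mul_of_nonneg_left e2 (by positivity)
      linarith
    exact_mod_cast h3
  -- subsample
  obtain ⟨A₁, -, hA1, s1⟩ := sub_one χ A B ⌈(p : ℝ) ^ u⌉₊ hMA
  obtain ⟨B₁, -, hB1, s2⟩ := sub_one χ B A₁ ⌈(p : ℝ) ^ v⌉₊ hNB
  rw [dsum_comm χ B, dsum_comm χ B₁] at s2
  obtain ⟨d, t, hd, htem⟩ := template χ hχ (Λ h p χ) hl1 A₁ B₁ ⌈(p : ℝ) ^ h⌉₊ ⌈(p : ℝ) ^ u⌉₊
    ⌈(p : ℝ) ^ v⌉₊ hl2 hm1 hM1 hN1 hA1 hB1 hKp hLp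
  have hst := H p hp hlt0 (aff d t A₁) (aff d (-t) B₁) (by rw [aff_card hd, hA1])
    (by rw [aff_card hd, hB1]) χ hχ hF
  rw [← blow_eq, ← blow'_eq, aff_card hd, aff_card hd, hA1, hB1, hl2] at hst
  change ‖dsum χ (blow (Λ h p χ) (aff d t A₁)) (blow' (Λ h p χ) (aff d (-t) B₁))‖ ≤ _ at hst
  change ‖dsum χ A B‖ ≤ _
  clear hKp hLp hMA hNB H hA1 hB1 hl1 hl2
  generalize (⌈(p : ℝ) ^ u⌉₊) = M at *
  generalize (⌈(p : ℝ) ^ v⌉₊) = N at *
  generalize (⌈(p : ℝ) ^ h⌉₊) = m at *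
  set S := ‖dsum χ A B‖ with hS
  set S₁ := ‖dsum χ A₁ B₁‖ with hS₁
  set q := (p : ℝ) ^ (-δ) with hq
  have hq0 : 0 < q := Real.rpow_pos_of_pos hp0 _
  set x := (p : ℝ) ^ ((h - u) / 2) with hx
  set y := (p : ℝ) ^ ((h - v) / 2) with hy
  have hx0 : 0 < x := Real.rpow_pos_of_pos hp0 _
  have hy0 : 0 < y := Real.rpow_pos_of_pos hp0 _
  have hM0 : (0 : ℝ) < M := by linarith
  have hN0 : (0 : ℝ) < N := by linarith
  have hm0 : (0 : ℝ) < m := by linarith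
  have hsg : Real.sqrt (2 * m) ≤ 2 * (p : ℝ) ^ (h / 2) := by
    apply Real.sqrt_le_iff.2
    constructor
    · positivity
    · rw [mul_pow, ← Real.rpow_natCast ((p : ℝ) ^ (h / 2)) 2, ← Real.rpow_mul hp0.le]
      rw [show h / 2 * ((2 : ℕ) : ℝ) = h by push_cast; ring]
      linarith
  have hsM : (p : ℝ) ^ (u / 2) ≤ Real.sqrt M := by
    apply Real.le_sqrt_of_sq_le
    rw [← Real.rpow_natCast ((p : ℝ) ^ (u / 2)) 2, ← Real.rpow_mul hp0.le]
    rw [show u / 2 * ((2 : ℕ) : ℝ) = u by push_cast; ring]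
    exact hMc
  have hsN : (p : ℝ) ^ (v / 2) ≤ Real.sqrt N := by
    apply Real.le_sqrt_of_sq_le
    rw [← Real.rpow_natCast ((p : ℝ) ^ (v / 2)) 2, ← Real.rpow_mul hp0.le]
    rw [show v / 2 * ((2 : ℕ) : ℝ) = v by push_cast; ring]
    exact hNc
  have hmM : Real.sqrt (2 * m) ≤ Real.sqrt M * (2 * x) := by
    refine hsg.trans ?_
    have h2 : (p : ℝ) ^ (h / 2) = (p : ℝ) ^ (u / 2) * x := by
      rw [hx, ← Real.rpow_add hp0]; congr 1; ring
    rw [h2]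
    have := mul_le_mul_of_nonneg_right hsM hx0.le
    linarith
  have hmN : Real.sqrt (2 * m) ≤ Real.sqrt N * (2 * y) := by
    refine hsg.trans ?_
    have h2 : (p : ℝ) ^ (h / 2) = (p : ℝ) ^ (v / 2) * y := by
      rw [hy, ← Real.rpow_add hp0]; congr 1; ring
    rw [h2]
    have := mul_le_mul_of_nonneg_right hsN hy0.le
    linarith
  have hM2 : Real.sqrt M ^ 2 = M := Real.sq_sqrt hM0.le
  have hN2 : Real.sqrt N ^ 2 = N := Real.sq_sqrt hN0.le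
  have hE : Real.sqrt (2 * m) * (m * Real.sqrt M * Real.sqrt N) * (Real.sqrt M + Real.sqrt N) ≤
      (m * M * N) * (2 * x + 2 * y) := by
    have hsM0 : 0 ≤ Real.sqrt M := Real.sqrt_nonneg _
    have hsN0 : 0 ≤ Real.sqrt N := Real.sqrt_nonneg _
    generalize Real.sqrt (M : ℝ) = a at *
    generalize Real.sqrt (N : ℝ) = b at *
    generalize Real.sqrt (2 * (m : ℝ)) = r at *
    rw [← hM2, ← hN2]
    have h2 : r * (m * a ^ 2 * b) ≤ (b * (2 * y)) * (m * a ^ 2 * b) :=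
      mul_le_mul_of_nonneg_right hmN (by positivity)
    have h3 : r * (m * a * b ^ 2) ≤ (a * (2 * x)) * (m * a * b ^ 2) :=
      mul_le_mul_of_nonneg_right hmM (by positivity)
    calc r * (m * a * b) * (a + b) = r * (m * a ^ 2 * b) + r * (m * a * b ^ 2) := by ring
      _ ≤ (b * (2 * y)) * (m * a ^ 2 * b) + (a * (2 * x)) * (m * a * b ^ 2) := add_le_add h2 h3
      _ = _ := by ring
  -- S₁ ≤ M N (4 q g + 4 x + 4 y)
  have h3 : S₁ ≤ (M * N) * (4 * (q * (p : ℝ) ^ h) + 4 * x + 4 * y) := by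
    have h4 : (m : ℝ) / 2 * S₁ ≤ (m : ℝ) / 2 *
        ((M * N) * (4 * (q * (p : ℝ) ^ h) + 4 * x + 4 * y)) := by
      have h5 : q * (m * M) * (m * N) ≤ (m * M * N) * (2 * (q * (p : ℝ) ^ h)) := by
        have h6 : (m * M * N * q) * (m : ℝ) ≤ (m * M * N * q) * (2 * (p : ℝ) ^ h) :=
          mul_le_mul_of_nonneg_left hmc2 (by positivity)
        linarith
      calc (m : ℝ) / 2 * S₁ ≤ _ := htem
        _ ≤ (m * M * N) * (2 * (q * (p : ℝ) ^ h)) + (m * M * N) * (2 * x + 2 * y) :=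
            add_le_add (hst.trans h5) hE
        _ = _ := by ring
    exact le_of_mul_le_mul_left h4 (by positivity)
  set z := (p : ℝ) ^ (-δ') with hz
  have hz0 : 0 < z := Real.rpow_pos_of_pos hp0 _
  have h4 : 12 * (q * (p : ℝ) ^ h) ≤ z := by
    have h8 : z = (p : ℝ) ^ (δ - h - δ') * (q * (p : ℝ) ^ h) := by
      rw [hz, hq, ← Real.rpow_add hp0, ← Real.rpow_add hp0]
      congr 1
      ring
    rw [h8]
    exact mul_le_mul_of_nonneg_right e3 (by positivity)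
  have h5 : 12 * x ≤ z := by
    have h8 : z = (p : ℝ) ^ ((u - h) / 2 - δ') * x := by
      rw [hz, hx, ← Real.rpow_add hp0]
      congr 1
      ring
    rw [h8]
    exact mul_le_mul_of_nonneg_right e4 hx0.le
  have h6 : 12 * y ≤ z := by
    have h8 : z = (p : ℝ) ^ ((v - h) / 2 - δ') * y := by
      rw [hz, hy, ← Real.rpow_add hp0]
      congr 1
      ring
    rw [h8]
    exact mul_le_mul_of_nonneg_right e5 hy0.le
  have h7 : S₁ ≤ (M * N) * z :=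
    h3.trans (mul_le_mul_of_nonneg_left (by linarith) (by positivity))
  -- undo the subsampling
  have hA0 : (0 : ℝ) ≤ A.card := Nat.cast_nonneg _
  have hB0 : (0 : ℝ) ≤ B.card := Nat.cast_nonneg _
  have h8 : ((M : ℝ) * N) * S ≤ ((M : ℝ) * N) * (z * A.card * B.card) := by
    have h9 : ((M : ℝ) * N) * S ≤ (A.card : ℝ) * B.card * S₁ := by
      have h10 := mul_le_mul_of_nonneg_left s1 hN0.le
      have h11 := mul_le_mul_of_nonneg_left s2 hA0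
      linarith
    have h12 : (A.card : ℝ) * B.card * S₁ ≤ (A.card : ℝ) * B.card * ((M * N) * z) :=
      mul_le_mul_of_nonneg_left h7 (mul_nonneg hA0 hB0)
    linarith
  exact le_of_mul_le_mul_left h8 (by positivity)

/-- **Saving below `(u, v)` is decided on structured sets.** -/
theorem struct_iff {Λ : ℝ → ∀ p : ℕ, MulChar (ZMod p) ℂ → Finset (ZMod p × ZMod p)}
    (hΛ : TemplateSystem Λ) {u v : ℝ} (hu : 0 < u) (hv : 0 < v) (hu1 : u < 1) (hv1 : v < 1) :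
    (∃ c δ : ℝ, 0 < c ∧ 0 < δ ∧ Saves F (u - c) (v - c) δ) ↔
      ∃ h δ : ℝ, 0 < h ∧ h < min (min u v) (min (1 - u) (1 - v)) ∧ h < δ ∧
        Struct F (Λ h) u v δ := by
  constructor
  · rintro ⟨c, δ, hc, hδ, H⟩
    set η := min δ (min (min u v) (min (1 - u) (1 - v))) with hη
    have hη0 : 0 < η := lt_min hδ (lt_min (lt_min hu hv) (lt_min (by linarith) (by linarith)))
    have hη1 : η ≤ δ := min_le_left _ _
    have hη2 : η ≤ min (min u v) (min (1 - u) (1 - v)) := min_le_right _ _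
    have hη3 : η ≤ u := hη2.trans ((min_le_left _ _).trans (min_le_left _ _))
    exact ⟨η / 2, δ, by linarith, by linarith, by linarith,
      H.struct hΛ (by linarith) (by linarith) (by linarith) (by linarith)⟩
  · rintro ⟨h, δ, h0, h1, h2, H⟩
    have g1 : h < u := h1.trans_le ((min_le_left _ _).trans (min_le_left _ _))
    have g2 : h < v := h1.trans_le ((min_le_left _ _).trans (min_le_right _ _))
    have g3 : h < 1 - u := h1.trans_le ((min_le_right _ _).trans (min_le_left _ _))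
    have g4 : h < 1 - v := h1.trans_le ((min_le_right _ _).trans (min_le_right _ _))
    set κ := min (δ - h) (min ((u - h) / 2) ((v - h) / 2)) with hκ
    have hκ0 : 0 < κ := lt_min (by linarith) (lt_min (by linarith) (by linarith))
    have hκ1 : κ ≤ δ - h := min_le_left _ _
    have hκ2 : κ ≤ (u - h) / 2 := (min_le_right _ _).trans (min_le_left _ _)
    have hκ3 : κ ≤ (v - h) / 2 := (min_le_right _ _).trans (min_le_right _ _)
    have H1 := H.descend hΛ (δ' := κ / 2) h0 g1 g2 (by linarith) (by linarith) (by linarith)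
      (by linarith) (by linarith)
    set η := min (κ / 16) (min ((1 - u) / 2) ((1 - v) / 2)) with hη
    have hη0 : 0 < η := lt_min (by linarith) (lt_min (by linarith) (by linarith))
    have hη1 : η ≤ κ / 16 := min_le_left _ _
    have hη2 : η ≤ (1 - u) / 2 := (min_le_right _ _).trans (min_le_left _ _)
    have hη3 : η ≤ (1 - v) / 2 := (min_le_right _ _).trans (min_le_right _ _)
    have H2 := H1.oneSize (β := u + η) (β' := v + η) (by linarith) (by linarith)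
    have H3 := H2.descend (h := 2 * η) (δ' := κ / 16) (by linarith) (by linarith) (by linarith)
      (by linarith) (by linarith) (by linarith) (by linarith) (by linarith)
    rw [show u + η - 2 * η = u - η by ring, show v + η - 2 * η = v - η by ring] at H3
    exact ⟨η, κ / 16, hη0, by linarith, H3⟩

/-- the conjecture on structured sets -/
theorem conj_struct {Λ : ℝ → ∀ p : ℕ, MulChar (ZMod p) ℂ → Finset (ZMod p × ZMod p)}
    (hΛ : TemplateSystem Λ) :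
    (∀ ε : ℝ, 0 < ε → ∃ p₀ : ℕ, ∃ δ : ℝ, 0 < δ ∧
      ∀ p : ℕ, p.Prime → p₀ < p →
        ∀ A B : Finset (ZMod p),
          (p : ℝ) ^ ε < (A.card : ℝ) → (p : ℝ) ^ ε < (B.card : ℝ) →
          ∀ χ : MulChar (ZMod p) ℂ, χ ≠ 1 →
            ‖∑ a ∈ A, ∑ b ∈ B, χ (a + b)‖ ≤ (p : ℝ) ^ (-δ) * (A.card : ℝ) * (B.card : ℝ)) ↔
      ∀ γ : ℝ, 0 < γ → γ ≤ 1 / 2 →
        ∃ h δ : ℝ, 0 < h ∧ h < γ ∧ h < δ ∧ Struct (fun _ _ => True) (Λ h) γ γ δ := by
  have key : ∀ γ : ℝ, 0 < γ → γ ≤ 1 / 2 →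
      ((∃ c δ : ℝ, 0 < c ∧ 0 < δ ∧ Saves (fun _ _ => True) (γ - c) (γ - c) δ) ↔
        ∃ h δ : ℝ, 0 < h ∧ h < γ ∧ h < δ ∧ Struct (fun _ _ => True) (Λ h) γ γ δ) := by
    intro γ h0 h1
    rw [struct_iff hΛ h0 h0 (by linarith) (by linarith)]
    have h2 : min (min γ γ) (min (1 - γ) (1 - γ)) = γ := by
      rw [min_self, min_self, min_eq_left (by linarith)]
    rw [h2]
  constructor
  · intro H γ hγ0 hγ
    rw [← key γ hγ0 hγ]
    obtain ⟨p₀, δ, hδ, H⟩ := H (γ - γ / 2) (by linarith)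
    exact ⟨γ / 2, δ, by linarith, hδ, p₀, fun p hp hlt A B hA hB χ hχ _ =>
      H p hp hlt A B hA hB χ hχ⟩
  · intro H ε hε
    have hm0 : 0 < min ε (1 / 2) := lt_min hε (by norm_num)
    obtain ⟨c, δ, hc, hδ, H⟩ := (key _ hm0 (min_le_right _ _)).2
      (H (min ε (1 / 2)) hm0 (min_le_right _ _))
    have hle := min_le_left ε (1 / 2)
    obtain ⟨p₀, H'⟩ := H.mono (α' := ε) (α₁' := ε) (δ' := δ) (by linarith) (by linarith) le_rfl
    exact ⟨p₀, δ, hδ, fun p hp hlt A B hA hB χ hχ => H' p hp hlt A B hA hB χ hχ trivial⟩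

/-- intervals of length `⌈p ^ h⌉` -/
noncomputable def intervals (h : ℝ) (p : ℕ) (_χ : MulChar (ZMod p) ℂ) :
    Finset (ZMod p × ZMod p) :=
  (Finset.range ⌈(p : ℝ) ^ h⌉₊).image fun s : ℕ => (1, (s : ZMod p))

theorem intervals_system : TemplateSystem intervals := by
  intro h h0 h1 p hp χ hχ
  have : Fact p.Prime := ⟨hp⟩
  have hp1 : (1 : ℝ) ≤ p := by exact_mod_cast hp.one_le
  constructor
  · intro l hl
    unfold intervals at hl
    obtain ⟨s, -, rfl⟩ := mem_image.1 hl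
    exact map_one χ
  · unfold intervals
    rw [card_image_of_injOn, card_range]
    intro s hs s' hs' hss
    rw [mem_coe, mem_range] at hs hs'
    have hle : ⌈(p : ℝ) ^ h⌉₊ ≤ p := by
      refine Nat.ceil_le.2 ?_
      calc (p : ℝ) ^ h ≤ (p : ℝ) ^ (1 : ℝ) := Real.rpow_le_rpow_of_exponent_le hp1 h1.le
        _ = p := Real.rpow_one _
    have h2 : (s : ZMod p) = (s' : ZMod p) := (Prod.mk.injEq _ _ _ _ ▸ hss).2
    rw [ZMod.natCast_eq_natCast_iff'] at h2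
    rwa [Nat.mod_eq_of_lt (hs.trans_le hle), Nat.mod_eq_of_lt (hs'.trans_le hle)] at h2

end Pool.Agent.N793.PG
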